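import Pool.Agent.Lib.MP_177f07_gt.Defs

/-!
MODULE P: the space `Prob K`, tensors, marginals, products, Riesz measures.
-/

set_option autoImplicit false

open scoped Cardinal
open MeasureTheory

namespace Pool.Agent.Lib.MP_177f07_gt

universe u

section P

variable {K L M : Type u} [TopologicalSpace K] [CompactSpace K] [T2Space K]
  [TopologicalSpace L] [CompactSpace L] [T2Space L]
  [TopologicalSpace M] [CompactSpace M] [T2Space M]

omit [T2Space K] in
theorem Prob.mono (φ : Prob K) {f g : C(K, ℝ)} (h : f ≤ g) : φ.1 f ≤ φ.1 g := by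
  have h1 := φ.2.1 (g - f) (sub_nonneg.2 h)
  rw [map_sub] at h1
  linarith

omit [T2Space K] in
theorem Prob.abs_le_abs (φ : Prob K) (f : C(K, ℝ)) : |φ.1 f| ≤ φ.1 |f| := by
  rw [abs_le]
  constructor
  · have h0 : -|f| ≤ f := ContinuousMap.le_def.2 fun x => by
      rw [ContinuousMap.neg_apply, ContinuousMap.abs_apply]
      exact neg_abs_le _
    have h := φ.mono h0
    rw [map_neg] at h
    exact h
  · have h0 : f ≤ |f| := ContinuousMap.le_def.2 fun x => by
      rw [ContinuousMap.abs_apply]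
      exact le_abs_self _
    exact φ.mono h0

omit [T2Space K] in
theorem Prob.apply_const (φ : Prob K) (c : ℝ) : φ.1 (ContinuousMap.const K c) = c := by
  have h : ContinuousMap.const K c = c • (1 : C(K, ℝ)) := by
    ext x
    simp
  rw [h, map_smul, φ.2.2]
  simp

omit [T2Space K] in
theorem Prob.abs_le_norm (φ : Prob K) (f : C(K, ℝ)) : |φ.1 f| ≤ ‖f‖ := by
  refine (φ.abs_le_abs f).trans ?_
  have h : |f| ≤ ContinuousMap.const K ‖f‖ := by
    refine ContinuousMap.le_def.2 fun x => ?_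
    rw [ContinuousMap.abs_apply]
    exact f.norm_coe_le_norm x
  exact (φ.mono h).trans (φ.apply_const _).le

omit [T2Space K] in
/-- A positive normalised linear functional as a point of `Prob K`. -/
theorem Prob.exists_of_linear (ψ : C(K, ℝ) →ₗ[ℝ] ℝ) (hpos : ∀ f, 0 ≤ f → 0 ≤ ψ f)
    (h1 : ψ 1 = 1) : ∃ φ : Prob K, ∀ f, φ.1 f = ψ f := by
  have mono : ∀ f g : C(K, ℝ), f ≤ g → ψ f ≤ ψ g := by
    intro f g h
    have h1 := hpos (g - f) (sub_nonneg.2 h)
    rw [map_sub] at h1
    linarith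
  have hb : ∀ f, ‖ψ f‖ ≤ 1 * ‖f‖ := by
    intro f
    have h2 : ψ (‖f‖ • (1 : C(K, ℝ))) = ‖f‖ := by
      rw [map_smul, h1]
      simp
    rw [one_mul, Real.norm_eq_abs, abs_le]
    constructor
    · have h3 : -(‖f‖ • (1 : C(K, ℝ))) ≤ f := by
        intro x
        have := (abs_le.1 (f.norm_coe_le_norm x)).1
        simpa using this
      have h4 := mono _ _ h3
      rw [map_neg, h2] at h4
      exact h4
    · have h3 : f ≤ ‖f‖ • (1 : C(K, ℝ)) := by
        intro x
        have := (abs_le.1 (f.norm_coe_le_norm x)).2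
        simpa using this
      have h4 := mono _ _ h3
      rw [h2] at h4
      exact h4
  exact ⟨⟨StrongDual.toWeakDual (LinearMap.mkContinuous ψ 1 hb), hpos, h1⟩, fun f => rfl⟩

omit [T2Space K] in
theorem isClosed_prob : IsClosed {ψ : WeakDual ℝ C(K, ℝ) |
    (∀ f : C(K, ℝ), 0 ≤ f → 0 ≤ ψ f) ∧ ψ 1 = 1} := by
  have h1 : {ψ : WeakDual ℝ C(K, ℝ) | (∀ f : C(K, ℝ), 0 ≤ f → 0 ≤ ψ f) ∧ ψ 1 = 1} =
      (⋂ f : C(K, ℝ), ⋂ _ : 0 ≤ f, {ψ : WeakDual ℝ C(K, ℝ) | 0 ≤ ψ f}) ∩
        {ψ : WeakDual ℝ C(K, ℝ) | ψ 1 = 1} := by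
    ext ψ
    simp
  rw [h1]
  refine IsClosed.inter (isClosed_iInter fun f => isClosed_iInter fun _ => ?_) ?_
  · exact isClosed_le continuous_const (WeakDual.eval_continuous f)
  · exact isClosed_eq (WeakDual.eval_continuous 1) continuous_const

instance instCompactProb : CompactSpace (Prob K) := by
  refine isCompact_iff_compactSpace.1 ?_
  refine (WeakDual.isCompact_closedBall (𝕜 := ℝ) (E := C(K, ℝ)) 0 1).of_isClosed_subset
    isClosed_prob ?_
  intro ψ hψ
  have h : ∀ f : C(K, ℝ), ‖ψ f‖ ≤ 1 * ‖f‖ := by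
    intro f
    rw [one_mul]
    exact Prob.abs_le_norm (⟨ψ, hψ⟩ : Prob K) f
  rw [Set.mem_preimage, mem_closedBall_zero_iff]
  exact ContinuousLinearMap.opNorm_le_bound _ zero_le_one h

omit [T2Space K] in
theorem isInducing_prob :
    Topology.IsInducing (fun (φ : Prob K) (f : C(K, ℝ)) => φ.1 f) := by
  have h1 : Topology.IsInducing (fun (ψ : WeakDual ℝ C(K, ℝ)) (f : C(K, ℝ)) => ψ f) := ⟨rfl⟩
  exact h1.comp Topology.IsInducing.subtypeVal

theorem exists_pos_le {ι : Type u} (s : Set ι) (hs : s.Finite) (r : ι → ℝ)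
    (hr : ∀ i ∈ s, 0 < r i) : ∃ ε : ℝ, 0 < ε ∧ ∀ i ∈ s, ε ≤ r i := by
  induction s, hs using Set.Finite.induction_on with
  | empty => exact ⟨1, one_pos, fun i hi => absurd hi (Set.notMem_empty i)⟩
  | insert _ _ ih =>
    obtain ⟨ε, h1, h2⟩ := ih fun i hi => hr i (Set.mem_insert_of_mem _ hi)
    refine ⟨min ε (r _), lt_min h1 (hr _ (Set.mem_insert _ _)), ?_⟩
    intro i hi
    rcases Set.mem_insert_iff.1 hi with h | h
    · rw [h]; exact min_le_right _ _
    · exact (min_le_left _ _).trans (h2 i h)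

omit [T2Space K] in
/-- Closure in `Prob K` in terms of finitely many test functions. -/
theorem mem_closure_prob_iff (A : Set (Prob K)) (x : Prob K) :
    x ∈ closure A ↔ ∀ (s : Finset C(K, ℝ)) (ε : ℝ), 0 < ε →
      ∃ φ ∈ A, ∀ f ∈ s, |φ.1 f - x.1 f| < ε := by
  have hb := (Filter.hasBasis_pi (fun f : C(K, ℝ) =>
    Metric.nhds_basis_ball (x := x.1 f)))
  have hb2 := hb.comap (fun (φ : Prob K) (f : C(K, ℝ)) => φ.1 f)
  have h1 : nhds x = Filter.comap (fun (φ : Prob K) (f : C(K, ℝ)) => φ.1 f)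
      (Filter.pi fun f : C(K, ℝ) => nhds (x.1 f)) := by
    rw [isInducing_prob.nhds_eq_comap, nhds_pi]
  rw [← h1] at hb2
  rw [mem_closure_iff_nhds_basis hb2]
  constructor
  · intro h s ε hε
    obtain ⟨φ, hφ, h2⟩ := h (↑s, fun _ => ε) ⟨s.finite_toSet, fun _ _ => hε⟩
    refine ⟨φ, hφ, fun f hf => ?_⟩
    have h3 := h2 f hf
    rwa [Metric.mem_ball, Real.dist_eq] at h3
  · rintro h ⟨I, r⟩ ⟨hI, hr⟩
    obtain ⟨ε, hε, h2⟩ := exists_pos_le I hI r hr
    obtain ⟨φ, hφ, h3⟩ := h hI.toFinset ε hε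
    refine ⟨φ, hφ, fun f hf => ?_⟩
    rw [Metric.mem_ball, Real.dist_eq]
    exact lt_of_lt_of_le (h3 f (hI.mem_toFinset.2 hf)) (h2 f hf)

/-- The span of the tensors is dense. -/
theorem dense_tens : Dense (Submodule.span ℝ
    (Set.range fun p : C(K, ℝ) × C(L, ℝ) => tens p.1 p.2) : Set C(K × L, ℝ)) := by
  set R : Set C(K × L, ℝ) := Set.range fun p : C(K, ℝ) × C(L, ℝ) => tens p.1 p.2 with hR
  have hone : (1 : C(K × L, ℝ)) ∈ R := ⟨(1, 1), by ext x; simp [tens]⟩
  have hmul : ∀ a ∈ R, ∀ b ∈ R, a * b ∈ R := by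
    rintro _ ⟨⟨f, g⟩, rfl⟩ _ ⟨⟨f', g'⟩, rfl⟩
    refine ⟨(f * f', g * g'), ?_⟩
    ext x
    simp only [tens, ContinuousMap.mul_apply, ContinuousMap.comp_apply]
    ring
  let S : Submonoid C(K × L, ℝ) :=
    { carrier := R
      one_mem' := hone
      mul_mem' := fun {a b} ha hb => hmul a ha b hb }
  have hspan : (Algebra.adjoin ℝ R).toSubmodule = Submodule.span ℝ R := by
    rw [Algebra.adjoin_eq_span]
    congr 1
    exact congrArg (fun T : Submonoid C(K × L, ℝ) => (T : Set C(K × L, ℝ)))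
      (Submonoid.closure_eq S)
  have hsep : (Algebra.adjoin ℝ R).SeparatesPoints := by
    intro x y hxy
    by_cases h1 : x.1 = y.1
    · have h2 : x.2 ≠ y.2 := fun h => hxy (Prod.ext h1 h)
      obtain ⟨g, hg⟩ := exists_continuous_zero_one_of_isClosed
        (isClosed_singleton (x := x.2)) (isClosed_singleton (x := y.2))
        (Set.disjoint_singleton.2 h2)
      refine ⟨_, ⟨tens 1 g, Algebra.subset_adjoin ⟨(1, g), rfl⟩, rfl⟩, ?_⟩
      simp only [tens, ContinuousMap.mul_apply, ContinuousMap.comp_apply,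
        ContinuousMap.one_apply, one_mul]
      have e1 : g x.2 = 0 := hg.1 rfl
      have e2 : g y.2 = 1 := hg.2.1 rfl
      change g x.2 ≠ g y.2
      rw [e1, e2]
      exact zero_ne_one
    · obtain ⟨g, hg⟩ := exists_continuous_zero_one_of_isClosed
        (isClosed_singleton (x := x.1)) (isClosed_singleton (x := y.1))
        (Set.disjoint_singleton.2 h1)
      refine ⟨_, ⟨tens g 1, Algebra.subset_adjoin ⟨(g, 1), rfl⟩, rfl⟩, ?_⟩
      simp only [tens, ContinuousMap.mul_apply, ContinuousMap.comp_apply,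
        ContinuousMap.one_apply, mul_one]
      have e1 : g x.1 = 0 := hg.1 rfl
      have e2 : g y.1 = 1 := hg.2.1 rfl
      change g x.1 ≠ g y.1
      rw [e1, e2]
      exact zero_ne_one
  have htop := ContinuousMap.subalgebra_topologicalClosure_eq_top_of_separatesPoints
    (Algebra.adjoin ℝ R) hsep
  intro h
  have h1 : h ∈ (Algebra.adjoin ℝ R).topologicalClosure := by rw [htop]; trivial
  have h2 : h ∈ closure ((Algebra.adjoin ℝ R : Subalgebra ℝ C(K × L, ℝ)) :
      Set C(K × L, ℝ)) := h1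
  have h3 : ((Algebra.adjoin ℝ R : Subalgebra ℝ C(K × L, ℝ)) : Set C(K × L, ℝ)) =
      (Submodule.span ℝ R : Set C(K × L, ℝ)) := by
    rw [← hspan]
    rfl
  rw [← h3]
  exact h2

/-- an element of the span of the tensors is controlled by finitely many tensors -/
theorem span_tens_control {h : C(K × L, ℝ)} (hh : h ∈ Submodule.span ℝ
    (Set.range fun p : C(K, ℝ) × C(L, ℝ) => tens p.1 p.2)) (ε : ℝ) (hε : 0 < ε) :
    ∃ (s : Finset (C(K, ℝ) × C(L, ℝ))) (δ : ℝ), 0 < δ ∧ ∀ φ x : Prob (K × L),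
      (∀ p ∈ s, |φ.1 (tens p.1 p.2) - x.1 (tens p.1 p.2)| < δ) → |φ.1 h - x.1 h| < ε := by
  classical
  induction hh using Submodule.span_induction generalizing ε with
  | mem h hh =>
    obtain ⟨p, rfl⟩ := hh
    exact ⟨{p}, ε, hε, fun φ x hx => hx p (Finset.mem_singleton_self p)⟩
  | zero =>
    refine ⟨∅, 1, one_pos, fun φ x _ => ?_⟩
    rw [map_zero, map_zero]
    simpa using hε
  | add a b _ _ iha ihb =>
    obtain ⟨s, δ, hδ, hs⟩ := iha (ε / 2) (half_pos hε)
    obtain ⟨t, δ', hδ', ht⟩ := ihb (ε / 2) (half_pos hε)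
    refine ⟨s ∪ t, min δ δ', lt_min hδ hδ', fun φ x hx => ?_⟩
    have h1 := hs φ x fun p hp =>
      lt_of_lt_of_le (hx p (Finset.mem_union_left _ hp)) (min_le_left _ _)
    have h2 := ht φ x fun p hp =>
      lt_of_lt_of_le (hx p (Finset.mem_union_right _ hp)) (min_le_right _ _)
    rw [map_add, map_add]
    have h3 : φ.1 a + φ.1 b - (x.1 a + x.1 b) = (φ.1 a - x.1 a) + (φ.1 b - x.1 b) := by ring
    rw [h3]
    refine (abs_add_le _ _).trans_lt ?_
    linarith
  | smul c a _ iha =>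
    obtain ⟨s, δ, hδ, hs⟩ := iha (ε / (|c| + 1)) (by positivity)
    refine ⟨s, δ, hδ, fun φ x hx => ?_⟩
    have h1 := hs φ x hx
    rw [map_smul, map_smul, smul_eq_mul, smul_eq_mul, ← mul_sub, abs_mul]
    rw [lt_div_iff₀ (by positivity)] at h1
    have h2 : 0 ≤ |φ.1 a - x.1 a| := abs_nonneg _
    have h3 : 0 ≤ |c| := abs_nonneg c
    nlinarith

/-- Closure in `Prob (K × L)` is tested by finitely many tensors (Stone-Weierstrass). -/
theorem mem_closure_prob_prod_iff (A : Set (Prob (K × L))) (x : Prob (K × L)) :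
    x ∈ closure A ↔ ∀ (s : Finset (C(K, ℝ) × C(L, ℝ))) (ε : ℝ), 0 < ε →
      ∃ φ ∈ A, ∀ p ∈ s, |φ.1 (tens p.1 p.2) - x.1 (tens p.1 p.2)| < ε := by
  classical
  rw [mem_closure_prob_iff]
  constructor
  · intro h s ε hε
    obtain ⟨φ, hφ, h1⟩ := h (s.image fun p => tens p.1 p.2) ε hε
    exact ⟨φ, hφ, fun p hp => h1 _ (Finset.mem_image_of_mem _ hp)⟩
  · intro h s ε hε
    -- one test function at a time
    have key : ∀ f : C(K × L, ℝ), ∃ (t : Finset (C(K, ℝ) × C(L, ℝ))) (δ : ℝ), 0 < δ ∧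
        ∀ φ : Prob (K × L), (∀ p ∈ t, |φ.1 (tens p.1 p.2) - x.1 (tens p.1 p.2)| < δ) →
          |φ.1 f - x.1 f| < ε := by
      intro f
      obtain ⟨g, hg, hfg⟩ := Metric.mem_closure_iff.1 (dense_tens (K := K) (L := L) f) (ε / 3)
        (by positivity)
      obtain ⟨t, δ, hδ, ht⟩ := span_tens_control hg (ε / 3) (by positivity)
      refine ⟨t, δ, hδ, fun φ hφ => ?_⟩
      have h1 := ht φ x hφ
      rw [dist_eq_norm] at hfg
      have h2 := φ.abs_le_norm (f - g)
      have h3 := x.abs_le_norm (f - g)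
      rw [map_sub] at h2 h3
      rw [abs_lt] at h1 ⊢
      rw [abs_le] at h2 h3
      constructor <;> linarith [h1.1, h1.2, h2.1, h2.2, h3.1, h3.2]
    choose t δ hδ ht using key
    obtain ⟨η, hη, h2⟩ := exists_pos_le (s : Set C(K × L, ℝ)) s.finite_toSet δ
      fun f _ => hδ f
    obtain ⟨φ, hφ, h3⟩ := h (s.biUnion t) η hη
    refine ⟨φ, hφ, fun f hf => ht f φ fun p hp => ?_⟩
    exact lt_of_lt_of_le (h3 p (Finset.mem_biUnion.2 ⟨f, hf, hp⟩)) (h2 f hf)

omit [T2Space K] [T2Space L] in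
theorem push_exists (T : C(K, L)) (φ : Prob K) :
    ∃ ψ : Prob L, ∀ g : C(L, ℝ), ψ.1 g = φ.1 (g.comp T) :=
  Prob.exists_of_linear
    { toFun := fun g => φ.1 (g.comp T)
      map_add' := fun g g' => by
        rw [← map_add]
        rfl
      map_smul' := fun c g => by
        rw [RingHom.id_apply, ← map_smul]
        rfl }
    (fun g hg => φ.2.1 _ fun x => hg (T x))
    (by
      have h : (1 : C(L, ℝ)).comp T = 1 := rfl
      change φ.1 ((1 : C(L, ℝ)).comp T) = 1
      rw [h, φ.2.2])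

/-- Push forward along a continuous map. -/
noncomputable def push (T : C(K, L)) (φ : Prob K) : Prob L := (push_exists T φ).choose

omit [T2Space K] [T2Space L] in
theorem push_apply (T : C(K, L)) (φ : Prob K) (g : C(L, ℝ)) :
    (push T φ).1 g = φ.1 (g.comp T) := (push_exists T φ).choose_spec g

omit [T2Space K] [T2Space L] in
theorem continuous_push (T : C(K, L)) : Continuous (push T : Prob K → Prob L) := by
  have key : ∀ g : C(L, ℝ), Continuous fun φ : Prob K => (push T φ).1 g := by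
    intro g
    have h : (fun φ : Prob K => (push T φ).1 g) = fun φ : Prob K => φ.1 (g.comp T) := by
      funext φ
      exact push_apply T φ g
    rw [h]
    exact (WeakDual.eval_continuous (g.comp T)).comp continuous_subtype_val
  have h1 : Continuous fun φ : Prob K => (push T φ).1 :=
    WeakDual.continuous_of_continuous_eval key
  exact continuous_induced_rng.2 h1

omit [T2Space K] [T2Space L] in
/-- Surjections induce surjections (M. Riesz extension). -/
theorem push_surjective (T : C(K, L)) (hT : Function.Surjective T) :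
    Function.Surjective (push T : Prob K → Prob L) := by
  intro ψ
  let c : C(L, ℝ) →ₗ[ℝ] C(K, ℝ) :=
    { toFun := fun g => g.comp T
      map_add' := fun _ _ => rfl
      map_smul' := fun _ _ => rfl }
  have hc : Function.Injective c := by
    intro g g' h
    ext y
    obtain ⟨x, rfl⟩ := hT y
    exact congrArg (fun q : C(K, ℝ) => q x) h
  let e := LinearEquiv.ofInjective c hc
  let f : C(K, ℝ) →ₗ.[ℝ] ℝ :=
    ⟨LinearMap.range c, (ψ.1 : C(L, ℝ) →ₗ[ℝ] ℝ) ∘ₗ (e.symm : LinearMap.range c →ₗ[ℝ] C(L, ℝ))⟩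
  have hf : ∀ g : C(L, ℝ), f ⟨c g, ⟨g, rfl⟩⟩ = ψ.1 g := by
    intro g
    have h1 : e.symm ⟨c g, ⟨g, rfl⟩⟩ = g := by
      rw [LinearEquiv.symm_apply_eq]
      rfl
    change ψ.1 (e.symm ⟨c g, ⟨g, rfl⟩⟩) = ψ.1 g
    rw [h1]
  obtain ⟨G, hG1, hG2⟩ := riesz_extension (PointedCone.positive ℝ C(K, ℝ)) f
    (by
      rintro ⟨_, ⟨g, rfl⟩⟩ hx
      rw [hf]
      refine ψ.2.1 g fun y => ?_
      obtain ⟨x, rfl⟩ := hT y
      exact ((PointedCone.mem_positive ℝ _).1 hx : (0 : C(K, ℝ)) ≤ c g) x)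
    (by
      intro y
      refine ⟨⟨c (ContinuousMap.const L ‖y‖), ⟨_, rfl⟩⟩, ?_⟩
      refine (PointedCone.mem_positive ℝ _).2 ?_
      intro x
      have h1 := (abs_le.1 (y.norm_coe_le_norm x)).1
      change (0 : ℝ) ≤ ‖y‖ + y x
      linarith)
  have hGc : ∀ g : C(L, ℝ), G (c g) = ψ.1 g := by
    intro g
    have h1 := hG1 ⟨c g, ⟨g, rfl⟩⟩
    rw [hf] at h1
    exact h1
  obtain ⟨φ, hφ⟩ := Prob.exists_of_linear G
    (fun q hq => hG2 q ((PointedCone.mem_positive ℝ _).2 hq))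
    (by
      have h1 := hGc 1
      have h2 : c 1 = 1 := rfl
      rw [h2, ψ.2.2] at h1
      exact h1)
  refine ⟨φ, ?_⟩
  apply Subtype.ext
  apply ContinuousLinearMap.ext
  intro g
  change (push T φ).1 g = ψ.1 g
  rw [push_apply, hφ]
  exact hGc g

/-- The pair of marginals. -/
noncomputable def marg (φ : Prob (K × L)) : Prob K × Prob L :=
  (push ContinuousMap.fst φ, push ContinuousMap.snd φ)

omit [T2Space K] [T2Space L] in
theorem continuous_marg : Continuous (marg : Prob (K × L) → Prob K × Prob L) :=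
  (continuous_push _).prodMk (continuous_push _)

omit [T2Space K] [T2Space L] in
/-- Product functional: the marginal map is onto. -/
theorem exists_prod (φ : Prob K) (ψ : Prob L) : ∃ l : Prob (K × L), marg l = (φ, ψ) ∧
    ∀ f g, l.1 (tens f g) = φ.1 f * ψ.1 g := by
  let J : C(K × L, ℝ) → C(K, ℝ) := fun h =>
    (⟨fun q : C(L, ℝ) => ψ.1 q, ψ.1.continuous⟩ : C(C(L, ℝ), ℝ)).comp h.curry
  have hJ : ∀ h x, J h x = ψ.1 (h.curry x) := fun h x => rfl
  obtain ⟨l, hl⟩ := Prob.exists_of_linear (K := K × L)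
    { toFun := fun h => φ.1 (J h)
      map_add' := fun h h' => by
        rw [← map_add]
        congr 1
        ext x
        rw [ContinuousMap.add_apply, hJ, hJ, hJ, ← map_add]
        rfl
      map_smul' := fun c h => by
        rw [RingHom.id_apply, ← map_smul]
        congr 1
        ext x
        rw [ContinuousMap.smul_apply, hJ, hJ, ← map_smul]
        rfl }
    (fun h hh => φ.2.1 _ (ContinuousMap.le_def.2 fun x => by
      rw [hJ]
      exact ψ.2.1 _ fun y => hh (x, y)))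
    (by
      change φ.1 (J 1) = 1
      have h1 : J 1 = 1 := by
        ext x
        rw [hJ]
        exact ψ.2.2
      rw [h1, φ.2.2])
  have hl' : ∀ h, l.1 h = φ.1 (J h) := hl
  have ht : ∀ f g, l.1 (tens f g) = φ.1 f * ψ.1 g := by
    intro f g
    have h1 : J (tens f g) = ψ.1 g • f := by
      ext x
      rw [hJ, ContinuousMap.smul_apply, smul_eq_mul, mul_comm]
      have h2 : (tens f g).curry x = f x • g := rfl
      rw [h2, map_smul, smul_eq_mul]
    rw [hl', h1, map_smul, smul_eq_mul, mul_comm]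
  refine ⟨l, ?_, ht⟩
  refine Prod.ext ?_ ?_
  · apply Subtype.ext
    apply ContinuousLinearMap.ext
    intro f
    change (push ContinuousMap.fst l).1 f = φ.1 f
    rw [push_apply]
    have h1 : f.comp (ContinuousMap.fst : C(K × L, K)) = tens f 1 := by
      ext x
      simp [tens]
    rw [h1, ht, ψ.2.2, mul_one]
  · apply Subtype.ext
    apply ContinuousLinearMap.ext
    intro g
    change (push ContinuousMap.snd l).1 g = ψ.1 g
    rw [push_apply]
    have h1 : g.comp (ContinuousMap.snd : C(K × L, L)) = tens 1 g := by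
      ext x
      simp [tens]
    rw [h1, ht, φ.2.2, one_mul]

omit [T2Space K] in
instance instNonemptyProb [Nonempty K] : Nonempty (Prob K) := by
  obtain ⟨x⟩ := (inferInstance : Nonempty K)
  obtain ⟨φ, _⟩ := Prob.exists_of_linear (K := K)
    { toFun := fun f => f x
      map_add' := fun _ _ => rfl
      map_smul' := fun _ _ => rfl }
    (fun f hf => hf x) rfl
  exact ⟨φ⟩

theorem exists_prob [MeasurableSpace K] [BorelSpace K] (μ : Measure K) [IsProbabilityMeasure μ] :
    ∃ φ : Prob K, ∀ f : C(K, ℝ), φ.1 f = ∫ x, f x ∂μ := by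
  have hint : ∀ f : C(K, ℝ), Integrable (fun x => f x) μ := fun f =>
    f.continuous.integrable_of_hasCompactSupport (HasCompactSupport.of_compactSpace _)
  exact Prob.exists_of_linear
    { toFun := fun f => ∫ x, f x ∂μ
      map_add' := fun f g => integral_add (hint f) (hint g)
      map_smul' := fun c f => integral_const_mul c _ }
    (fun f hf => integral_nonneg fun x => hf x)
    (by
      change ∫ _x, (1 : ℝ) ∂μ = 1
      simp)

/-- Riesz: every point of `Prob K` is a regular Borel probability measure, and conversely. -/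
theorem exists_measure [MeasurableSpace K] [BorelSpace K] (φ : Prob K) :
    ∃ μ : Measure K, IsProbabilityMeasure μ ∧ μ.Regular ∧ ∀ f : C(K, ℝ), φ.1 f = ∫ x, f x ∂μ := by
  let r : CompactlySupportedContinuousMap K ℝ →ₗ[ℝ] C(K, ℝ) :=
    { toFun := fun f => f.toContinuousMap
      map_add' := fun _ _ => rfl
      map_smul' := fun _ _ => rfl }
  let Λ : CompactlySupportedContinuousMap K ℝ →ₚ[ℝ] ℝ :=
    PositiveLinearMap.mk₀ ((φ.1 : C(K, ℝ) →ₗ[ℝ] ℝ) ∘ₗ r) (fun f hf => φ.2.1 _ fun x => hf x)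
  have hΛ : ∀ f : C(K, ℝ), φ.1 f = ∫ x, f x ∂(RealRMK.rieszMeasure Λ) := by
    intro f
    have h := RealRMK.integral_rieszMeasure Λ
      (CompactlySupportedContinuousMap.continuousMapEquiv f)
    exact h.symm
  have hfin : IsFiniteMeasure (RealRMK.rieszMeasure Λ) := inferInstance
  refine ⟨RealRMK.rieszMeasure Λ, ⟨?_⟩, inferInstance, hΛ⟩
  have h1 := hΛ 1
  rw [φ.2.2] at h1
  have h2 : (∫ x, (1 : C(K, ℝ)) x ∂(RealRMK.rieszMeasure Λ)) =
      (RealRMK.rieszMeasure Λ).real Set.univ := by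
    change ∫ _x, (1 : ℝ) ∂(RealRMK.rieszMeasure Λ) = _
    simp
  rw [h2, measureReal_def] at h1
  exact (ENNReal.toReal_eq_one_iff _).1 h1.symm

end P

end Pool.Agent.Lib.MP_177f07_gt
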