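import Pool.Agent.Lib.MP_177f07_gt.Defs

/-!
MODULE T: general topology for the tightness of compact spaces.
-/

set_option autoImplicit false

open scoped Cardinal
open Set Filter Topology

namespace Pool.Agent.Lib.MP_177f07_gt

universe u

variable {κ : Cardinal.{u}} {X Y : Type u} [TopologicalSpace X] [TopologicalSpace Y]

theorem tightLE_of_inducing {i : X → Y} (hi : Topology.IsInducing i) (hY : TightLE κ Y) :
    TightLE κ X := by
  classical
  intro A x hx
  rw [hi.closure_eq_preimage_closure_image] at hx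
  obtain ⟨B, hB, hBκ, hxB⟩ := hY (i '' A) (i x) hx
  choose g hg using fun y : B => hB y.2
  refine ⟨range g, ?_, Cardinal.mk_range_le.trans hBκ, ?_⟩
  · rintro _ ⟨y, rfl⟩
    exact (hg y).1
  · rw [hi.closure_eq_preimage_closure_image, mem_preimage]
    have : i '' (range g) = B := by
      ext y
      constructor
      · rintro ⟨_, ⟨z, rfl⟩, rfl⟩
        rw [(hg z).2]
        exact z.2
      · intro hy
        exact ⟨g ⟨y, hy⟩, ⟨⟨y, hy⟩, rfl⟩, (hg ⟨y, hy⟩).2⟩
    rw [this]
    exact hxB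

/-- `A` is `κ`-closed. -/
def KClosed (κ : Cardinal.{u}) (A : Set X) : Prop := ∀ B ⊆ A, #B ≤ κ → closure B ⊆ A

theorem tightLE_of_kClosed (hκ : ℵ₀ ≤ κ) (h : ∀ A : Set X, KClosed κ A → IsClosed A) :
    TightLE κ X := by
  intro A x hx
  set C : Set X := {y | ∃ B ⊆ A, #B ≤ κ ∧ y ∈ closure B} with hC
  have hCk : KClosed κ C := by
    intro B hB hBκ y hy
    choose g hg1 hg2 hg3 using fun z : B => hB z.2
    refine ⟨⋃ z : B, g z, ?_, ?_, ?_⟩
    · exact iUnion_subset fun z => hg1 z
    · refine (Cardinal.mk_iUnion_le _).trans ?_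
      refine (mul_le_mul' hBκ (ciSup_le' fun z => hg2 z)).trans ?_
      rw [Cardinal.mul_eq_self hκ]
    · refine closure_minimal ?_ isClosed_closure hy
      intro z hz
      exact closure_mono (subset_iUnion (fun z : B => g z) ⟨z, hz⟩) (hg3 ⟨z, hz⟩)
  have hAC : A ⊆ C := by
    intro y hy
    refine ⟨{y}, by simpa using hy, ?_, subset_closure rfl⟩
    rw [Cardinal.mk_singleton]
    exact Cardinal.one_le_aleph0.trans hκ
  have : x ∈ C := closure_minimal hAC (h C hCk) hx
  exact this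

theorem KClosed.isClosed (hX : TightLE κ X) {A : Set X} (hA : KClosed κ A) : IsClosed A := by
  rw [← closure_subset_iff_isClosed]
  intro x hx
  obtain ⟨B, hB, hBκ, hxB⟩ := hX A x hx
  exact hA B hB hBκ hxB

/-- The image of a `κ`-closed set under a continuous map of a compact space is `κ`-closed. -/
theorem KClosed.image [CompactSpace X] [T2Space Y] {π : X → Y} (hπ : Continuous π) {A : Set X}
    (hA : KClosed κ A) : KClosed κ (π '' A) := by
  classical
  intro B hB hBκ
  choose g hg using fun y : B => hB y.2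
  have h1 : closure (range g) ⊆ A := by
    refine hA _ ?_ (Cardinal.mk_range_le.trans hBκ)
    rintro _ ⟨y, rfl⟩
    exact (hg y).1
  have h2 : IsClosed (π '' closure (range g)) :=
    (isClosed_closure.isCompact.image hπ).isClosed
  refine (closure_minimal ?_ h2).trans (image_mono h1)
  intro y hy
  exact ⟨g ⟨y, hy⟩, subset_closure ⟨⟨y, hy⟩, rfl⟩, (hg ⟨y, hy⟩).2⟩

theorem tightLE_of_surjective [CompactSpace X] [T2Space Y] {π : X → Y} (hπ : Continuous π)
    (hs : Function.Surjective π) (hX : TightLE κ X) : TightLE κ Y := by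
  classical
  intro B y hy
  have h1 : closure B ⊆ π '' closure (π ⁻¹' B) := by
    refine closure_minimal ?_ (isClosed_closure.isCompact.image hπ).isClosed
    intro z hz
    obtain ⟨x, rfl⟩ := hs z
    exact ⟨x, subset_closure hz, rfl⟩
  obtain ⟨x, hx, rfl⟩ := h1 hy
  obtain ⟨A₀, hA₀, hκ, hxA⟩ := hX _ x hx
  refine ⟨π '' A₀, ?_, Cardinal.mk_image_le.trans hκ, ?_⟩
  · rintro _ ⟨z, hz, rfl⟩
    exact hA₀ hz
  · exact image_closure_subset_closure_image hπ ⟨x, hxA, rfl⟩

/-- Arhangelskii's fibre lemma for compact spaces. -/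
theorem tightLE_of_fibres (hκ : ℵ₀ ≤ κ) [CompactSpace X] [T2Space X] [T2Space Y] {π : X → Y}
    (hπ : Continuous π) (hY : TightLE κ Y) (hF : ∀ y, TightLE κ {x : X // π x = y}) :
    TightLE κ X := by
  refine tightLE_of_kClosed hκ fun A hA => ?_
  rw [← closure_subset_iff_isClosed]
  intro x hx
  by_contra hxA
  -- the trace on the fibre is closed
  have h1 : IsClosed (A ∩ π ⁻¹' {π x}) := by
    have h2 : KClosed κ ((fun z : {z : X // π z = π x} => (z : X)) ⁻¹' A) := by
      intro B hB hBκ z hz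
      have h3 : (z : X) ∈ closure ((fun z : {z : X // π z = π x} => (z : X)) '' B) :=
        image_closure_subset_closure_image continuous_subtype_val ⟨z, hz, rfl⟩
      exact hA _ (by rintro _ ⟨w, hw, rfl⟩; exact hB hw) (Cardinal.mk_image_le.trans hBκ) h3
    have h4 := h2.isClosed (hF (π x))
    have h5 : IsClosedEmbedding (fun z : {z : X // π z = π x} => (z : X)) :=
      (isClosed_singleton.preimage hπ).isClosedEmbedding_subtypeVal
    have h6 := h5.isClosedMap _ h4
    convert h6 using 1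
    ext z
    constructor
    · rintro ⟨h7, h8⟩
      exact ⟨⟨z, h8⟩, h7, rfl⟩
    · rintro ⟨w, h7, rfl⟩
      exact ⟨h7, w.2⟩
  have h2 : x ∈ (A ∩ π ⁻¹' {π x})ᶜ := fun h => hxA h.1
  obtain ⟨U, hU, hUc, hUs⟩ := exists_mem_nhds_isClosed_subset (h1.isOpen_compl.mem_nhds h2)
  have h3 : KClosed κ (A ∩ U) := by
    intro B hB hBκ z hz
    exact ⟨hA B (hB.trans inter_subset_left) hBκ hz,
      closure_minimal (hB.trans inter_subset_right) hUc hz⟩
  have h4 : x ∈ closure (A ∩ U) := by
    rw [mem_closure_iff_nhds] at hx ⊢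
    intro V hV
    obtain ⟨z, hz1, hz2⟩ := hx (V ∩ U) (inter_mem hV hU)
    exact ⟨z, hz1.1, hz2, hz1.2⟩
  have h5 : IsClosed (π '' (A ∩ U)) := (h3.image hπ).isClosed hY
  have h6 : π x ∈ π '' (A ∩ U) := by
    rw [← h5.closure_eq]
    exact image_closure_subset_closure_image hπ ⟨x, h4, rfl⟩
  obtain ⟨z, hz, hzx⟩ := h6
  exact hUs hz.2 ⟨hz.1, hzx⟩

theorem tightLE_prod (hκ : ℵ₀ ≤ κ) [CompactSpace X] [T2Space X] [CompactSpace Y] [T2Space Y]
    (hX : TightLE κ X) (hY : TightLE κ Y) : TightLE κ (X × Y) := by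
  refine tightLE_of_fibres hκ (π := (Prod.snd : X × Y → Y)) continuous_snd hY fun y => ?_
  refine tightLE_of_inducing (i := fun z : {z : X × Y // z.2 = y} => (z : X × Y).1) ?_ hX
  rw [Topology.isInducing_iff_nhds]
  intro z
  apply le_antisymm
  · exact (continuous_fst.comp continuous_subtype_val).tendsto z |>.le_comap
  · intro s hs
    rw [nhds_subtype_eq_comap, mem_comap] at hs
    obtain ⟨t, ht, hts⟩ := hs
    rw [nhds_prod_eq, mem_prod_iff] at ht
    obtain ⟨U, hU, V, hV, hUV⟩ := ht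
    rw [mem_comap]
    refine ⟨U, hU, ?_⟩
    intro w hw
    refine hts (hUV ⟨hw, ?_⟩)
    rw [w.2, ← z.2]
    exact mem_of_mem_nhds hV

/-- A net indexed by finite sets whose cluster points are not reachable by `κ` members. -/
theorem not_tightLE_of_net (hκ : ℵ₀ ≤ κ) [CompactSpace X] {I : Type u} (hI : κ < #I)
    (z : Finset I → X) (w : I → X → ℝ) (hw : ∀ i, Continuous (w i)) (c d : I → ℝ)
    (hcd : ∀ i, c i < d i) (hin : ∀ i F, i ∈ F → d i ≤ w i (z F))
    (hout : ∀ i F, i ∉ F → w i (z F) ≤ c i) : ¬ TightLE κ X := by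
  classical
  intro hX
  obtain ⟨x, -, hx⟩ := (isCompact_univ (X := X)).exists_mapClusterPt
    (f := (atTop : Filter (Finset I))) (u := z) (by simp)
  have hd : ∀ i, d i ≤ w i x := by
    intro i
    have h1 : IsClosed {y | d i ≤ w i y} := isClosed_le continuous_const (hw i)
    by_contra h2
    have h3 : {y | d i ≤ w i y}ᶜ ∈ 𝓝 x := h1.isOpen_compl.mem_nhds h2
    have h4 := hx.frequently h3
    have h5 : ∀ᶠ F in (atTop : Filter (Finset I)), d i ≤ w i (z F) := by
      filter_upwards [eventually_ge_atTop {i}] with F hF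
      exact hin i F (hF (Finset.mem_singleton_self i))
    obtain ⟨F, hF1, hF2⟩ := (h4.and_eventually h5).exists
    exact hF1 hF2
  have hcl : x ∈ closure (range z) := by
    rw [mem_closure_iff_nhds]
    intro V hV
    obtain ⟨F, hF⟩ := (hx.frequently hV).exists
    exact ⟨z F, hF, F, rfl⟩
  obtain ⟨A₀, hA₀, hAκ, hxA⟩ := hX _ x hcl
  choose g hg using fun y : A₀ => hA₀ y.2
  have hlt : #(⋃ y : A₀, (g y : Set I)) < #I := by
    refine lt_of_le_of_lt ?_ hI
    refine (Cardinal.mk_iUnion_le _).trans ?_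
    refine (mul_le_mul' hAκ (ciSup_le' (a := ℵ₀) fun y => ?_)).trans ?_
    · exact (Cardinal.lt_aleph0_of_finite _).le
    · rw [Cardinal.mul_eq_left hκ hκ Cardinal.aleph0_ne_zero]
  obtain ⟨i, hi⟩ : ∃ i, i ∉ ⋃ y : A₀, (g y : Set I) := by
    by_contra hcon
    push Not at hcon
    rw [eq_univ_of_forall hcon, Cardinal.mk_univ] at hlt
    exact lt_irrefl _ hlt
  have h1 : A₀ ⊆ {y | w i y ≤ c i} := by
    intro y hy
    have h2 : i ∉ g ⟨y, hy⟩ := fun h3 => hi (mem_iUnion.2 ⟨⟨y, hy⟩, h3⟩)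
    have h3 := hout i (g ⟨y, hy⟩) h2
    rw [hg ⟨y, hy⟩] at h3
    exact h3
  have h2 : w i x ≤ c i := closure_minimal h1 (isClosed_le (hw i) continuous_const) hxA
  exact absurd (hd i) (not_le.2 (h2.trans_lt (hcd i)))

end Pool.Agent.Lib.MP_177f07_gt
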