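import Pool.Agent.Lib.MP_177f07_gt.Walsh
import Pool.Agent.Lib.MP_177f07_gt.Tight
import Pool.Agent.Lib.MP_177f07_gt.Prob

/-!
COUP: a common uncountable family of fair signs makes `Prob (K × L)` not `κ`-tight.
-/

set_option autoImplicit false
set_option linter.unusedSectionVars false

open scoped Cardinal
open MeasureTheory

namespace Pool.Agent.Lib.MP_177f07_gt

universe u

section APPROX

variable {K I : Type u} [TopologicalSpace K] [CompactSpace K] [T2Space K] [MeasurableSpace K]
  [BorelSpace K]

/-- Continuous functions close to a sign function in `L²`. -/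
theorem exists_approx_sgn (μ : Measure K) [IsProbabilityMeasure μ] [μ.Regular] {A : Set K}
    (hA : MeasurableSet A) {ε : ℝ} (hε : 0 < ε) :
    ∃ f : C(K, ℝ), ∫ x, (f x - sgn A x) ^ 2 ∂μ ≤ ε ^ 2 := by
  have hm : MemLp (sgn A) (ENNReal.ofReal 2) μ :=
    MemLp.of_bound (measurable_sgn hA).aestronglyMeasurable 1
      (Filter.Eventually.of_forall fun x => by rw [Real.norm_eq_abs, abs_sgn])
  obtain ⟨g, -, hg, hgc, -⟩ := hm.exists_hasCompactSupport_integral_rpow_sub_le
    (by norm_num : (0 : ℝ) < 2) (by positivity : 0 < ε ^ 2)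
  refine ⟨⟨g, hgc⟩, le_trans (le_of_eq ?_) hg⟩
  refine integral_congr_ae (Filter.Eventually.of_forall fun x => ?_)
  simp only [ContinuousMap.coe_mk, Real.norm_eq_abs]
  rw [show ((2 : ℝ)) = ((2 : ℕ) : ℝ) by norm_num, Real.rpow_natCast, sq_abs]
  ring

theorem memLp_continuous (μ : Measure K) [IsFiniteMeasure μ] (f : C(K, ℝ)) (p : ENNReal) :
    MemLp (fun x => f x) p μ := by
  refine MemLp.of_bound f.continuous.aestronglyMeasurable ‖f‖
    (Filter.Eventually.of_forall fun x => f.norm_coe_le_norm x)

theorem integrable_continuous (μ : Measure K) [IsFiniteMeasure μ] (f : C(K, ℝ)) :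
    Integrable (fun x => f x) μ := memLp_one_iff_integrable.1 (memLp_continuous μ f 1)

end APPROX

section LAM

variable {K L I : Type u} [TopologicalSpace K] [CompactSpace K] [T2Space K] [MeasurableSpace K]
  [BorelSpace K] [TopologicalSpace L] [CompactSpace L] [T2Space L] [MeasurableSpace L]
  [BorelSpace L]
  {μ : Measure K} [IsProbabilityMeasure μ] {ν : Measure L} [IsProbabilityMeasure ν]
  {A : I → Set K} {B : I → Set L}

theorem integrable_mul_wal (hB : FairSigns ν B) (g : C(L, ℝ)) (G : Finset I) :
    Integrable (fun y => g y * wal B G y) ν :=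
  (memLp_continuous ν g 2).integrable_mul (hB.memLp_wal G 2)

/-- Integration against a Walsh function. -/
noncomputable def walInt (hB : FairSigns ν B) (G : Finset I) : C(L, ℝ) →L[ℝ] ℝ :=
  LinearMap.mkContinuous
    { toFun := fun g => ∫ y, g y * wal B G y ∂ν
      map_add' := by
        intro g h
        simp only [ContinuousMap.coe_add, Pi.add_apply, add_mul]
        exact integral_add (integrable_mul_wal hB g G) (integrable_mul_wal hB h G)
      map_smul' := by
        intro c g
        simp only [ContinuousMap.coe_smul, Pi.smul_apply, smul_eq_mul, RingHom.id_apply,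
          mul_assoc]
        exact integral_const_mul c _ } 1 (by
      intro g
      have h := norm_integral_le_of_norm_le_const (μ := ν) (f := fun y => g y * wal B G y)
        (C := ‖g‖) (Filter.Eventually.of_forall fun y => by
          rw [norm_mul, Real.norm_eq_abs (wal B G y), abs_wal, mul_one]
          exact g.norm_coe_le_norm y)
      simpa using h)

theorem walInt_apply (hB : FairSigns ν B) (G : Finset I) (g : C(L, ℝ)) :
    walInt hB G g = ∫ y, g y * wal B G y ∂ν := rfl

/-- The inner integral of `h` against a Walsh function. -/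
noncomputable def inn (hB : FairSigns ν B) (G : Finset I) (h : C(K × L, ℝ)) : C(K, ℝ) :=
  ⟨fun x => walInt hB G (h.curry x), (walInt hB G).continuous.comp h.curry.continuous⟩

theorem inn_apply (hB : FairSigns ν B) (G : Finset I) (h : C(K × L, ℝ)) (x : K) :
    inn hB G h x = ∫ y, h (x, y) * wal B G y ∂ν := rfl

/-- The coupling functional of a finite set of indices. -/
noncomputable def lam (hA : FairSigns μ A) (hB : FairSigns ν B) (F : Finset I) :
    C(K × L, ℝ) →ₗ[ℝ] ℝ where
  toFun h := ∑ G ∈ F.powerset, walInt hA G (inn hB G h)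
  map_add' h k := by
    rw [← Finset.sum_add_distrib]
    refine Finset.sum_congr rfl fun G _ => ?_
    rw [← map_add]
    congr 1
    ext x
    change walInt hB G ((h + k).curry x) = walInt hB G (h.curry x) + walInt hB G (k.curry x)
    rw [← map_add]
    rfl
  map_smul' c h := by
    rw [RingHom.id_apply, smul_eq_mul, Finset.mul_sum]
    refine Finset.sum_congr rfl fun G _ => ?_
    rw [← smul_eq_mul, ← map_smul]
    congr 1
    ext x
    change walInt hB G ((c • h).curry x) = c • walInt hB G (h.curry x)
    rw [← map_smul]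
    rfl

theorem lam_apply (hA : FairSigns μ A) (hB : FairSigns ν B) (F : Finset I) (h : C(K × L, ℝ)) :
    lam hA hB F h = ∑ G ∈ F.powerset, walInt hA G (inn hB G h) := rfl

theorem lam_eq (hA : FairSigns μ A) (hB : FairSigns ν B) (F : Finset I) (h : C(K × L, ℝ)) :
    lam hA hB F h =
      ∫ x, (∫ y, h (x, y) * ∏ i ∈ F, (1 + sgn (A i) x * sgn (B i) y) ∂ν) ∂μ := by
  rw [lam_apply]
  simp_rw [walInt_apply]
  rw [← integral_finsetSum _ fun G _ => integrable_mul_wal hA (inn hB G h) G]
  refine integral_congr_ae (Filter.Eventually.of_forall fun x => ?_)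
  simp only [inn_apply]
  have h1 : ∀ G : Finset I, (∫ y, h (x, y) * wal B G y ∂ν) * wal A G x =
      ∫ y, h (x, y) * wal B G y * wal A G x ∂ν := fun G => (integral_mul_const _ _).symm
  simp_rw [h1]
  have h2 : ∀ G ∈ F.powerset, Integrable (fun y => h (x, y) * wal B G y * wal A G x) ν :=
    fun G _ => (integrable_mul_wal hB (h.curry x) G).mul_const _
  rw [← integral_finsetSum _ h2]
  refine integral_congr_ae (Filter.Eventually.of_forall fun y => ?_)
  simp only
  rw [← sum_powerset_wal_mul, Finset.mul_sum]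
  refine Finset.sum_congr rfl fun G _ => ?_
  ring

theorem lam_nonneg (hA : FairSigns μ A) (hB : FairSigns ν B) (F : Finset I) (h : C(K × L, ℝ))
    (hh : 0 ≤ h) : 0 ≤ lam hA hB F h := by
  rw [lam_eq]
  refine integral_nonneg fun x => integral_nonneg fun y => ?_
  exact mul_nonneg (hh (x, y)) (Finset.prod_nonneg fun i _ => one_add_sgn_mul_nonneg _ _ _ _)

theorem lam_tens (hA : FairSigns μ A) (hB : FairSigns ν B) (F : Finset I) (f : C(K, ℝ))
    (g : C(L, ℝ)) :
    lam hA hB F (tens f g) = ∑ G ∈ F.powerset, hat μ A f G * hat ν B g G := by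
  rw [lam_apply]
  refine Finset.sum_congr rfl fun G _ => ?_
  rw [walInt_apply]
  have h1 : ∀ x, inn hB G (tens f g) x = f x * hat ν B g G := by
    intro x
    rw [inn_apply]
    unfold hat
    rw [← integral_const_mul]
    refine integral_congr_ae (Filter.Eventually.of_forall fun y => ?_)
    change f x * g y * wal B G y = f x * (g y * wal B G y)
    ring
  simp_rw [h1]
  unfold hat
  rw [← integral_mul_const]
  refine integral_congr_ae (Filter.Eventually.of_forall fun x => ?_)
  simp only
  ring

theorem lam_one (hA : FairSigns μ A) (hB : FairSigns ν B) (F : Finset I) :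
    lam hA hB F 1 = 1 := by
  classical
  have h1 : (1 : C(K × L, ℝ)) = tens (1 : C(K, ℝ)) (1 : C(L, ℝ)) := by
    ext x
    simp [tens]
  have h2 : ∀ G : Finset I, hat μ A (fun x => (1 : C(K, ℝ)) x) G = if G = ∅ then 1 else 0 := by
    intro G
    have := hA.integral_wal_mul ∅ G
    simp only [wal_empty, one_mul] at this
    unfold hat
    simp only [ContinuousMap.one_apply, one_mul]
    rw [this]
    simp [eq_comm]
  have h3 : ∀ G : Finset I, hat ν B (fun x => (1 : C(L, ℝ)) x) G = if G = ∅ then 1 else 0 := by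
    intro G
    have := hB.integral_wal_mul ∅ G
    simp only [wal_empty, one_mul] at this
    unfold hat
    simp only [ContinuousMap.one_apply, one_mul]
    rw [this]
    simp [eq_comm]
  rw [h1, lam_tens, Finset.sum_eq_single ∅]
  · rw [h2, h3]
    simp
  · intro G _ hG
    rw [h2, if_neg hG, zero_mul]
  · intro h
    exact absurd (Finset.empty_mem_powerset F) h

theorem hat_sgn [DecidableEq I] (hA : FairSigns μ A) (i : I) (G : Finset I) :
    hat μ A (sgn (A i)) G = if G = {i} then 1 else 0 := by
  have := hA.integral_wal_mul {i} G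
  simp only [wal_singleton] at this
  unfold hat
  rw [this]
  simp [eq_comm]

theorem hat_sub (hA : FairSigns μ A) (i : I) (f : C(K, ℝ)) (G : Finset I) :
    hat μ A f G = hat μ A (sgn (A i)) G + hat μ A (fun x => f x - sgn (A i) x) G := by
  have hs : MemLp (sgn (A i)) 2 μ :=
    MemLp.of_bound (measurable_sgn (hA.1 i)).aestronglyMeasurable 1
      (Filter.Eventually.of_forall fun x => by rw [Real.norm_eq_abs, abs_sgn])
  have h1 : Integrable (fun x => sgn (A i) x * wal A G x) μ := hs.integrable_mul (hA.memLp_wal G 2)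
  have h2 : Integrable (fun x => (f x - sgn (A i) x) * wal A G x) μ :=
    ((memLp_continuous μ f 2).sub hs).integrable_mul (hA.memLp_wal G 2)
  unfold hat
  rw [← integral_add h1 h2]
  refine integral_congr_ae (Filter.Eventually.of_forall fun x => ?_)
  simp only
  ring

/-- Key estimate. -/
theorem lam_estimate [DecidableEq I] (hA : FairSigns μ A) (hB : FairSigns ν B) (F : Finset I)
    (i : I) (f : C(K, ℝ)) (g : C(L, ℝ)) (hf : ∫ x, (f x - sgn (A i) x) ^ 2 ∂μ ≤ (1 / 10) ^ 2)
    (hg : ∫ x, (g x - sgn (B i) x) ^ 2 ∂ν ≤ (1 / 10) ^ 2) :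
    (i ∈ F → 3 / 4 ≤ lam hA hB F (tens f g)) ∧ (i ∉ F → lam hA hB F (tens f g) ≤ 1 / 4) := by
  have hs : MemLp (fun x => f x - sgn (A i) x) 2 μ :=
    (memLp_continuous μ f 2).sub (MemLp.of_bound (measurable_sgn (hA.1 i)).aestronglyMeasurable 1
      (Filter.Eventually.of_forall fun x => by rw [Real.norm_eq_abs, abs_sgn]))
  have ht : MemLp (fun x => g x - sgn (B i) x) 2 ν :=
    (memLp_continuous ν g 2).sub (MemLp.of_bound (measurable_sgn (hB.1 i)).aestronglyMeasurable 1
      (Filter.Eventually.of_forall fun x => by rw [Real.norm_eq_abs, abs_sgn]))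
  set e : Finset I → ℝ := hat μ A (fun x => f x - sgn (A i) x) with he
  set e' : Finset I → ℝ := hat ν B (fun x => g x - sgn (B i) x) with he'
  have h1 : lam hA hB F (tens f g) =
      ∑ G ∈ F.powerset, ((if G = {i} then (1 + e {i} + e' {i}) else 0) + e G * e' G) := by
    rw [lam_tens]
    refine Finset.sum_congr rfl fun G _ => ?_
    rw [hat_sub hA i f G, hat_sub hB i g G, hat_sgn hA, hat_sgn hB]
    split_ifs with h
    · subst h
      ring
    · ring
  have h2 : |∑ G ∈ F.powerset, e G * e' G| ≤ (1 / 10) ^ 2 :=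
    abs_sum_hat_mul_le hA hB hs ht (by norm_num) hf hg _
  have h3 : |e {i}| ≤ 1 / 10 := hA.abs_hat_le hs (by norm_num) hf _
  have h4 : |e' {i}| ≤ 1 / 10 := hB.abs_hat_le ht (by norm_num) hg _
  rw [Finset.sum_add_distrib, Finset.sum_ite_eq' ] at h1
  rw [abs_le] at h2 h3 h4
  constructor
  · intro hi
    rw [if_pos (by simpa using hi)] at h1
    rw [h1]
    norm_num at h2 ⊢
    linarith [h2.1, h3.1, h4.1]
  · intro hi
    rw [if_neg (by simpa using hi)] at h1
    rw [h1]
    norm_num at h2 ⊢
    linarith [h2.2]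

/-- COUP: two families of more than `κ` fair signs make `Prob (K × L)` not `κ`-tight. -/
theorem not_tightLE_prod {κ : Cardinal.{u}} (hκ : ℵ₀ ≤ κ) (μ : Measure K)
    [IsProbabilityMeasure μ] [μ.Regular]
    (ν : Measure L) [IsProbabilityMeasure ν] [ν.Regular] {I : Type u} (hI : κ < #I)
    (A : I → Set K) (B : I → Set L) (hA : FairSigns μ A) (hB : FairSigns ν B) :
    ¬ TightLE κ (Prob (K × L)) := by
  classical
  choose f hf using fun i => exists_approx_sgn μ (hA.1 i) (by norm_num : (0 : ℝ) < 1 / 10)
  choose g hg using fun i => exists_approx_sgn ν (hB.1 i) (by norm_num : (0 : ℝ) < 1 / 10)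
  choose z hz using fun F : Finset I => Prob.exists_of_linear (lam hA hB F)
    (lam_nonneg hA hB F) (lam_one hA hB F)
  refine not_tightLE_of_net hκ hI z (fun i l => l.1 (tens (f i) (g i))) ?_ (fun _ => 1 / 4)
    (fun _ => 3 / 4) (fun _ => by norm_num) ?_ ?_
  · intro i
    exact (WeakDual.eval_continuous (tens (f i) (g i))).comp continuous_subtype_val
  · intro i F hi
    simp only [hz]
    exact (lam_estimate hA hB F i (f i) (g i) (hf i) (hg i)).1 hi
  · intro i F hi
    simp only [hz]
    exact (lam_estimate hA hB F i (f i) (g i) (hf i) (hg i)).2 hi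

end LAM

end Pool.Agent.Lib.MP_177f07_gt
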