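import Mathlib

/-!
Definitions for the countable tightness problem (P(K) and P(K x K)).
-/

set_option autoImplicit false

open scoped Cardinal
open MeasureTheory

namespace Pool.Agent.Lib.MP_177f07_gt

universe u

/-- `P(K)`: positive functionals on `C(K)` with value `1` at the constant `1`, with the weak star
topology (the form of the frozen statement). -/
abbrev Prob (K : Type u) [TopologicalSpace K] [CompactSpace K] : Type u :=
  {ψ : WeakDual ℝ C(K, ℝ) // (∀ f : C(K, ℝ), 0 ≤ f → 0 ≤ ψ f) ∧ ψ 1 = 1}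

/-- The tightness of `X` is at most `κ`. -/
def TightLE (κ : Cardinal.{u}) (X : Type u) [TopologicalSpace X] : Prop :=
  ∀ (A : Set X) (x : X), x ∈ closure A → ∃ A₀ ⊆ A, #A₀ ≤ κ ∧ x ∈ closure A₀

/-- The functional `φ` has type at most `κ`: some set of at most `κ` continuous functions is dense in
`C(K)` for the seminorm `f ↦ φ |f|`. -/
def TypeLE {K : Type u} [TopologicalSpace K] [CompactSpace K] (κ : Cardinal.{u}) (φ : Prob K) :
    Prop :=
  ∃ D : Set C(K, ℝ), #D ≤ κ ∧ ∀ (f : C(K, ℝ)) (ε : ℝ), 0 < ε → ∃ d ∈ D, φ.1 |f - d| < ε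

/-- The measure algebra of `μ` has density at most `κ`. -/
def MTypeLE {X : Type u} [MeasurableSpace X] (κ : Cardinal.{u}) (μ : Measure X) : Prop :=
  ∃ 𝒜 : Set (Set X), #𝒜 ≤ κ ∧ μ.MeasureDense 𝒜

/-- The sign function of a set. -/
noncomputable def sgn {X : Type u} (A : Set X) (x : X) : ℝ := by
  classical exact if x ∈ A then 1 else -1

/-- The functions `sgn (A i)` form an independent family of fair signs for `μ`. -/
def FairSigns {X : Type u} [MeasurableSpace X] (μ : Measure X) {I : Type u} (A : I → Set X) :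
    Prop :=
  (∀ i, MeasurableSet (A i)) ∧
    ∀ F : Finset I, F.Nonempty → ∫ x, (∏ i ∈ F, sgn (A i) x) ∂μ = 0

/-- The tensor `f ⊗ g` as a continuous function on `K × L`. -/
def tens {K L : Type u} [TopologicalSpace K] [TopologicalSpace L] (f : C(K, ℝ)) (g : C(L, ℝ)) :
    C(K × L, ℝ) :=
  (f.comp ContinuousMap.fst) * (g.comp ContinuousMap.snd)

end Pool.Agent.Lib.MP_177f07_gt
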