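import Pool.Agent.Lib.MP_177f07_gt.Mah

/-!
MODULE EXH: exhaustion and maximal independent families.
-/

set_option autoImplicit false

open scoped Cardinal ENNReal symmDiff
open MeasureTheory Set Filter

namespace Pool.Agent.Lib.MP_177f07_gt

universe u

variable {κ : Cardinal.{u}} {X : Type u} [m0 : MeasurableSpace X]

/-- The measurable sets are, up to null sets, in a sigma algebra with at most `κ` generators. -/
def GenLE (κ : Cardinal.{u}) (μ : Measure X) : Prop :=
  ∃ 𝒢 : Set (Set X), #𝒢 ≤ κ ∧ (∀ A ∈ 𝒢, MeasurableSet A) ∧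
    ∀ s, MeasurableSet s → ∃ B, MeasurableSet[MeasurableSpace.generateFrom 𝒢] B ∧ μ (s ∆ B) = 0

theorem genLE_of_mTypeLE (μ : Measure X) [IsFiniteMeasure μ] (h : MTypeLE κ μ) : GenLE κ μ := by
  obtain ⟨𝒜, hκ, hA⟩ := h
  refine ⟨𝒜, hκ, hA.measurable, fun s hs => ?_⟩
  have h1 : ∀ n : ℕ, ∃ t ∈ 𝒜, μ (s ∆ t) < ENNReal.ofReal ((1 / 2) ^ n) := fun n =>
    hA.approx s hs (measure_ne_top _ _) _ (by positivity)
  choose t ht hst using h1
  refine ⟨limsup t atTop, ?_, ?_⟩
  · exact @MeasurableSet.measurableSet_limsup X (MeasurableSpace.generateFrom 𝒜) _ fun n =>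
      MeasurableSpace.measurableSet_generateFrom (ht n)
  · have h2 : μ (limsup (fun n => s ∆ t n) atTop) = 0 := by
      apply measure_limsup_atTop_eq_zero
      have h3 : ∑' i, μ (s ∆ t i) ≤ ∑' i, ENNReal.ofReal ((1 / 2) ^ i) :=
        ENNReal.tsum_le_tsum fun n => (hst n).le
      refine ne_top_of_le_ne_top ?_ h3
      rw [← ENNReal.ofReal_tsum_of_nonneg (fun n => by positivity) summable_geometric_two]
      exact ENNReal.ofReal_ne_top
    refine measure_mono_null ?_ h2
    intro x hx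
    rw [mem_limsup_iff_frequently_mem]
    rcases hx with ⟨hxs, hxB⟩ | ⟨hxB, hxs⟩
    · rw [mem_limsup_iff_frequently_mem, not_frequently] at hxB
      exact (hxB.mono fun n hn => Or.inl ⟨hxs, hn⟩).frequently
    · rw [mem_limsup_iff_frequently_mem] at hxB
      exact hxB.mono fun n hn => Or.inr ⟨hn, hxs⟩

omit m0 in
theorem mk_generateSetAlgebra_le (hκ : ℵ₀ ≤ κ) {𝒢 : Set (Set X)} (h : #𝒢 ≤ κ) :
    #(generateSetAlgebra 𝒢) ≤ κ := by
  classical
  set ℬ : Set (Set X) := 𝒢 ∪ {t | tᶜ ∈ 𝒢} with hℬ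
  have h1 : #ℬ ≤ κ := by
    refine (Cardinal.mk_union_le _ _).trans ?_
    have h2 : #{t | tᶜ ∈ 𝒢} ≤ κ := by
      refine le_trans ?_ h
      refine Cardinal.mk_le_of_injective (f := fun t : {t | tᶜ ∈ 𝒢} => (⟨(t : Set X)ᶜ, t.2⟩ : 𝒢)) ?_
      intro a b hab
      have := congrArg Subtype.val hab
      exact Subtype.ext (compl_injective this)
    exact (add_le_add h h2).trans (Cardinal.add_eq_self hκ).le
  have h2 : #(Finset (Finset ℬ)) ≤ κ := by
    have h3 : #(Finset ℬ) ≤ κ := by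
      rcases finite_or_infinite ℬ with h4 | h4
      · exact (Cardinal.lt_aleph0_of_finite _).le.trans hκ
      · rw [Cardinal.mk_finset_of_infinite]
        exact h1
    rcases finite_or_infinite (Finset ℬ) with h4 | h4
    · exact (Cardinal.lt_aleph0_of_finite _).le.trans hκ
    · rw [Cardinal.mk_finset_of_infinite]
      exact h3
  refine le_trans ?_ h2
  refine Cardinal.mk_le_of_surjective (f := fun S : {S : Finset (Finset ℬ) //
    (⋃ a ∈ S, ⋂ t ∈ a, (t : Set X)) ∈ generateSetAlgebra 𝒢} =>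
      (⟨⋃ a ∈ S.1, ⋂ t ∈ a, (t : Set X), S.2⟩ : generateSetAlgebra 𝒢)) ?_ |>.trans
    (Cardinal.mk_subtype_le _)
  rintro ⟨s, hs⟩
  obtain ⟨A, hA, ha, hat, hsA⟩ := mem_generateSetAlgebra_elim hs
  -- finite sets of finite sets
  have key : ∃ S : Finset (Finset ℬ), s = ⋃ a ∈ S, ⋂ t ∈ a, (t : Set X) := by
    have h5 : ∀ a ∈ A, ∃ b : Finset ℬ, (⋂ t ∈ a, t) = ⋂ t ∈ b, (t : Set X) := by
      intro a haA
      have hfin := ha a haA
      have hsub : ∀ t ∈ a, t ∈ ℬ := fun t ht => by
        rcases hat a haA t ht with h6 | h6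
        · exact Or.inl h6
        · exact Or.inr h6
      refine ⟨hfin.toFinset.attach.image fun t => ⟨t.1, hsub t.1 (hfin.mem_toFinset.1 t.2)⟩, ?_⟩
      ext x
      simp only [mem_iInter, Finset.mem_image, Finset.mem_attach, true_and, Subtype.exists,
        Finite.mem_toFinset]
      constructor
      · rintro hx t ⟨t', ht', rfl⟩
        exact hx _ ht'
      · intro hx t ht
        exact hx ⟨t, hsub t ht⟩ ⟨t, ht, rfl⟩
    choose! g hg using h5
    refine ⟨hA.toFinset.image g, ?_⟩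
    rw [hsA]
    ext x
    simp only [mem_iUnion, Finset.mem_image, Finite.mem_toFinset, exists_prop]
    constructor
    · rintro ⟨a, haA, hx⟩
      refine ⟨g a, ⟨a, haA, rfl⟩, ?_⟩
      rw [← hg a haA]
      exact hx
    · rintro ⟨_, ⟨a, haA, rfl⟩, hx⟩
      refine ⟨a, haA, ?_⟩
      rw [hg a haA]
      exact hx
  obtain ⟨S, hS⟩ := key
  exact ⟨⟨S, by rw [← hS]; exact hs⟩, Subtype.ext hS.symm⟩

theorem mTypeLE_of_genLE (hκ : ℵ₀ ≤ κ) (μ : Measure X) [IsFiniteMeasure μ] (h : GenLE κ μ) :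
    MTypeLE κ μ := by
  obtain ⟨𝒢, hκ𝒢, h𝒢, hs𝒢⟩ := h
  have hle : MeasurableSpace.generateFrom 𝒢 ≤ m0 := MeasurableSpace.generateFrom_le h𝒢
  have hdense := @Measure.MeasureDense.of_generateFrom_isSetAlgebra_finite X
    (MeasurableSpace.generateFrom 𝒢) (μ.trim hle) (generateSetAlgebra 𝒢) _
    isSetAlgebra_generateSetAlgebra generateFrom_generateSetAlgebra_eq.symm
  refine ⟨generateSetAlgebra 𝒢, mk_generateSetAlgebra_le hκ hκ𝒢,
    ⟨fun t ht => hle _ (@Measure.MeasureDense.measurable X (MeasurableSpace.generateFrom 𝒢) _ _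
      hdense t ht), fun s hs _ ε hε => ?_⟩⟩
  obtain ⟨B, hB, hsB⟩ := hs𝒢 s hs
  obtain ⟨t, ht, hBt⟩ := @Measure.MeasureDense.approx X (MeasurableSpace.generateFrom 𝒢) _ _
    hdense B hB (by
    rw [trim_measurableSet_eq hle hB]
    exact measure_ne_top _ _) ε hε
  refine ⟨t, ht, ?_⟩
  have h1 : MeasurableSet[MeasurableSpace.generateFrom 𝒢] (B ∆ t) :=
    @MeasurableSet.symmDiff X (MeasurableSpace.generateFrom 𝒢) _ _ hB
      (@Measure.MeasureDense.measurable X (MeasurableSpace.generateFrom 𝒢) _ _ hdense t ht)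
  rw [trim_measurableSet_eq hle h1] at hBt
  calc μ (s ∆ t) ≤ μ (s ∆ B) + μ (B ∆ t) := measure_symmDiff_le s B t
    _ = μ (B ∆ t) := by rw [hsB, zero_add]
    _ < _ := hBt

theorem genLE_iUnion (hκ : ℵ₀ ≤ κ) (μ : Measure X) {F : ℕ → Set X}
    (hF : ∀ n, MeasurableSet (F n)) (h : ∀ n, GenLE κ (μ.restrict (F n))) :
    GenLE κ (μ.restrict (⋃ n, F n)) := by
  choose 𝒢 h1 h2 h3 using h
  refine ⟨(⋃ n, 𝒢 n) ∪ range F, ?_, ?_, ?_⟩
  · refine (Cardinal.mk_union_le _ _).trans ?_
    refine (add_le_add ?_ ?_).trans (Cardinal.add_eq_self hκ).le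
    · have h4 : (⋃ n, 𝒢 n) = ⋃ n : ULift.{u} ℕ, 𝒢 n.down := by
        ext x
        simp
      rw [h4]
      refine (Cardinal.mk_iUnion_le _).trans ?_
      refine (mul_le_mul' ?_ (ciSup_le' fun n : ULift.{u} ℕ => h1 n.down)).trans
        (Cardinal.mul_eq_self hκ).le
      simpa using hκ
    · refine le_trans ?_ hκ
      exact Cardinal.mk_le_aleph0_iff.2 (countable_range F).to_subtype
  · rintro A (hA | ⟨n, rfl⟩)
    · obtain ⟨n, hn⟩ := mem_iUnion.1 hA
      exact h2 n A hn
    · exact hF n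
  · intro s hs
    choose B hB hsB using fun n => h3 n s hs
    have hle : ∀ n, MeasurableSpace.generateFrom (𝒢 n) ≤
        MeasurableSpace.generateFrom ((⋃ n, 𝒢 n) ∪ range F) := fun n =>
      MeasurableSpace.generateFrom_mono ((subset_iUnion 𝒢 n).trans subset_union_left)
    have hFm : ∀ n, MeasurableSet[MeasurableSpace.generateFrom ((⋃ n, 𝒢 n) ∪ range F)] (F n) :=
      fun n => MeasurableSpace.measurableSet_generateFrom (Or.inr ⟨n, rfl⟩)
    have hle' : MeasurableSpace.generateFrom ((⋃ n, 𝒢 n) ∪ range F) ≤ m0 := by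
      refine MeasurableSpace.generateFrom_le ?_
      rintro A (hA | ⟨n, rfl⟩)
      · obtain ⟨n, hn⟩ := mem_iUnion.1 hA
        exact h2 n A hn
      · exact hF n
    have hBm : MeasurableSet[MeasurableSpace.generateFrom ((⋃ n, 𝒢 n) ∪ range F)]
        (⋃ n, (B n ∩ disjointed F n)) :=
      MeasurableSet.iUnion fun n => (hle n _ (hB n)).inter (MeasurableSet.disjointed hFm n)
    refine ⟨⋃ n, (B n ∩ disjointed F n), hBm, ?_⟩
    have hm : MeasurableSet (s ∆ ⋃ n, (B n ∩ disjointed F n)) := hs.symmDiff (hle' _ hBm)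
    have hdj : (s ∆ ⋃ n, (B n ∩ disjointed F n)) ∩ (⋃ n, F n) =
        ⋃ n, ((s ∆ ⋃ n, (B n ∩ disjointed F n)) ∩ disjointed F n) := by
      rw [← inter_iUnion, iUnion_disjointed]
    rw [Measure.restrict_apply hm, hdj, measure_iUnion_null_iff]
    intro n
    refine measure_mono_null (t := (s ∆ B n) ∩ F n) ?_ ?_
    · intro x hx0
      obtain ⟨hx, hxn⟩ := hx0
      have hxn' : x ∈ disjointed F n := hxn
      have hxF : x ∈ F n := disjointed_subset F n hxn'
      refine ⟨?_, hxF⟩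
      rcases hx with ⟨hxs, hxB⟩ | ⟨hxB, hxs⟩
      · refine Or.inl ⟨hxs, fun hxBn => hxB ?_⟩
        exact mem_iUnion.2 ⟨n, ⟨hxBn, hxn'⟩⟩
      · obtain ⟨k, hk⟩ := mem_iUnion.1 hxB
        have hk1 : x ∈ B k := hk.1
        have hk2 : x ∈ disjointed F k := hk.2
        have hkn : k = n := by
          by_contra hne
          exact disjoint_left.1 (disjoint_disjointed F hne) hk2 hxn'
        subst hkn
        exact Or.inr ⟨hk1, hxs⟩
    · have := hsB n
      have hm' : MeasurableSet (s ∆ B n) := hs.symmDiff (hle' _ (hle n _ (hB n)))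
      rwa [Measure.restrict_apply hm'] at this

theorem exists_nowhere (hκ : ℵ₀ ≤ κ) (μ : Measure X) [IsFiniteMeasure μ] (h : ¬ MTypeLE κ μ) :
    ∃ E, MeasurableSet E ∧ μ E ≠ 0 ∧
      ∀ F ⊆ E, MeasurableSet F → μ F ≠ 0 → ¬ MTypeLE κ (μ.restrict F) := by
  by_contra hcon
  push Not at hcon
  -- the class of small sets
  set 𝒯 : Set (Set X) := {F | MeasurableSet F ∧ GenLE κ (μ.restrict F)} with h𝒯
  have hUn : ∀ F : ℕ → Set X, (∀ n, F n ∈ 𝒯) → (⋃ n, F n) ∈ 𝒯 := fun F hF =>
    ⟨MeasurableSet.iUnion fun n => (hF n).1, genLE_iUnion hκ μ (fun n => (hF n).1) fun n => (hF n).2⟩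
  have hempty : (∅ : Set X) ∈ 𝒯 := by
    refine ⟨MeasurableSet.empty, ∅, by simp, by simp, fun s hs =>
      ⟨∅, @MeasurableSet.empty X (MeasurableSpace.generateFrom ∅), by simp⟩⟩
  -- a maximizing sequence
  set σ : ℝ≥0∞ := ⨆ F ∈ 𝒯, μ F with hσ
  have hne : (μ '' 𝒯).Nonempty := ⟨_, ∅, hempty, rfl⟩
  obtain ⟨u, -, hu, hmem⟩ := exists_seq_tendsto_sSup hne ⟨⊤, fun _ _ => le_top⟩
  choose F hF hFu using hmem
  have hmax : ∀ G ∈ 𝒯, μ G ≤ μ (⋃ n, F n) := by
    intro G hG
    have h1 : μ G ≤ sSup (μ '' 𝒯) := le_sSup ⟨G, hG, rfl⟩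
    refine h1.trans (le_of_tendsto' hu fun n => ?_)
    rw [← hFu n]
    exact measure_mono (subset_iUnion F n)
  have hFT := hUn F hF
  have hnull : μ (⋃ n, F n)ᶜ = 0 := by
    by_contra h1
    obtain ⟨G, hG1, hG2, hG3, hG4⟩ := hcon _ hFT.1.compl h1
    have hGT : G ∈ 𝒯 := ⟨hG2, genLE_of_mTypeLE _ hG4⟩
    have h2 : (⋃ n : ℕ, (if n = 0 then G else ⋃ n, F n)) ∈ 𝒯 := by
      refine hUn _ fun n => ?_
      split_ifs
      · exact hGT
      · exact hFT
    have h3 : G ∪ (⋃ n, F n) ⊆ ⋃ n : ℕ, (if n = 0 then G else ⋃ n, F n) := by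
      rintro x (hx | hx)
      · exact mem_iUnion.2 ⟨0, by simpa using hx⟩
      · exact mem_iUnion.2 ⟨1, by simpa using hx⟩
    have h4 := (measure_mono h3).trans (hmax _ h2)
    have hdisj : Disjoint G (⋃ n, F n) := by
      rw [disjoint_left]
      intro x hx hx2
      exact hG1 hx hx2
    rw [measure_union hdisj hFT.1] at h4
    have h5 : μ (⋃ n, F n) ≠ ⊤ := measure_ne_top _ _
    have h6 : μ G + μ (⋃ n, F n) ≤ 0 + μ (⋃ n, F n) := by simpa using h4
    exact hG3 (le_zero_iff.1 ((ENNReal.add_le_add_iff_right h5).1 h6))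
  apply h
  have h1 : μ.restrict (⋃ n, F n) = μ := by
    apply Measure.restrict_eq_self_of_ae_mem
    exact hnull
  have h2 := hFT.2
  rw [h1] at h2
  exact mTypeLE_of_genLE hκ μ h2

/-! ### Maximal independent families -/

/-- A family (set) of sets which are independent fair signs. -/
def GoodFam (μ : Measure X) (ℐ : Set (Set X)) : Prop :=
  (∀ A ∈ ℐ, MeasurableSet A) ∧ ∀ F : Finset (Set X), (F : Set (Set X)) ⊆ ℐ → F.Nonempty →
    ∫ x, (∏ A ∈ F, sgn A x) ∂μ = 0

omit m0 in
theorem exh_measurable_sgn {m : MeasurableSpace X} {A : Set X} (hA : MeasurableSet[m] A) :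
    Measurable[m] (sgn A) := by
  classical
  have : sgn A = fun x => if x ∈ A then (1 : ℝ) else -1 := by
    funext x
    unfold sgn
    rfl
  rw [this]
  exact Measurable.ite hA measurable_const measurable_const

omit m0 in
theorem exh_abs_sgn (A : Set X) (x : X) : |sgn A x| = 1 := by
  classical
  unfold sgn
  split_ifs <;> norm_num

theorem exh_setIntegral_sgn (μ : Measure X) [IsProbabilityMeasure μ] {A B : Set X}
    (hA : MeasurableSet A) (_hB : MeasurableSet B) (h : μ (A ∩ B) = μ B / 2) :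
    ∫ x in B, sgn A x ∂μ = 0 := by
  classical
  have h1 : sgn A = fun x => 2 * A.indicator (fun _ => (1 : ℝ)) x - 1 := by
    funext x
    unfold sgn
    by_cases hx : x ∈ A
    · simp [hx]
      norm_num
    · simp [hx]
  have hint : IntegrableOn (A.indicator (fun _ => (1 : ℝ))) B μ :=
    (integrable_const (1 : ℝ)).indicator hA
  have h3 : ∫ x in B, A.indicator (fun _ => (1 : ℝ)) x ∂μ = μ.real (A ∩ B) := by
    rw [integral_indicator hA, Measure.restrict_restrict hA]
    simp
  rw [h1, integral_sub (hint.const_mul 2) (integrable_const _), integral_const_mul, h3]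
  simp only [integral_const, smul_eq_mul, mul_one, measureReal_restrict_apply MeasurableSet.univ,
    univ_inter]
  have h2 : μ.real (A ∩ B) = μ.real B / 2 := by
    simp only [measureReal_def, h, ENNReal.toReal_div, ENNReal.toReal_ofNat]
  rw [h2]
  ring

omit m0 in
theorem exh_integral_mul {m m0 : MeasurableSpace X} (μ : @Measure X m0) [IsProbabilityMeasure μ]
    (hm : m ≤ m0) {A : Set X} (hA : MeasurableSet[m0] A)
    (h : ∀ B, MeasurableSet[m] B → μ (A ∩ B) = μ B / 2) {w : X → ℝ} (hw : Measurable[m] w)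
    (hw1 : ∀ x, |w x| = 1) : ∫ x, sgn A x * w x ∂μ = 0 := by
  classical
  set B : Set X := {x | w x = 1} with hB
  have hBm : MeasurableSet[m] B := hw (measurableSet_singleton 1)
  have hBm0 : MeasurableSet B := hm _ hBm
  have hint : Integrable (fun x => sgn A x * w x) μ := by
    refine Integrable.of_bound
      ((exh_measurable_sgn hA).mul (hw.mono hm le_rfl)).aestronglyMeasurable 1
      (Eventually.of_forall fun x => ?_)
    rw [Real.norm_eq_abs, abs_mul, exh_abs_sgn, hw1, mul_one]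
  rw [← integral_add_compl hBm0 hint]
  have h1 : ∫ x in B, sgn A x * w x ∂μ = ∫ x in B, sgn A x ∂μ := by
    refine setIntegral_congr_fun hBm0 fun x hx => ?_
    have hx' : w x = 1 := hx
    simp only [hx', mul_one]
  have h2 : ∫ x in Bᶜ, sgn A x * w x ∂μ = ∫ x in Bᶜ, -sgn A x ∂μ := by
    refine setIntegral_congr_fun hBm0.compl fun x hx => ?_
    have hx' : w x = -1 := by
      rcases abs_eq (by norm_num : (0 : ℝ) ≤ 1) |>.1 (hw1 x) with h3 | h3
      · exact absurd h3 hx
      · exact h3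
    simp only [hx', mul_neg, mul_one]
  rw [h1, h2, integral_neg, exh_setIntegral_sgn μ hA hBm0 (h B hBm),
    exh_setIntegral_sgn μ hA hBm0.compl (h Bᶜ hBm.compl)]
  simp

theorem exists_fairSigns (hκ : ℵ₀ ≤ κ) (μ : Measure X) [IsProbabilityMeasure μ]
    (h : ∀ F, MeasurableSet F → μ F ≠ 0 → ¬ MTypeLE κ (μ.restrict F)) :
    ∃ (I : Type u) (A : I → Set X), κ < #I ∧ FairSigns μ A := by
  classical
  obtain ⟨ℐ, -, hmax⟩ := zorn_subset_nonempty {ℐ : Set (Set X) | GoodFam μ ℐ} (by
    intro c hc hch hne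
    refine ⟨⋃₀ c, ⟨?_, ?_⟩, fun s hs => subset_sUnion_of_mem hs⟩
    · rintro A ⟨s, hs, hA⟩
      exact (hc hs).1 A hA
    · intro F hF hFne
      obtain ⟨s, hs, hFs⟩ : ∃ s ∈ c, (F : Set (Set X)) ⊆ s := by
        refine hch.directedOn.exists_mem_subset_of_finset_subset_biUnion hne ?_
        rw [← sUnion_eq_biUnion]
        exact hF
      exact (hc hs).2 F hFs hFne) ∅ ⟨by simp, fun F hF hFne => by
        exfalso
        obtain ⟨A, hA⟩ := hFne
        exact hF hA⟩
  have hgood : GoodFam μ ℐ := hmax.prop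
  refine ⟨ℐ, fun A => (A : Set X), ?_, fun A => hgood.1 _ A.2, fun F hF => ?_⟩
  · by_contra hle
    push Not at hle
    have hm : MeasurableSpace.generateFrom ℐ ≤ m0 := MeasurableSpace.generateFrom_le hgood.1
    obtain ⟨A, hA, hAB⟩ := maharam_half hm μ (by
      intro F hF hF0
      have h1 : ¬ GenLE κ (μ.restrict F) := fun h2 => h F hF hF0 (mTypeLE_of_genLE hκ _ h2)
      have h2 : ∃ s, MeasurableSet s ∧ ∀ B, MeasurableSet[MeasurableSpace.generateFrom ℐ] B → μ.restrict F (s ∆ B) ≠ 0 := by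
        by_contra hcon
        push Not at hcon
        exact h1 ⟨ℐ, hle, hgood.1, hcon⟩
      obtain ⟨s, hs, hsB⟩ := h2
      refine ⟨s ∩ F, inter_subset_right, hs.inter hF, fun B hB h3 => hsB B hB ?_⟩
      rw [Measure.restrict_apply (hs.symmDiff (hm _ hB))]
      refine measure_mono_null ?_ h3
      rintro x ⟨⟨hxs, hxB⟩ | ⟨hxB, hxs⟩, hxF⟩
      · exact Or.inl ⟨⟨hxs, hxF⟩, fun h4 => hxB h4.2⟩
      · exact Or.inr ⟨⟨hxF, hxB⟩, fun h4 => hxs h4.1⟩)
    have hAn : A ∉ ℐ := by
      intro hAI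
      have h1 := hAB A (MeasurableSpace.measurableSet_generateFrom hAI)
      have h2 := hAB univ (@MeasurableSet.univ X (MeasurableSpace.generateFrom ℐ))
      rw [inter_self] at h1
      rw [inter_univ, measure_univ] at h2
      rw [h2] at h1
      have h3 := congrArg ENNReal.toReal h1
      simp only [ENNReal.toReal_div, ENNReal.toReal_one, ENNReal.toReal_ofNat] at h3
      norm_num at h3
    have hbig : GoodFam μ (insert A ℐ) := by
      refine ⟨?_, ?_⟩
      · rintro B (rfl | hB)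
        · exact hA
        · exact hgood.1 B hB
      · intro F hF hFne
        by_cases hAF : A ∈ F
        · have hsub : ((F.erase A : Finset (Set X)) : Set (Set X)) ⊆ ℐ := by
            intro B hB
            rw [Finset.mem_coe, Finset.mem_erase] at hB
            rcases hF (Finset.mem_coe.2 hB.2) with h1 | h1
            · exact absurd h1 hB.1
            · exact h1
          have h1 : ∀ x, ∏ B ∈ F, sgn B x = sgn A x * ∏ B ∈ F.erase A, sgn B x := fun x =>
            (Finset.mul_prod_erase F (fun B => sgn B x) hAF).symm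
          simp_rw [h1]
          refine exh_integral_mul μ hm hA hAB ?_ ?_
          · exact @Finset.measurable_prod _ _ _ _ _ _ (MeasurableSpace.generateFrom ℐ) _ _
              fun B hB => exh_measurable_sgn
              (MeasurableSpace.measurableSet_generateFrom (hsub (Finset.mem_coe.2 hB)))
          · intro x
            rw [Finset.abs_prod]
            exact Finset.prod_eq_one fun B _ => exh_abs_sgn B x
        · refine hgood.2 F ?_ hFne
          intro B hB
          rcases hF hB with h1 | h1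
          · exact absurd (h1 ▸ hB) hAF
          · exact h1
    have h2 := hmax.le_of_ge hbig (subset_insert A ℐ)
    exact hAn (h2 (mem_insert A ℐ))
  · have h1 := hgood.2 (F.map (Function.Embedding.subtype _)) (by
      intro A hA
      simp only [Finset.coe_map, mem_image, Finset.mem_coe] at hA
      obtain ⟨B, -, rfl⟩ := hA
      exact B.2) (by simpa using hF)
    simpa [Finset.prod_map] using h1

end Pool.Agent.Lib.MP_177f07_gt
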