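import Pool.Agent.Lib.MP_177f07_gt.Defs

/-!
MODULE KAP: Kaplansky's tightness argument in a normed space with the weak topology.
-/

set_option autoImplicit false

open scoped Cardinal
open MeasureTheory

namespace Pool.Agent.Lib.MP_177f07_gt

universe u

variable {κ : Cardinal.{u}}

theorem kap_card (hκ : ℵ₀ ≤ κ) {D : Type u} (hD : #D ≤ κ) : #(Finset D × ℕ × ℕ) ≤ κ := by
  classical
  have h1 : #(Finset D) ≤ κ := by
    have h2 : Function.Surjective (fun l : List D => l.toFinset) := fun s =>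
      ⟨s.toList, Finset.toList_toFinset s⟩
    exact (Cardinal.mk_le_of_surjective h2).trans
      ((Cardinal.mk_list_le_max D).trans (max_le hκ hD))
  rw [Cardinal.mk_prod]
  refine Cardinal.mul_le_of_le hκ ?_ ?_
  · rw [Cardinal.lift_uzero]
    exact h1
  · have h3 : Cardinal.lift.{u} #(ℕ × ℕ) = ℵ₀ := by simp
    rw [h3]
    exact hκ

/-- finitely many members suffice for all tuples in the unit ball of the dual -/
theorem kap_finite {E D Λ : Type u} [NormedAddCommGroup E] [NormedSpace ℝ E]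
    (v : Λ → D → E) (S : Set Λ) (v₀ : D → E)
    (hcl : ∀ (s : Finset D) (t : Finset (StrongDual ℝ E)) (ε : ℝ), 0 < ε →
      ∃ l ∈ S, ∀ d ∈ s, ∀ θ ∈ t, |θ (v l d - v₀ d)| < ε) (s : Finset D) (m n : ℕ) :
    ∃ F : Finset Λ, (F : Set Λ) ⊆ S ∧ ∀ θ : Fin m → StrongDual ℝ E, (∀ j, ‖θ j‖ ≤ 1) →
      ∃ l ∈ F, ∀ d ∈ s, ∀ j, |θ j (v l d - v₀ d)| < 1 / ((n : ℝ) + 1) := by
  classical
  have hn : (0 : ℝ) < 1 / ((n : ℝ) + 1) := by positivity
  set U : S → Set (Fin m → WeakDual ℝ E) := fun l =>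
    ⋂ d ∈ s, ⋂ j : Fin m, {θ | |θ j (v l d - v₀ d)| < 1 / ((n : ℝ) + 1)} with hU
  have hUo : ∀ l, IsOpen (U l) := by
    intro l
    refine isOpen_biInter_finset fun d _ => isOpen_iInter_of_finite fun j => ?_
    refine isOpen_lt ?_ continuous_const
    exact ((WeakDual.eval_continuous (v l d - v₀ d)).comp (continuous_apply j)).abs
  have hC : IsCompact (Set.univ.pi fun _ : Fin m =>
      (WeakDual.toStrongDual ⁻¹' Metric.closedBall (0 : StrongDual ℝ E) 1 :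
        Set (WeakDual ℝ E))) :=
    isCompact_univ_pi fun _ => WeakDual.isCompact_closedBall 0 1
  obtain ⟨F, hF⟩ := hC.elim_finite_subcover U hUo (by
    intro θ _
    obtain ⟨l, hl, h1⟩ := hcl s (Finset.univ.image fun j : Fin m =>
      WeakDual.toStrongDual (θ j)) _ hn
    refine Set.mem_iUnion.2 ⟨⟨l, hl⟩, ?_⟩
    simp only [hU, Set.mem_iInter]
    intro d hd j
    exact h1 d hd _ (Finset.mem_image_of_mem _ (Finset.mem_univ j)))
  refine ⟨F.image Subtype.val, ?_, ?_⟩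
  · intro l hl
    obtain ⟨l', _, rfl⟩ := Finset.mem_image.1 (Finset.mem_coe.1 hl)
    exact l'.2
  · intro θ hθ
    have h1 : (fun j => StrongDual.toWeakDual (θ j)) ∈ Set.univ.pi fun _ : Fin m =>
      (WeakDual.toStrongDual ⁻¹' Metric.closedBall (0 : StrongDual ℝ E) 1 :
        Set (WeakDual ℝ E)) := by
      intro j _
      rw [Set.mem_preimage, mem_closedBall_zero_iff]
      exact hθ j
    obtain ⟨l, hl, h2⟩ := Set.mem_iUnion₂.1 (hF h1)
    refine ⟨l.1, Finset.mem_image_of_mem _ hl, ?_⟩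
    intro d hd j
    simp only [hU, Set.mem_iInter] at h2
    exact h2 d hd j

theorem kaplansky (hκ : ℵ₀ ≤ κ) {E D Λ : Type u} [NormedAddCommGroup E] [NormedSpace ℝ E]
    (hD : #D ≤ κ) (v : Λ → D → E) (S : Set Λ) (v₀ : D → E)
    (hcl : ∀ (s : Finset D) (t : Finset (StrongDual ℝ E)) (ε : ℝ), 0 < ε →
      ∃ l ∈ S, ∀ d ∈ s, ∀ θ ∈ t, |θ (v l d - v₀ d)| < ε) :
    ∃ S₀ ⊆ S, #S₀ ≤ κ ∧ ∀ (s : Finset D) (t : Finset (StrongDual ℝ E)) (ε : ℝ), 0 < ε →
      ∃ l ∈ S₀, ∀ d ∈ s, ∀ θ ∈ t, |θ (v l d - v₀ d)| < ε := by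
  classical
  choose F hF1 hF2 using kap_finite v S v₀ hcl
  refine ⟨⋃ i : Finset D × ℕ × ℕ, (F i.1 i.2.1 i.2.2 : Set Λ), ?_, ?_, ?_⟩
  · exact Set.iUnion_subset fun i => hF1 _ _ _
  · refine (Cardinal.mk_iUnion_le _).trans (Cardinal.mul_le_of_le hκ (kap_card hκ hD) ?_)
    refine ciSup_le' fun i => ?_
    refine (Cardinal.lt_aleph0_of_finite _).le.trans hκ
  · intro s t ε hε
    obtain ⟨R, hR1, hR2⟩ : ∃ R : ℝ, 1 ≤ R ∧ ∀ θ ∈ t, ‖θ‖ ≤ R := by
      refine ⟨1 + ∑ θ ∈ t, ‖θ‖, ?_, ?_⟩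
      · have : 0 ≤ ∑ θ ∈ t, ‖θ‖ := Finset.sum_nonneg fun θ _ => norm_nonneg θ
        linarith
      · intro θ hθ
        have := Finset.single_le_sum (f := fun θ : StrongDual ℝ E => ‖θ‖)
          (fun θ _ => norm_nonneg θ) hθ
        linarith
    have hR0 : 0 < R := by linarith
    obtain ⟨n, hn⟩ := exists_nat_one_div_lt (div_pos hε hR0)
    obtain ⟨l, hl, h1⟩ := hF2 s t.card n (fun j => R⁻¹ • (t.equivFin.symm j).1) (by
      intro j
      rw [norm_smul, Real.norm_eq_abs, abs_of_pos (inv_pos.2 hR0)]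
      rw [inv_mul_le_iff₀ hR0, mul_one]
      exact hR2 _ (t.equivFin.symm j).2)
    refine ⟨l, Set.mem_iUnion.2 ⟨(s, t.card, n), hl⟩, ?_⟩
    intro d hd θ hθ
    have h2 := h1 d hd (t.equivFin ⟨θ, hθ⟩)
    rw [Equiv.symm_apply_apply] at h2
    have h3 : (R⁻¹ • θ : StrongDual ℝ E) (v l d - v₀ d) = R⁻¹ * θ (v l d - v₀ d) := rfl
    rw [h3, abs_mul, abs_of_pos (inv_pos.2 hR0), inv_mul_lt_iff₀ hR0] at h2
    refine h2.trans ?_
    have h4 := (mul_lt_mul_of_pos_left hn hR0)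
    rw [mul_div_cancel₀ _ hR0.ne'] at h4
    exact h4

end Pool.Agent.Lib.MP_177f07_gt
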