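import Pool.Agent.Lib.MP_177f07_gt.Prob
import Pool.Agent.Lib.MP_177f07_gt.Tight
import Pool.Agent.Lib.MP_177f07_gt.Kap

/-!
MODULE FIB: the fibres of the marginal map have tightness at most `κ` if one of the marginals has
type at most `κ`; the `if` part of the main theorem.
-/

set_option autoImplicit false

open scoped Cardinal
open MeasureTheory

namespace Pool.Agent.Lib.MP_177f07_gt

universe u

variable {κ : Cardinal.{u}}

section FIB

variable {K L : Type u} [TopologicalSpace K] [CompactSpace K] [T2Space K]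
  [TopologicalSpace L] [CompactSpace L] [T2Space L]

omit [T2Space K] [T2Space L] in
theorem fib_fst {l : Prob (K × L)} {φ : Prob K} {ψ : Prob L} (h : marg l = (φ, ψ))
    (f : C(K, ℝ)) : l.1 (tens f 1) = φ.1 f := by
  have h1 : push ContinuousMap.fst l = φ := congrArg Prod.fst h
  rw [← h1, push_apply]
  congr 1
  ext x
  simp [tens]

omit [T2Space K] [T2Space L] in
theorem fib_snd {l : Prob (K × L)} {φ : Prob K} {ψ : Prob L} (h : marg l = (φ, ψ))
    (g : C(L, ℝ)) : l.1 (tens 1 g) = ψ.1 g := by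
  have h1 : push ContinuousMap.snd l = ψ := congrArg Prod.snd h
  rw [← h1, push_apply]
  congr 1
  ext x
  simp [tens]

omit [T2Space K] [T2Space L] in
theorem fib_le_fst {l : Prob (K × L)} {φ : Prob K} {ψ : Prob L} (h : marg l = (φ, ψ))
    (f : C(K, ℝ)) (g : C(L, ℝ)) : |l.1 (tens f g)| ≤ ‖g‖ * φ.1 |f| := by
  refine (l.abs_le_abs _).trans ?_
  have h1 : |tens f g| ≤ ‖g‖ • tens |f| 1 := by
    refine ContinuousMap.le_def.2 fun x => ?_
    have h2 : |g x.2| ≤ ‖g‖ := g.norm_coe_le_norm x.2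
    have h3 : |(tens f g) x| = |f x.1| * |g x.2| := by
      rw [← abs_mul]
      rfl
    have h4 : (‖g‖ • tens |f| 1) x = ‖g‖ * (|f x.1| * 1) := rfl
    rw [ContinuousMap.abs_apply, h3, h4, mul_one, mul_comm]
    exact mul_le_mul_of_nonneg_right h2 (abs_nonneg _)
  refine (l.mono h1).trans ?_
  rw [map_smul, fib_fst h, smul_eq_mul]

omit [T2Space K] [T2Space L] in
theorem fib_le_snd {l : Prob (K × L)} {φ : Prob K} {ψ : Prob L} (h : marg l = (φ, ψ))
    (f : C(K, ℝ)) (g : C(L, ℝ)) : |l.1 (tens f g)| ≤ ‖f‖ * ψ.1 |g| := by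
  refine (l.abs_le_abs _).trans ?_
  have h1 : |tens f g| ≤ ‖f‖ • tens 1 |g| := by
    refine ContinuousMap.le_def.2 fun x => ?_
    have h2 : |f x.1| ≤ ‖f‖ := f.norm_coe_le_norm x.1
    have h3 : |(tens f g) x| = |f x.1| * |g x.2| := by
      rw [← abs_mul]
      rfl
    have h4 : (‖f‖ • tens 1 |g|) x = ‖f‖ * (1 * |g x.2|) := rfl
    rw [ContinuousMap.abs_apply, h3, h4, one_mul]
    exact mul_le_mul_of_nonneg_right h2 (abs_nonneg _)
  refine (l.mono h1).trans ?_
  rw [map_smul, fib_snd h, smul_eq_mul]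

/-- the linear map `f ↦ l (f ⊗ g)` -/
noncomputable def fibLin (l : Prob (K × L)) (g : C(L, ℝ)) : C(K, ℝ) →ₗ[ℝ] ℝ where
  toFun := fun f => l.1 (tens f g)
  map_add' := fun f f' => by
    have h : tens (f + f') g = tens f g + tens f' g := by
      ext x
      simp [tens, add_mul]
    rw [h, map_add]
  map_smul' := fun c f => by
    have h : tens (c • f) g = c • tens f g := by
      ext x
      simp [tens]
    rw [h, map_smul]
    rfl

omit [CompactSpace K] [T2Space K] [CompactSpace L] [T2Space L] in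
theorem fib_tens_sub (f : C(K, ℝ)) (g g' : C(L, ℝ)) :
    tens f (g - g') = tens f g - tens f g' := by
  ext x
  simp [tens, mul_sub]

/-- the Hilbert space `L²` of `φ`: a dense linear map `e` with `φ |f| ≤ ‖e f‖` -/
theorem fib_hilbert (φ : Prob K) : ∃ (H : Type u) (_ : NormedAddCommGroup H)
    (_ : InnerProductSpace ℝ H) (_ : CompleteSpace H) (e : C(K, ℝ) →ₗ[ℝ] H),
    DenseRange e ∧ ∀ f, φ.1 |f| ≤ ‖e f‖ := by
  let _ : MeasurableSpace K := borel K
  have : BorelSpace K := ⟨rfl⟩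
  obtain ⟨μ, hμ1, hμ2, hμ⟩ := exists_measure φ
  let T : C(K, ℝ) →L[ℝ] Lp ℝ 2 μ := ContinuousMap.toLp 2 μ ℝ
  refine ⟨Lp ℝ 2 μ, inferInstance, inferInstance, inferInstance, (T : C(K, ℝ) →ₗ[ℝ] Lp ℝ 2 μ),
    ?_, fun f => ?_⟩
  · exact ContinuousMap.toLp_denseRange ℝ μ ℝ (by norm_num : (2 : ENNReal) ≠ ⊤)
  · have h1 : inner ℝ (T |f|) (T 1) = φ.1 |f| := by
      rw [hμ]
      have := ContinuousMap.inner_toLp (𝕜 := ℝ) μ |f| 1
      refine this.trans ?_
      refine integral_congr_ae (Filter.Eventually.of_forall fun x => ?_)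
      simp
    have h2 : ‖T 1‖ = 1 := by
      have h3 : inner ℝ (T 1) (T 1) = (1 : ℝ) := by
        have := ContinuousMap.inner_toLp (𝕜 := ℝ) μ 1 1
        refine this.trans ?_
        simp
      rw [real_inner_self_eq_norm_sq] at h3
      have h4 := norm_nonneg (T 1)
      nlinarith
    have h5 : ‖T |f|‖ = ‖T f‖ := by
      have h6 : inner ℝ (T |f|) (T |f|) = inner ℝ (T f) (T f) := by
        have h7 := ContinuousMap.inner_toLp (𝕜 := ℝ) μ |f| |f|
        have h8 := ContinuousMap.inner_toLp (𝕜 := ℝ) μ f f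
        refine h7.trans (Eq.trans ?_ h8.symm)
        refine integral_congr_ae (Filter.Eventually.of_forall fun x => ?_)
        simp
      rw [real_inner_self_eq_norm_sq, real_inner_self_eq_norm_sq] at h6
      exact (pow_left_inj₀ (norm_nonneg _) (norm_nonneg _) two_ne_zero).1 h6
    have h9 := real_inner_le_norm (T |f|) (T 1)
    rw [h1, h2, mul_one, h5] at h9
    exact h9

theorem tightLE_fibre (hκ : ℵ₀ ≤ κ) (φ : Prob K) (ψ : Prob L) (hψ : TypeLE κ ψ) :
    TightLE κ {l : Prob (K × L) // marg l = (φ, ψ)} := by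
  classical
  obtain ⟨H, _, _, _, e, hdense, he⟩ := fib_hilbert φ
  obtain ⟨D, hD, hDd⟩ := hψ
  intro S l₀ hl₀
  -- the functional on `H`
  have hbound : ∀ (l : {l : Prob (K × L) // marg l = (φ, ψ)}) (g : C(L, ℝ)) (f : C(K, ℝ)),
      ‖fibLin l.1 g f‖ ≤ ‖g‖ * ‖e f‖ := fun l g f =>
    (fib_le_fst l.2 f g).trans (mul_le_mul_of_nonneg_left (he f) (norm_nonneg _))
  obtain ⟨F, hF⟩ : ∃ F : {l : Prob (K × L) // marg l = (φ, ψ)} → C(L, ℝ) → StrongDual ℝ H,
      ∀ l g, F l g = (fibLin l.1 g).extendOfNorm e :=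
    ⟨fun l g => (fibLin l.1 g).extendOfNorm e, fun _ _ => rfl⟩
  have hFe : ∀ l g f, F l g (e f) = l.1.1 (tens f g) := fun l g f => by
    rw [hF, LinearMap.extendOfNorm_eq hdense ⟨_, hbound l g⟩]
    rfl
  have hFn : ∀ l g h, |F l g h| ≤ ‖g‖ * ‖h‖ := fun l g h => by
    rw [hF]
    exact LinearMap.norm_extendOfNorm_apply_le hdense _ (hbound l g) h
  obtain ⟨v, hv⟩ : ∃ v : {l : Prob (K × L) // marg l = (φ, ψ)} → D → H,
      ∀ l d h, inner ℝ (v l d) h = F l d.1 h :=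
    ⟨fun l d => (InnerProductSpace.toDual ℝ H).symm (F l d.1), fun l d h => by
      rw [InnerProductSpace.toDual_symm_apply]⟩
  have hcl0 : ∀ (s : Finset (C(K, ℝ) × C(L, ℝ))) (ε : ℝ), 0 < ε →
      ∃ l ∈ S, ∀ p ∈ s, |l.1.1 (tens p.1 p.2) - l₀.1.1 (tens p.1 p.2)| < ε := by
    have h1 : l₀.1 ∈ closure (Subtype.val '' S) := closure_subtype.1 hl₀
    rw [mem_closure_prob_prod_iff] at h1
    intro s ε hε
    obtain ⟨l, ⟨l', hl', rfl⟩, h2⟩ := h1 s ε hε
    exact ⟨l', hl', h2⟩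
  obtain ⟨S₀, hS₀, hcard, hS₀cl⟩ := kaplansky hκ (E := H) (D := D) hD v S (v l₀) (by
    intro s t ε hε
    -- approximate the test vectors
    obtain ⟨R, hR0, hR⟩ : ∃ R : ℝ, 0 < R ∧ ∀ d ∈ s, ‖d.1‖ ≤ R := by
      refine ⟨1 + ∑ d ∈ s, ‖d.1‖, ?_, fun d hd => ?_⟩
      · have : 0 ≤ ∑ d ∈ s, ‖d.1‖ := Finset.sum_nonneg fun d _ => norm_nonneg d.1
        linarith
      · have := Finset.single_le_sum (f := fun d : D => ‖d.1‖)
          (fun d _ => norm_nonneg d.1) hd
        linarith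
    have hex : ∀ θ : StrongDual ℝ H, ∃ f : C(K, ℝ),
        ‖(InnerProductSpace.toDual ℝ H).symm θ - e f‖ < ε / (4 * R) := fun θ => by
      obtain ⟨f, hf⟩ := hdense.exists_dist_lt ((InnerProductSpace.toDual ℝ H).symm θ)
        (show 0 < ε / (4 * R) by positivity)
      exact ⟨f, by rwa [dist_eq_norm] at hf⟩
    choose q hq using hex
    obtain ⟨l, hl, h2⟩ := hcl0 ((t ×ˢ s).image fun z => (q z.1, z.2.1)) (ε / 4) (by positivity)
    refine ⟨l, hl, fun d hd θ hθ => ?_⟩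
    have h3 := h2 (q θ, d.1) (Finset.mem_image.2 ⟨(θ, d), Finset.mem_product.2 ⟨hθ, hd⟩, rfl⟩)
    obtain ⟨h, hh⟩ : ∃ h : H, h = (InnerProductSpace.toDual ℝ H).symm θ := ⟨_, rfl⟩
    have h4 : ∀ l', θ (v l' d) = F l' d.1 h := fun l' => by
      rw [← hv, real_inner_comm, hh, InnerProductSpace.toDual_symm_apply]
    have h5 : ∀ l', |F l' d.1 h - l'.1.1 (tens (q θ) d.1)| ≤ ε / 4 := fun l' => by
      rw [← hFe, ← map_sub]
      refine (hFn l' d.1 _).trans ?_
      have h6 := hq θ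
      rw [← hh] at h6
      calc ‖d.1‖ * ‖h - e (q θ)‖ ≤ R * (ε / (4 * R)) :=
            mul_le_mul (hR d hd) h6.le (norm_nonneg _) hR0.le
        _ = ε / 4 := by field_simp
    rw [map_sub, h4, h4]
    have h7 := h5 l
    have h8 := h5 l₀
    rw [abs_le] at h7 h8
    rw [abs_lt] at h3 ⊢
    constructor <;> linarith [h3.1, h3.2, h7.1, h7.2, h8.1, h8.2])
  refine ⟨S₀, hS₀, hcard, ?_⟩
  rw [closure_subtype, mem_closure_prob_prod_iff]
  intro s ε hε
  -- approximate the second factors by members of `D`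
  have hex : ∀ p : C(K, ℝ) × C(L, ℝ), ∃ d : D, ψ.1 |p.2 - d.1| < ε / (4 * (1 + ‖p.1‖)) := by
    intro p
    obtain ⟨d, hd, h1⟩ := hDd p.2 (ε / (4 * (1 + ‖p.1‖)))
      (div_pos hε (by have := norm_nonneg p.1; linarith))
    exact ⟨⟨d, hd⟩, h1⟩
  choose d hd using hex
  obtain ⟨l, hl, h2⟩ := hS₀cl (s.image d)
    (s.image fun p => InnerProductSpace.toDual ℝ H (e p.1)) (ε / 4) (by positivity)
  refine ⟨l.1, ⟨l, hl, rfl⟩, fun p hp => ?_⟩
  have h3 := h2 (d p) (Finset.mem_image_of_mem _ hp) _ (Finset.mem_image_of_mem _ hp)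
  have h4 : ∀ l', (InnerProductSpace.toDual ℝ H (e p.1)) (v l' (d p))
      = l'.1.1 (tens p.1 (d p).1) := fun l' => by
    rw [InnerProductSpace.toDual_apply_apply, real_inner_comm, hv, hFe]
  rw [map_sub, h4, h4] at h3
  have h5 : ∀ l' : {l : Prob (K × L) // marg l = (φ, ψ)},
      |l'.1.1 (tens p.1 p.2) - l'.1.1 (tens p.1 (d p).1)| ≤ ε / 4 := fun l' => by
    rw [← map_sub, ← fib_tens_sub]
    refine (fib_le_snd l'.2 p.1 (p.2 - (d p).1)).trans ?_
    have h6 := hd p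
    have h7 : 0 < 1 + ‖p.1‖ := by have := norm_nonneg p.1; linarith
    calc ‖p.1‖ * ψ.1 |p.2 - (d p).1| ≤ (1 + ‖p.1‖) * (ε / (4 * (1 + ‖p.1‖))) :=
          mul_le_mul (by linarith) h6.le (ψ.2.1 _ (abs_nonneg _)) h7.le
      _ = ε / 4 := by field_simp
  have h7 := h5 l
  have h8 := h5 l₀
  rw [abs_le] at h7 h8
  rw [abs_lt] at h3 ⊢
  constructor <;> linarith [h3.1, h3.2, h7.1, h7.2, h8.1, h8.2]

theorem fib_prod_snd (hκ : ℵ₀ ≤ κ) (hK : TightLE κ (Prob K)) (hL : TightLE κ (Prob L))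
    (h : ∀ ψ : Prob L, TypeLE κ ψ) : TightLE κ (Prob (K × L)) := by
  refine tightLE_of_fibres hκ (π := marg) continuous_marg (tightLE_prod hκ hK hL) ?_
  rintro ⟨φ, ψ⟩
  exact tightLE_fibre hκ φ ψ (h ψ)

/-- exchanging the two factors -/
theorem fib_inducing : Topology.IsInducing
    (push (ContinuousMap.prodSwap : C(K × L, L × K)) : Prob (K × L) → Prob (L × K)) := by
  have h1 : ∀ l : Prob (K × L), push (ContinuousMap.prodSwap : C(L × K, K × L))
      (push (ContinuousMap.prodSwap : C(K × L, L × K)) l) = l := by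
    intro l
    apply Subtype.ext
    apply ContinuousLinearMap.ext
    intro f
    change (push _ _).1 f = l.1 f
    rw [push_apply, push_apply]
    congr 1
  exact (Topology.IsEmbedding.of_leftInverse h1 (continuous_push _)
    (continuous_push _)).isInducing

theorem tightLE_prob_prod (hκ : ℵ₀ ≤ κ) (hK : TightLE κ (Prob K)) (hL : TightLE κ (Prob L))
    (h : (∀ φ : Prob K, TypeLE κ φ) ∨ (∀ ψ : Prob L, TypeLE κ ψ)) :
    TightLE κ (Prob (K × L)) := by
  rcases h with h | h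
  · exact tightLE_of_inducing fib_inducing (fib_prod_snd hκ hL hK h)
  · exact fib_prod_snd hκ hK hL h

end FIB

end Pool.Agent.Lib.MP_177f07_gt
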