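import Pool.Agent.Lib.MP_177f07_gt.Fib

/-!
MODULE POW: arbitrary products with at most `κ` factors. If every factor has all its measures of
type at most `κ`, so has the product; if every `Prob (K i)` is `κ`-tight and at most one factor
carries a measure of type more than `κ`, then `Prob (∀ i, K i)` is `κ`-tight.
-/

set_option autoImplicit false

open scoped Cardinal
open MeasureTheory

namespace Pool.Agent.Lib.MP_177f07_gt

universe u

variable {κ : Cardinal.{u}}

section POW

theorem pow_abs_sub_triangle {K : Type u} [TopologicalSpace K] [CompactSpace K]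
    (l : Prob K) (a b c : C(K, ℝ)) : l.1 |a - c| ≤ l.1 |a - b| + l.1 |b - c| := by
  rw [← map_add]
  apply Prob.mono
  intro x
  exact abs_sub_le _ _ _

theorem pow_smul {K : Type u} [TopologicalSpace K] [CompactSpace K]
    (l : Prob K) (c : ℝ) (a : C(K, ℝ)) : l.1 (c • a) = c * l.1 a := by
  simp

theorem pow_nonneg {K : Type u} [TopologicalSpace K] [CompactSpace K]
    (l : Prob K) (a : C(K, ℝ)) : 0 ≤ l.1 |a| :=
  l.2.1 _ (abs_nonneg _)

/-- The functions approximated by a rational subalgebra form a real subalgebra. -/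
noncomputable def powAlg {K : Type u} [TopologicalSpace K] [CompactSpace K] (l : Prob K)
    (D : Subalgebra ℚ C(K, ℝ)) : Subalgebra ℝ C(K, ℝ) where
  carrier := {f | ∀ ε : ℝ, 0 < ε → ∃ d ∈ D, l.1 |f - d| < ε}
  mul_mem' := by
    intro f g hf hg ε hε
    obtain ⟨e, he, hge⟩ := hg (ε / 2 / (‖f‖ + 1)) (by positivity)
    obtain ⟨d, hd, hfd⟩ := hf (ε / 2 / (‖e‖ + 1)) (by positivity)
    refine ⟨d * e, D.mul_mem hd he, ?_⟩
    have h1 : l.1 |f * g - f * e| ≤ ‖f‖ * l.1 |g - e| := by
      rw [← pow_smul]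
      apply Prob.mono
      intro x
      change |f x * g x - f x * e x| ≤ ‖f‖ * |g x - e x|
      rw [← mul_sub, abs_mul]
      exact mul_le_mul_of_nonneg_right (ContinuousMap.norm_coe_le_norm f x) (abs_nonneg _)
    have h2 : l.1 |f * e - d * e| ≤ ‖e‖ * l.1 |f - d| := by
      rw [← pow_smul]
      apply Prob.mono
      intro x
      change |f x * e x - d x * e x| ≤ ‖e‖ * |f x - d x|
      rw [← sub_mul, abs_mul, mul_comm]
      exact mul_le_mul_of_nonneg_right (ContinuousMap.norm_coe_le_norm e x) (abs_nonneg _)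
    have h3 : ‖f‖ * l.1 |g - e| < ε / 2 := by
      have := pow_nonneg l (g - e)
      calc ‖f‖ * l.1 |g - e| ≤ (‖f‖ + 1) * l.1 |g - e| := by nlinarith
        _ < (‖f‖ + 1) * (ε / 2 / (‖f‖ + 1)) := by
          apply mul_lt_mul_of_pos_left hge (by positivity)
        _ = ε / 2 := by field_simp
    have h4 : ‖e‖ * l.1 |f - d| < ε / 2 := by
      have := pow_nonneg l (f - d)
      calc ‖e‖ * l.1 |f - d| ≤ (‖e‖ + 1) * l.1 |f - d| := by nlinarith
        _ < (‖e‖ + 1) * (ε / 2 / (‖e‖ + 1)) := by
          apply mul_lt_mul_of_pos_left hfd (by positivity)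
        _ = ε / 2 := by field_simp
    have h5 := pow_abs_sub_triangle l (f * g) (f * e) (d * e)
    linarith
  add_mem' := by
    intro f g hf hg ε hε
    obtain ⟨e, he, hge⟩ := hg (ε / 2) (by positivity)
    obtain ⟨d, hd, hfd⟩ := hf (ε / 2) (by positivity)
    refine ⟨d + e, D.add_mem hd he, ?_⟩
    have h1 : l.1 |f + g - (d + e)| ≤ l.1 |f - d| + l.1 |g - e| := by
      rw [← map_add]
      apply Prob.mono
      intro x
      change |f x + g x - (d x + e x)| ≤ |f x - d x| + |g x - e x|
      have : f x + g x - (d x + e x) = (f x - d x) + (g x - e x) := by ring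
      rw [this]
      exact abs_add_le _ _
    linarith
  algebraMap_mem' := by
    intro r ε hε
    obtain ⟨q, hq1, hq2⟩ := exists_rat_btwn (show r < r + ε by linarith)
    refine ⟨algebraMap ℚ C(K, ℝ) q, D.algebraMap_mem q, ?_⟩
    have h1 : |algebraMap ℝ C(K, ℝ) r - algebraMap ℚ C(K, ℝ) q| =
        ContinuousMap.const K |r - q| := by
      ext x
      change |algebraMap ℝ ℝ r - algebraMap ℚ ℝ q| = |r - q|
      simp
    rw [h1]
    have h2 := Prob.apply_const l |r - q|
    rw [h2, abs_lt]
    constructor <;> linarith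

theorem mem_powAlg {K : Type u} [TopologicalSpace K] [CompactSpace K] (l : Prob K)
    (D : Subalgebra ℚ C(K, ℝ)) (f : C(K, ℝ)) :
    f ∈ powAlg l D ↔ ∀ ε : ℝ, 0 < ε → ∃ d ∈ D, l.1 |f - d| < ε := Iff.rfl

theorem pow_all_mem {K : Type u} [TopologicalSpace K] [CompactSpace K] (l : Prob K)
    (D : Subalgebra ℚ C(K, ℝ)) (h : (powAlg l D).SeparatesPoints) (f : C(K, ℝ)) (ε : ℝ)
    (hε : 0 < ε) : ∃ d ∈ D, l.1 |f - d| < ε := by
  obtain ⟨⟨g, hg⟩, hfg⟩ :=
    ContinuousMap.exists_mem_subalgebra_near_continuousMap_of_separatesPoints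
      (powAlg l D) h f (ε / 2) (by positivity)
  obtain ⟨d, hd, hgd⟩ := hg (ε / 2) (by positivity)
  refine ⟨d, hd, ?_⟩
  have h1 := pow_abs_sub_triangle l f g d
  have h2 : l.1 |f - g| ≤ ‖f - g‖ := by
    rw [← Prob.apply_const l ‖f - g‖]
    apply Prob.mono
    intro x
    exact ContinuousMap.norm_coe_le_norm (f - g) x
  have h3 : ‖f - g‖ < ε / 2 := by
    rw [norm_sub_rev]; exact hfg
  linarith

theorem typeLE_pi (hκ : ℵ₀ ≤ κ) {I : Type u} (hI : #I ≤ κ) (K : I → Type u) [∀ i, TopologicalSpace (K i)]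
    [∀ i, CompactSpace (K i)] [∀ i, T2Space (K i)] (hT : ∀ i (φ : Prob (K i)), TypeLE κ φ)
    (l : Prob (∀ i, K i)) : TypeLE κ l := by
  classical
  let ev : ∀ i, C((∀ i, K i), K i) := fun i => ⟨fun x => x i, continuous_apply i⟩
  choose D hDκ hD using fun i => hT i (push (ev i) l)
  let s : Set C((∀ i, K i), ℝ) := ⋃ i, (fun d : C(K i, ℝ) => d.comp (ev i)) '' (D i)
  have hs : #s ≤ κ := by
    refine (Cardinal.mk_iUnion_le _).trans ?_
    refine (mul_le_mul' hI (ciSup_le' fun i => Cardinal.mk_image_le.trans (hDκ i))).trans ?_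
    rw [Cardinal.mul_eq_self hκ]
  refine ⟨(Algebra.adjoin ℚ s : Subalgebra ℚ C((∀ i, K i), ℝ)), ?_, ?_⟩
  · have h1 := Algebra.lift_cardinalMk_adjoin_le ℚ s
    rw [Cardinal.lift_uzero, Cardinal.lift_uzero, Cardinal.mkRat, Cardinal.lift_aleph0] at h1
    exact h1.trans (max_le (max_le hκ hs) hκ)
  · intro f ε hε
    apply pow_all_mem l _ _ f ε hε
    intro x y hxy
    obtain ⟨i, hi⟩ := Function.ne_iff.1 hxy
    obtain ⟨g, hg⟩ : ∃ g : C(K i, ℝ), g (x i) ≠ g (y i) := by
      obtain ⟨g, hg0, hg1, -⟩ := exists_continuous_zero_one_of_isClosed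
        (isClosed_singleton (x := x i)) (isClosed_singleton (x := y i))
        (Set.disjoint_singleton.2 hi)
      refine ⟨g, ?_⟩
      rw [hg0 rfl, hg1 rfl]
      simp
    refine ⟨_, ⟨g.comp (ev i), ?_, rfl⟩, hg⟩
    intro δ hδ
    obtain ⟨d, hd, hgd⟩ := hD i g δ hδ
    refine ⟨d.comp (ev i), Algebra.subset_adjoin ?_, ?_⟩
    · exact Set.mem_iUnion.2 ⟨i, d, hd, rfl⟩
    · rw [push_apply] at hgd
      exact hgd

theorem pow_tight_subsingleton {X : Type u} [TopologicalSpace X] [Subsingleton X]
    (hκ : ℵ₀ ≤ κ) : TightLE κ X := by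
  intro A x hx
  refine ⟨A, subset_rfl, ?_, hx⟩
  exact (Cardinal.mk_le_one_iff_set_subsingleton.2 A.subsingleton_of_subsingleton).trans
    (Cardinal.one_le_aleph0.trans hκ)

theorem pow_prob_subsingleton {K : Type u} [TopologicalSpace K] [CompactSpace K]
    [Subsingleton K] : Subsingleton (Prob K) := by
  constructor
  intro φ ψ
  apply Subtype.ext
  apply ContinuousLinearMap.ext
  intro f
  rcases isEmpty_or_nonempty K with hK | ⟨⟨a⟩⟩
  · have : f = 0 := by ext x; exact (hK.false x).elim
    rw [this]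
    exact (map_zero φ.1).trans (map_zero ψ.1).symm
  · have : f = ContinuousMap.const K (f a) := by
      ext x; rw [Subsingleton.elim x a]; rfl
    rw [this]
    exact (Prob.apply_const φ _).trans (Prob.apply_const ψ _).symm

theorem pow_finite (hκ : ℵ₀ ≤ κ) {I : Type u} (K : I → Type u) [∀ i, TopologicalSpace (K i)]
    [∀ i, CompactSpace (K i)] [∀ i, T2Space (K i)] (hK : ∀ i, TightLE κ (Prob (K i)))
    (hT : ∀ i j, i ≠ j → (∀ φ : Prob (K i), TypeLE κ φ) ∨ (∀ φ : Prob (K j), TypeLE κ φ))
    (F : Finset I) : TightLE κ (Prob (∀ i : F, K i)) := by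
  classical
  induction F using Finset.induction_on with
  | empty =>
    have : Subsingleton (Prob (∀ i : (∅ : Finset I), K i)) := pow_prob_subsingleton
    exact pow_tight_subsingleton hκ
  | insert a F ha ih =>
    have h1 : TightLE κ (Prob (K a × (∀ i : F, K i))) := by
      apply tightLE_prob_prod hκ (hK a) ih
      by_cases hF : ∃ i ∈ F, ¬ ∀ φ : Prob (K i), TypeLE κ φ
      · left
        obtain ⟨i, hi, hbad⟩ := hF
        have hne : i ≠ a := fun h => ha (h ▸ hi)
        exact (hT i a hne).resolve_left hbad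
      · right
        push Not at hF
        apply typeLE_pi hκ
        · exact (Cardinal.mk_le_aleph0).trans hκ
        · intro i
          exact hF i i.2
    -- the surjection
    let T : (K a × (∀ i : F, K i)) → (∀ i : (insert a F : Finset I), K i) := fun p i =>
      if h : (i : I) = a then cast (congrArg K h.symm) p.1 else p.2 ⟨i, (Finset.mem_insert.1 i.2).resolve_left h⟩
    have hTc : Continuous T := by
      apply continuous_pi
      rintro ⟨i, hi⟩
      by_cases h : i = a
      · subst h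
        simp only [T, dite_true, cast_eq]
        exact continuous_fst
      · simp only [T, h, dite_false]
        exact (continuous_apply _).comp continuous_snd
    have hTs : Function.Surjective T := by
      intro x
      refine ⟨(x ⟨a, Finset.mem_insert_self _ _⟩,
        fun i => x ⟨i, Finset.mem_insert_of_mem i.2⟩), ?_⟩
      funext i
      obtain ⟨i, hi⟩ := i
      by_cases h : i = a
      · subst h
        simp [T]
      · simp [T, h]
    exact tightLE_of_surjective (continuous_push ⟨T, hTc⟩) (push_surjective ⟨T, hTc⟩ hTs) h1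

/-- Functions depending on finitely many coordinates. -/
def finAlg {I : Type u} (K : I → Type u) [∀ i, TopologicalSpace (K i)] :
    Subalgebra ℝ C((∀ i, K i), ℝ) where
  carrier := {f | ∃ F : Finset I, ∀ x y : ∀ i, K i, (∀ i ∈ F, x i = y i) → f x = f y}
  mul_mem' := by
    classical
    rintro f g ⟨F, hF⟩ ⟨G, hG⟩
    refine ⟨F ∪ G, fun x y hxy => ?_⟩
    rw [ContinuousMap.mul_apply, ContinuousMap.mul_apply,
      hF x y fun i hi => hxy i (Finset.mem_union_left _ hi),
      hG x y fun i hi => hxy i (Finset.mem_union_right _ hi)]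
  add_mem' := by
    classical
    rintro f g ⟨F, hF⟩ ⟨G, hG⟩
    refine ⟨F ∪ G, fun x y hxy => ?_⟩
    rw [ContinuousMap.add_apply, ContinuousMap.add_apply,
      hF x y fun i hi => hxy i (Finset.mem_union_left _ hi),
      hG x y fun i hi => hxy i (Finset.mem_union_right _ hi)]
  algebraMap_mem' := by
    intro r
    exact ⟨∅, fun x y _ => rfl⟩

theorem tightLE_prob_pi (hκ : ℵ₀ ≤ κ) {I : Type u} (hI : #I ≤ κ) (K : I → Type u) [∀ i, TopologicalSpace (K i)]
    [∀ i, CompactSpace (K i)] [∀ i, T2Space (K i)] (hK : ∀ i, TightLE κ (Prob (K i)))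
    (hT : ∀ i j, i ≠ j → (∀ φ : Prob (K i), TypeLE κ φ) ∨ (∀ φ : Prob (K j), TypeLE κ φ)) :
    TightLE κ (Prob (∀ i, K i)) := by
  classical
  intro A x hx
  -- the base point
  have hne : Nonempty (∀ i, K i) := by
    by_contra hcon
    rw [not_nonempty_iff] at hcon
    have h1 : (1 : C((∀ i, K i), ℝ)) = 0 := by ext y; exact (hcon.false y).elim
    have h2 : x.1 (1 : C((∀ i, K i), ℝ)) = 1 := x.2.2
    have h3 : x.1 (0 : C((∀ i, K i), ℝ)) = 0 := map_zero x.1
    exact zero_ne_one (h3.symm.trans ((congrArg x.1 h1).symm.trans h2))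
  obtain ⟨b⟩ := hne
  let p : ∀ F : Finset I, C((∀ i, K i), (∀ i : F, K i)) := fun F =>
    ⟨fun y i => y i, continuous_pi fun i => continuous_apply _⟩
  have hex : ∀ F : Finset I, ∃ B ⊆ A, #B ≤ κ ∧ push (p F) x ∈ closure (push (p F) '' B) := by
    intro F
    have h1 : push (p F) x ∈ closure (push (p F) '' A) :=
      image_closure_subset_closure_image (continuous_push (p F)) ⟨x, hx, rfl⟩
    obtain ⟨B', hB', hc, hcl⟩ := pow_finite hκ K hK hT F _ _ h1
    have : Nonempty (Prob (∀ i, K i)) := ⟨x⟩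
    choose! r hr using fun y (hy : y ∈ B') => hB' hy
    refine ⟨r '' B', ?_, Cardinal.mk_image_le.trans hc, ?_⟩
    · rintro _ ⟨y, hy, rfl⟩
      exact (hr y hy).1
    · have : push (p F) '' (r '' B') = B' := by
        ext y
        constructor
        · rintro ⟨_, ⟨z, hz, rfl⟩, rfl⟩
          rw [(hr z hz).2]; exact hz
        · intro hy
          exact ⟨r y, ⟨y, hy, rfl⟩, (hr y hy).2⟩
      rw [this]
      exact hcl
  choose B hBA hBκ hBx using hex
  refine ⟨⋃ F, B F, Set.iUnion_subset hBA, ?_, ?_⟩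
  · refine (Cardinal.mk_iUnion_le _).trans ?_
    have h1 : #(Finset I) ≤ κ := by
      rcases finite_or_infinite I with hf | hf
      · exact (Cardinal.mk_le_aleph0).trans hκ
      · rw [Cardinal.mk_finset_of_infinite]; exact hI
    refine (mul_le_mul' h1 (ciSup_le' fun F => hBκ F)).trans ?_
    rw [Cardinal.mul_eq_self hκ]
  · rw [mem_closure_prob_iff]
    intro s ε hε
    have hsep : (finAlg K).SeparatesPoints := by
      intro y z hyz
      obtain ⟨i, hi⟩ := Function.ne_iff.1 hyz
      obtain ⟨g, hg0, hg1, -⟩ := exists_continuous_zero_one_of_isClosed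
        (isClosed_singleton (x := y i)) (isClosed_singleton (x := z i))
        (Set.disjoint_singleton.2 hi)
      refine ⟨_, ⟨g.comp ⟨fun x => x i, continuous_apply i⟩, ?_, rfl⟩, ?_⟩
      · refine ⟨{i}, fun y z hyz => ?_⟩
        change g (y i) = g (z i)
        rw [hyz i (Finset.mem_singleton_self i)]
      · change g (y i) ≠ g (z i)
        rw [hg0 rfl, hg1 rfl]
        simp
    have happ : ∀ f : C((∀ i, K i), ℝ), ∃ (g : C((∀ i, K i), ℝ)) (F : Finset I),
        (∀ x y : ∀ i, K i, (∀ i ∈ F, x i = y i) → g x = g y) ∧ ‖g - f‖ < ε / 3 := by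
      intro f
      obtain ⟨⟨g, F, hF⟩, hfg⟩ :=
        ContinuousMap.exists_mem_subalgebra_near_continuousMap_of_separatesPoints
          (finAlg K) hsep f (ε / 3) (by positivity)
      exact ⟨g, F, hF, hfg⟩
    choose g G hG hgf using happ
    let F : Finset I := s.biUnion G
    let ext : C((∀ i : F, K i), (∀ i, K i)) :=
      ⟨fun y i => if h : i ∈ F then y ⟨i, h⟩ else b i, by
        apply continuous_pi
        intro i
        by_cases h : i ∈ F
        · simp only [h, dite_true]; exact continuous_apply _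
        · simp only [h, dite_false]; exact continuous_const⟩
    have hfac : ∀ f ∈ s, (g f) = ((g f).comp ext).comp (p F) := by
      intro f hf
      ext y
      change g f y = g f (ext (p F y))
      apply hG f
      intro i hi
      have hiF : i ∈ F := Finset.mem_biUnion.2 ⟨f, hf, hi⟩
      change y i = if h : i ∈ F then y i else b i
      rw [dif_pos hiF]
    have h1 := (mem_closure_prob_iff _ _).1 (hBx F) (s.image fun f => (g f).comp ext) (ε / 3)
      (by positivity)
    obtain ⟨_, ⟨φ, hφB, rfl⟩, hφ⟩ := h1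
    refine ⟨φ, Set.mem_iUnion.2 ⟨F, hφB⟩, fun f hf => ?_⟩
    have h2 := hφ _ (Finset.mem_image_of_mem _ hf)
    rw [push_apply, push_apply, ← hfac f hf] at h2
    have h3 : ∀ ψ : Prob (∀ i, K i), |ψ.1 f - ψ.1 (g f)| < ε / 3 := by
      intro ψ
      rw [← map_sub]
      have := Prob.abs_le_norm ψ (f - g f)
      rw [norm_sub_rev] at this
      exact this.trans_lt (hgf f)
    have h4 := h3 φ
    have h5 := h3 x
    rw [abs_lt] at *
    constructor <;> linarith [h2.1, h2.2, h4.1, h4.2, h5.1, h5.2]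

end POW

end Pool.Agent.Lib.MP_177f07_gt
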