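import Pool.Agent.Lib.MP_177f07_gt.Prob
import Pool.Agent.Lib.MP_177f07_gt.Tight

/-!
POWONLY: more than `κ` nontrivial factors make `Prob (∀ i, K i)` not `κ`-tight.
-/

set_option autoImplicit false

open scoped Cardinal

namespace Pool.Agent.Lib.MP_177f07_gt

universe u

variable {κ : Cardinal.{u}}

/-- Dirac functional. -/
theorem exists_dirac {K : Type u} [TopologicalSpace K] [CompactSpace K] (x : K) :
    ∃ φ : Prob K, ∀ f, φ.1 f = f x := by
  refine ⟨⟨ContinuousMap.evalCLM ℝ x, ?_, ?_⟩, ?_⟩
  · intro f hf
    exact hf x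
  · rfl
  · intro f
    rfl

/-- Two different points of a compact Hausdorff space are separated by a continuous function. -/
theorem exists_sep {K : Type u} [TopologicalSpace K] [CompactSpace K] [T2Space K] {a b : K}
    (hab : a ≠ b) : ∃ f : C(K, ℝ), f a = 0 ∧ f b = 1 := by
  obtain ⟨f, h0, h1, -⟩ := exists_continuous_zero_one_of_isClosed (isClosed_singleton (x := a))
    (isClosed_singleton (x := b)) (Set.disjoint_singleton.2 hab)
  exact ⟨f, h0 rfl, h1 rfl⟩

theorem card_le_of_tightLE (hκ : ℵ₀ ≤ κ) {I : Type u} (K : I → Type u)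
    [∀ i, TopologicalSpace (K i)] [∀ i, CompactSpace (K i)] [∀ i, T2Space (K i)]
    [∀ i, Nontrivial (K i)] (h : TightLE κ (Prob (∀ i, K i))) : #I ≤ κ := by
  classical
  by_contra hI
  push Not at hI
  choose a b hab using fun i => exists_pair_ne (K i)
  choose f hfa hfb using fun i => exists_sep (hab i)
  choose z hz using fun F : Finset I =>
    exists_dirac (K := ∀ i, K i) (fun i => if i ∈ F then b i else a i)
  have hcont : ∀ i, Continuous (fun x : (∀ i, K i) => f i (x i)) := fun i =>
    (f i).continuous.comp (continuous_apply i)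
  refine not_tightLE_of_net hκ hI z (fun i l => l.1 ⟨fun x => f i (x i), hcont i⟩) ?_
    (fun _ => 0) (fun _ => 1) (fun _ => by norm_num) ?_ ?_ h
  · intro i
    exact (WeakDual.eval_continuous _).comp continuous_subtype_val
  · intro i F hi
    simp [hz, hi, hfb]
  · intro i F hi
    simp [hz, hi, hfa]

end Pool.Agent.Lib.MP_177f07_gt
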