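import Pool.Agent.Lib.MP_177f07_gt.Pow

/-!
MODULE WEIGHT: if `Prob K` is countably tight and `K` carries a measure of uncountable type, then
there is a continuous image `K'` of `K` of weight at most `ℵ₁` (`C(K')` has density at most `ℵ₁`)
with the same two properties.
-/

set_option autoImplicit false

open scoped Cardinal
open MeasureTheory

namespace Pool.Agent.Lib.MP_177f07_gt

universe u

section WEIGHT

/-- A measure of uncountable type has `ℵ₁` uniformly separated functions. -/
theorem weight_separated (K : Type u) [TopologicalSpace K] [CompactSpace K]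
    (φ : Prob K) (hφ : ¬ TypeLE ℵ₀ φ) :
    ∃ (δ : ℝ) (S : Set C(K, ℝ)), 0 < δ ∧ #S = ℵ₁ ∧
      ∀ f ∈ S, ∀ g ∈ S, f ≠ g → δ ≤ φ.1 |f - g| := by
  classical
  -- maximal separated sets
  have hmax : ∀ n : ℕ, ∃ S : Set C(K, ℝ),
      (∀ f ∈ S, ∀ g ∈ S, f ≠ g → (1 : ℝ) / (n + 1) ≤ φ.1 |f - g|) ∧
      ∀ f : C(K, ℝ), ∃ g ∈ S, φ.1 |f - g| < 1 / (n + 1) := by
    intro n
    obtain ⟨S, hS⟩ := zorn_subset
      {S : Set C(K, ℝ) | ∀ f ∈ S, ∀ g ∈ S, f ≠ g → (1 : ℝ) / (n + 1) ≤ φ.1 |f - g|} (by
        intro c hc hchain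
        refine ⟨⋃₀ c, ?_, fun s hs => Set.subset_sUnion_of_mem hs⟩
        rintro f ⟨s, hs, hfs⟩ g ⟨t, ht, hgt⟩ hne
        rcases hchain.total hs ht with h | h
        · exact hc ht f (h hfs) g hgt hne
        · exact hc hs f hfs g (h hgt) hne)
    refine ⟨S, hS.prop, fun f => ?_⟩
    by_contra hcon
    push Not at hcon
    have hfS : f ∉ S := by
      intro hf
      have h1 := hcon f hf
      rw [sub_self, abs_zero] at h1
      have h2 : φ.1 (0 : C(K, ℝ)) = 0 := map_zero φ.1
      rw [h2] at h1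
      have : (0 : ℝ) < 1 / (n + 1) := by positivity
      linarith
    have h3 : insert f S ∈ {S : Set C(K, ℝ) |
        ∀ f ∈ S, ∀ g ∈ S, f ≠ g → (1 : ℝ) / (n + 1) ≤ φ.1 |f - g|} := by
      rintro a (rfl | ha) b (rfl | hb) hne
      · exact absurd rfl hne
      · exact hcon b hb
      · rw [abs_sub_comm]; exact hcon a ha
      · exact hS.prop a ha b hb hne
    exact hfS (hS.le_of_ge h3 (Set.subset_insert f S) (Set.mem_insert f S))
  choose S hS1 hS2 using hmax
  by_contra hcon
  push Not at hcon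
  apply hφ
  have hcount : ∀ n, #(S n) ≤ ℵ₀ := by
    intro n
    by_contra hn
    rw [not_le, ← Order.succ_le_iff, Cardinal.succ_aleph0] at hn
    obtain ⟨S', hS', hc⟩ := Cardinal.le_mk_iff_exists_subset.1 hn
    obtain ⟨f, hf, g, hg, hne, hlt⟩ := hcon (1 / (n + 1)) S' (by positivity) (by
      rw [hc])
    exact absurd (hS1 n f (hS' hf) g (hS' hg) hne) (not_le.2 hlt)
  refine ⟨⋃ n, S n, ?_, fun f ε hε => ?_⟩
  · exact Cardinal.le_aleph0_iff_set_countable.2
      (Set.countable_iUnion fun n => Cardinal.le_aleph0_iff_set_countable.1 (hcount n))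
  · obtain ⟨n, hn⟩ := exists_nat_one_div_lt hε
    obtain ⟨g, hg, hlt⟩ := hS2 n f
    exact ⟨g, Set.mem_iUnion.2 ⟨n, hg⟩, hlt.trans hn⟩

/-- The rational subalgebra generated by a separating family is dense. -/
theorem weight_dense {K : Type u} [TopologicalSpace K] [CompactSpace K] (s : Set C(K, ℝ))
    (hs : ∀ x y : K, x ≠ y → ∃ f ∈ s, f x ≠ f y) :
    Dense (Algebra.adjoin ℚ s : Set C(K, ℝ)) := by
  let D := Algebra.adjoin ℚ s
  let N : Subalgebra ℝ C(K, ℝ) :=
    { carrier := closure (D : Set C(K, ℝ))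
      mul_mem' := fun {a b} ha hb => D.topologicalClosure.mul_mem ha hb
      add_mem' := fun {a b} ha hb => D.topologicalClosure.add_mem ha hb
      algebraMap_mem' := by
        intro r
        have hc : Continuous fun t : ℝ => algebraMap ℝ C(K, ℝ) t := continuous_algebraMap _ _
        have h1 : r ∈ closure (Set.range ((↑) : ℚ → ℝ)) := Rat.denseRange_cast r
        have h2 := image_closure_subset_closure_image hc ⟨r, h1, rfl⟩
        refine closure_mono ?_ h2
        rintro _ ⟨_, ⟨q, rfl⟩, rfl⟩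
        have : algebraMap ℝ C(K, ℝ) (q : ℝ) = algebraMap ℚ C(K, ℝ) q := by
          ext x
          change algebraMap ℝ ℝ (q : ℝ) = algebraMap ℚ ℝ q
          simp
        change algebraMap ℝ C(K, ℝ) (q : ℝ) ∈ D
        rw [this]
        exact D.algebraMap_mem q }
  have hN : N.SeparatesPoints := by
    intro x y hxy
    obtain ⟨f, hf, hne⟩ := hs x y hxy
    exact ⟨f, ⟨f, subset_closure (Algebra.subset_adjoin hf), rfl⟩, hne⟩
  have h1 := ContinuousMap.subalgebra_topologicalClosure_eq_top_of_separatesPoints N hN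
  have h2 : closure (closure (D : Set C(K, ℝ))) = Set.univ := by
    exact congrArg (fun A : Subalgebra ℝ C(K, ℝ) => (A : Set C(K, ℝ))) h1
  rw [closure_closure] at h2
  exact dense_iff_closure_eq.2 h2

theorem exists_weight_aleph_one (K : Type u) [TopologicalSpace K] [CompactSpace K] [T2Space K]
    (hK : TightLE ℵ₀ (Prob K)) (φ : Prob K) (hφ : ¬ TypeLE ℵ₀ φ) :
    ∃ (K' : Type u) (_ : TopologicalSpace K') (_ : CompactSpace K') (_ : T2Space K'),
      (∃ D : Set C(K', ℝ), #D ≤ ℵ₁ ∧ Dense D) ∧ TightLE ℵ₀ (Prob K') ∧ ∃ φ' : Prob K', ¬ TypeLE ℵ₀ φ' := by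
  classical
  obtain ⟨δ, S, hδ, hS, hsep⟩ := weight_separated K φ hφ
  let G : K → (S → ℝ) := fun x s => s.1 x
  have hG : Continuous G := continuous_pi fun s => s.1.continuous
  let K' : Type u := Set.range G
  have hcomp : CompactSpace K' := isCompact_iff_compactSpace.1 (isCompact_range hG)
  let T : C(K, K') := ⟨Set.rangeFactorization G, hG.subtype_mk _⟩
  have hT : Function.Surjective T := Set.rangeFactorization_surjective
  let π : S → C(K', ℝ) := fun s => ⟨fun y => y.1 s, (continuous_apply s).comp continuous_subtype_val⟩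
  have hπT : ∀ s, (π s).comp T = s.1 := by
    intro s; ext x; rfl
  refine ⟨K', inferInstance, hcomp, inferInstance, ?_, ?_, ?_⟩
  · refine ⟨(Algebra.adjoin ℚ (Set.range π) : Subalgebra ℚ C(K', ℝ)), ?_, ?_⟩
    · have h1 := Algebra.lift_cardinalMk_adjoin_le ℚ (Set.range π)
      rw [Cardinal.lift_uzero, Cardinal.lift_uzero, Cardinal.mkRat, Cardinal.lift_aleph0] at h1
      refine h1.trans (max_le (max_le ?_ ?_) ?_)
      · exact Cardinal.aleph0_le_aleph 1
      · exact Cardinal.mk_range_le.trans hS.le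
      · exact Cardinal.aleph0_le_aleph 1
    · apply weight_dense
      intro x y hxy
      have hne : x.1 ≠ y.1 := fun h => hxy (Subtype.ext h)
      obtain ⟨s, hs⟩ := Function.ne_iff.1 hne
      exact ⟨π s, ⟨s, rfl⟩, hs⟩
  · exact tightLE_of_surjective (continuous_push T) (push_surjective T hT) hK
  · refine ⟨push T φ, ?_⟩
    rintro ⟨D, hD, hDd⟩
    choose d hdD hd using fun s : S => hDd (π s) (δ / 2) (by positivity)
    have hinj : Function.Injective fun s : S => (⟨d s, hdD s⟩ : D) := by
      intro s t hst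
      have hst' : d s = d t := congrArg Subtype.val hst
      by_contra hne
      have h1 := hsep s.1 s.2 t.1 t.2 (fun h => hne (Subtype.ext h))
      have h2 : (push T φ).1 |π s - π t| = φ.1 |s.1 - t.1| := by
        rw [push_apply]
        congr 1
      have h3 := pow_abs_sub_triangle (push T φ) (π s) (d s) (π t)
      have h4 := hd s
      have h5 := hd t
      rw [abs_sub_comm, ← hst'] at h5
      linarith
    have h6 := Cardinal.mk_le_of_injective hinj
    rw [hS] at h6
    exact absurd (h6.trans hD) (not_le.2 Cardinal.aleph0_lt_aleph_one)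

end WEIGHT

end Pool.Agent.Lib.MP_177f07_gt
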