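import Pool.Agent.Lib.MP_177f07_gt.Main
import Pool.Agent.Lib.MP_177f07_gt.Pow
import Pool.Agent.Lib.MP_177f07_gt.PowOnly
import Pool.Agent.Lib.MP_177f07_gt.Weight

/-!
Final statements: arbitrary products, and the equivalent forms of the question.
-/

set_option autoImplicit false
set_option linter.unusedSectionVars false

open scoped Cardinal
open MeasureTheory TopologicalSpace

namespace Pool.Agent.Lib.MP_177f07_gt

universe u

variable {κ : Cardinal.{u}}

/-- Every regular Borel probability measure `μ` on `K` has `L¹(μ)` of density at most `κ`. -/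
def TypesLE (κ : Cardinal.{u}) (K : Type u) [TopologicalSpace K] [MeasurableSpace K] : Prop :=
  ∀ μ : Measure K, IsProbabilityMeasure μ → μ.Regular → ∃ D : Set (Lp ℝ 1 μ), #D ≤ κ ∧ Dense D

theorem forall_typeLE_iff (hκ : ℵ₀ ≤ κ) (K : Type u) [TopologicalSpace K] [CompactSpace K]
    [T2Space K] [MeasurableSpace K] [BorelSpace K] :
    (∀ φ : Prob K, TypeLE κ φ) ↔ TypesLE κ K := by
  constructor
  · intro h μ h1 h2
    obtain ⟨φ, hφ⟩ := exists_prob μ
    exact (typeLE_iff_densLE hκ μ φ hφ).1 (h φ)
  · intro h φ
    obtain ⟨μ, h1, h2, hφ⟩ := exists_measure φ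
    exact (typeLE_iff_densLE hκ μ φ hφ).2 (h μ h1 h2)

theorem tightLE_factor {I : Type u} (K : I → Type u) [∀ i, TopologicalSpace (K i)]
    [∀ i, CompactSpace (K i)] [∀ i, T2Space (K i)] [∀ i, Nonempty (K i)]
    (h : TightLE κ (Prob (∀ i, K i))) (i : I) : TightLE κ (Prob (K i)) := by
  have hs : Function.Surjective (⟨fun x => x i, continuous_apply i⟩ : C(∀ i, K i, K i)) :=
    Function.surjective_eval i
  exact tightLE_of_surjective (continuous_push _) (push_surjective _ hs) h

theorem tightLE_two_factors {I : Type u} (K : I → Type u) [∀ i, TopologicalSpace (K i)]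
    [∀ i, CompactSpace (K i)] [∀ i, T2Space (K i)] [∀ i, Nonempty (K i)]
    (h : TightLE κ (Prob (∀ i, K i))) (i j : I) (hij : i ≠ j) :
    TightLE κ (Prob (K i × K j)) := by
  classical
  have hs : Function.Surjective (⟨fun x => (x i, x j),
      (continuous_apply i).prodMk (continuous_apply j)⟩ : C(∀ i, K i, K i × K j)) := by
    rintro ⟨a, b⟩
    refine ⟨Function.update (Function.update (fun k => Classical.arbitrary (K k)) i a) j b, ?_⟩
    simp [Function.update_of_ne hij]
  exact tightLE_of_surjective (continuous_push _) (push_surjective _ hs) h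

/-- The tightness of `Prob` of an arbitrary product. -/
theorem main_pi (hκ : ℵ₀ ≤ κ) {I : Type u} (K : I → Type u) [∀ i, TopologicalSpace (K i)]
    [∀ i, CompactSpace (K i)] [∀ i, T2Space (K i)] [∀ i, Nontrivial (K i)] :
    TightLE κ (Prob (∀ i, K i)) ↔ #I ≤ κ ∧ (∀ i, TightLE κ (Prob (K i))) ∧
      ∀ i j, i ≠ j → (∀ φ : Prob (K i), TypeLE κ φ) ∨ (∀ φ : Prob (K j), TypeLE κ φ) :=
  ⟨fun h => ⟨card_le_of_tightLE hκ K h, fun i => tightLE_factor K h i,
    fun i j hij => typeLE_or hκ (tightLE_two_factors K h i j hij)⟩,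
    fun h => tightLE_prob_pi hκ h.1 K h.2.1 h.2.2⟩

theorem main_pi_uncountable (hκ : ℵ₁ ≤ κ) {I : Type u} (K : I → Type u)
    [∀ i, TopologicalSpace (K i)] [∀ i, CompactSpace (K i)] [∀ i, T2Space (K i)]
    [∀ i, Nontrivial (K i)] :
    TightLE κ (Prob (∀ i, K i)) ↔ #I ≤ κ ∧ ∀ i, TightLE κ (Prob (K i)) := by
  have hκ0 : ℵ₀ ≤ κ := (Cardinal.aleph0_le_aleph 1).trans hκ
  constructor
  · intro h
    exact ⟨card_le_of_tightLE hκ0 K h, fun i => tightLE_factor K h i⟩
  · intro h
    exact tightLE_prob_pi hκ0 h.1 K h.2 fun i j _ => Or.inl fun φ => typeLE_of_tightLE hκ (h.2 i) φ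

theorem main_square_uncountable (hκ : ℵ₁ ≤ κ) (K : Type u) [TopologicalSpace K] [CompactSpace K]
    [T2Space K] : TightLE κ (Prob (K × K)) ↔ TightLE κ (Prob K) := by
  constructor
  · intro h
    have hs : Function.Surjective (ContinuousMap.fst : C(K × K, K)) := fun x => ⟨(x, x), rfl⟩
    exact tightLE_of_surjective (continuous_push _) (push_surjective _ hs) h
  · intro h
    exact tightLE_prob_prod ((Cardinal.aleph0_le_aleph 1).trans hκ) h h
      (Or.inl fun φ => typeLE_of_tightLE hκ h φ)

/-! ### Countable tightness -/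

/-- Countable tightness, in the words of the problem. -/
def CountTight (X : Type u) [TopologicalSpace X] : Prop :=
  ∀ (A : Set X) (x : X), x ∈ closure A → ∃ A₀ ⊆ A, A₀.Countable ∧ x ∈ closure A₀

theorem countTight_iff (X : Type u) [TopologicalSpace X] : CountTight X ↔ TightLE ℵ₀ X := by
  unfold CountTight TightLE
  simp_rw [Cardinal.le_aleph0_iff_set_countable]

/-- Every regular Borel probability measure on `K` has separable `L¹`. -/
def SepTypes (K : Type u) [TopologicalSpace K] [MeasurableSpace K] : Prop :=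
  ∀ μ : Measure K, IsProbabilityMeasure μ → μ.Regular → SeparableSpace (Lp ℝ 1 μ)

theorem sepTypes_iff (K : Type u) [TopologicalSpace K] [CompactSpace K]
    [T2Space K] [MeasurableSpace K] [BorelSpace K] :
    SepTypes K ↔ ∀ φ : Prob K, TypeLE ℵ₀ φ := by
  rw [forall_typeLE_iff le_rfl K]
  unfold SepTypes TypesLE
  refine forall_congr' fun μ => forall_congr' fun _ => forall_congr' fun _ => ?_
  simp_rw [Cardinal.le_aleph0_iff_set_countable]
  exact ⟨fun h => h.exists_countable_dense, fun h => ⟨h⟩⟩

theorem countTight_pi_iff {I : Type u} (K : I → Type u) [∀ i, TopologicalSpace (K i)]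
    [∀ i, CompactSpace (K i)] [∀ i, T2Space (K i)] [∀ i, Nontrivial (K i)]
    [∀ i, MeasurableSpace (K i)] [∀ i, BorelSpace (K i)] :
    CountTight (Prob (∀ i, K i)) ↔ Countable I ∧ (∀ i, CountTight (Prob (K i))) ∧
      ∀ i j, i ≠ j → SepTypes (K i) ∨ SepTypes (K j) := by
  simp_rw [countTight_iff, sepTypes_iff]
  rw [main_pi le_rfl K, Cardinal.mk_le_aleph0_iff]

/-! ### The question and its equivalent forms (in `Type`, as in the frozen statement) -/

section Q

/-- Q1: for every compact Hausdorff `K`, if `P(K)` has countable tightness so has `P(K × K)`. -/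
def QuestionOne : Prop :=
  ∀ (K : Type) [TopologicalSpace K] [CompactSpace K] [T2Space K],
    CountTight (Prob K) → CountTight (Prob (K × K))

/-- Q1 restricted to compact spaces of weight at most `ℵ₁` (`C(K)` has density at most `ℵ₁`). -/
def QuestionOneSmall : Prop :=
  ∀ (K : Type) [TopologicalSpace K] [CompactSpace K] [T2Space K],
    (∃ D : Set C(K, ℝ), #D ≤ ℵ₁ ∧ Dense D) → CountTight (Prob K) → CountTight (Prob (K × K))

/-- The same question for two different factors. -/
def QuestionTwoFactors : Prop :=
  ∀ (K L : Type) [TopologicalSpace K] [CompactSpace K] [T2Space K]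
    [TopologicalSpace L] [CompactSpace L] [T2Space L],
    CountTight (Prob K) → CountTight (Prob L) → CountTight (Prob (K × L))

/-- The same question for countable products. -/
def QuestionProducts : Prop :=
  ∀ (K : ℕ → Type) [∀ n, TopologicalSpace (K n)] [∀ n, CompactSpace (K n)] [∀ n, T2Space (K n)],
    (∀ n, CountTight (Prob (K n))) → CountTight (Prob (∀ n, K n))

/-- Countable tightness of `P(K)` forces separable `L¹(μ)` for all regular probabilities. -/
def QuestionTypes : Prop :=
  ∀ (K : Type) [TopologicalSpace K] [CompactSpace K] [T2Space K] [MeasurableSpace K]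
    [BorelSpace K], CountTight (Prob K) → SepTypes K

theorem question_types_of_small (h : QuestionOneSmall) : QuestionTypes := by
  intro K _ _ _ _ _ hK
  rw [sepTypes_iff]
  by_contra hcon
  push Not at hcon
  obtain ⟨φ, hφ⟩ := hcon
  obtain ⟨K', i1, i2, i3, hD, hK', φ', hφ'⟩ :=
    exists_weight_aleph_one K ((countTight_iff _).1 hK) φ hφ
  have h1 := (countTight_iff _).1 (h K' hD ((countTight_iff _).2 hK'))
  rcases typeLE_or le_rfl h1 with h2 | h2
  · exact hφ' (h2 φ')
  · exact hφ' (h2 φ')

theorem question_products_of_types (h : QuestionTypes) : QuestionProducts := by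
  intro K _ _ _ hK
  rw [countTight_iff]
  refine tightLE_prob_pi le_rfl (by simp) K (fun n => (countTight_iff _).1 (hK n)) ?_
  intro i j _
  left
  letI : MeasurableSpace (K i) := borel (K i)
  haveI : BorelSpace (K i) := ⟨rfl⟩
  exact (sepTypes_iff (K i)).1 (h (K i) (hK i))

theorem question_factors_of_types (h : QuestionTypes) : QuestionTwoFactors := by
  intro K L _ _ _ _ _ _ hK hL
  rw [countTight_iff]
  refine tightLE_prob_prod le_rfl ((countTight_iff _).1 hK) ((countTight_iff _).1 hL) ?_
  left
  letI : MeasurableSpace K := borel K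
  haveI : BorelSpace K := ⟨rfl⟩
  exact (sepTypes_iff K).1 (h K hK)

/-- `K × K` is a continuous image of the countable power. -/
theorem countTight_sq_of_pow (K : Type) [TopologicalSpace K] [CompactSpace K] [T2Space K]
    (h : CountTight (Prob (ℕ → K))) : CountTight (Prob (K × K)) := by
  rw [countTight_iff] at h ⊢
  have hs : Function.Surjective (⟨fun x => (x 0, x 1),
      (continuous_apply 0).prodMk (continuous_apply 1)⟩ : C(ℕ → K, K × K)) := by
    rintro ⟨a, b⟩
    exact ⟨fun n => if n = 0 then a else b, by simp⟩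
  exact tightLE_of_surjective (continuous_push _) (push_surjective _ hs) h

theorem question_one_of_products (h : QuestionProducts) : QuestionOne := by
  intro K _ _ _ hK
  exact countTight_sq_of_pow K (h (fun _ => K) fun _ => hK)

theorem question_tfae : List.TFAE [QuestionOne, QuestionTypes, QuestionTwoFactors,
    QuestionProducts, QuestionOneSmall] := by
  tfae_have 1 → 5 := fun h K _ _ _ _ hK => h K hK
  tfae_have 5 → 2 := question_types_of_small
  tfae_have 2 → 3 := question_factors_of_types
  tfae_have 3 → 1 := fun h K _ _ _ hK => h K K hK hK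
  tfae_have 2 → 4 := question_products_of_types
  tfae_have 4 → 1 := question_one_of_products
  tfae_finish

/-- For one space: when does the conclusion of Q1 hold. -/
theorem one_space_tfae (K : Type) [TopologicalSpace K] [CompactSpace K] [T2Space K]
    [MeasurableSpace K] [BorelSpace K] (hK : CountTight (Prob K)) :
    List.TFAE [CountTight (Prob (K × K)), SepTypes K, CountTight (Prob (ℕ → K)),
      ∀ (L : Type) [TopologicalSpace L] [CompactSpace L] [T2Space L],
        CountTight (Prob L) → CountTight (Prob (K × L))] := by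
  tfae_have 1 → 2 := by
    intro h
    rw [sepTypes_iff]
    rcases typeLE_or le_rfl ((countTight_iff _).1 h) with h2 | h2
    · exact h2
    · exact h2
  tfae_have 2 → 3 := by
    intro h
    rw [countTight_iff]
    exact tightLE_prob_pi le_rfl (by simp) (fun _ : ℕ => K)
      (fun n => (countTight_iff _).1 hK) fun i j _ => Or.inl ((sepTypes_iff K).1 h)
  tfae_have 3 → 1 := countTight_sq_of_pow K
  tfae_have 2 → 4 := by
    intro h L _ _ _ hL
    rw [countTight_iff]
    exact tightLE_prob_prod le_rfl ((countTight_iff _).1 hK) ((countTight_iff _).1 hL)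
      (Or.inl ((sepTypes_iff K).1 h))
  tfae_have 4 → 1 := fun h => h K hK
  tfae_finish

/-- Under the hypothesis of Q1 the tightness of all countable powers is at most `ℵ₁`. -/
theorem tightLE_aleph_one (K : Type) [TopologicalSpace K] [CompactSpace K] [T2Space K]
    (hK : CountTight (Prob K)) : TightLE ℵ₁ (Prob (ℕ → K)) := by
  have h1 : TightLE ℵ₁ (Prob K) := by
    intro A x hx
    obtain ⟨A₀, h2, h3, h4⟩ := (countTight_iff _).1 hK A x hx
    exact ⟨A₀, h2, h3.trans (Cardinal.aleph0_le_aleph 1), h4⟩
  refine tightLE_prob_pi (Cardinal.aleph0_le_aleph 1) ?_ (fun _ : ℕ => K) (fun _ => h1)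
    fun _ _ _ => Or.inl fun φ => typeLE_of_tightLE le_rfl h1 φ
  rw [Cardinal.mk_nat]
  exact Cardinal.aleph0_le_aleph 1

/-- Criterion for the countable tightness of `P` of an arbitrary product. -/
def ProductCriterion : Prop :=
  ∀ (I : Type) (K : I → Type) [∀ i, TopologicalSpace (K i)] [∀ i, CompactSpace (K i)]
    [∀ i, T2Space (K i)] [∀ i, Nontrivial (K i)] [∀ i, MeasurableSpace (K i)]
    [∀ i, BorelSpace (K i)],
    CountTight (Prob (∀ i, K i)) ↔
      Countable I ∧ (∀ i, CountTight (Prob (K i))) ∧ ∀ i j, i ≠ j → SepTypes (K i) ∨ SepTypes (K j)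

/-- Equivalent conditions for one space `K` with `P(K)` countably tight. -/
def OneSpaceForms : Prop :=
  ∀ (K : Type) [TopologicalSpace K] [CompactSpace K] [T2Space K] [MeasurableSpace K]
    [BorelSpace K], CountTight (Prob K) →
      List.TFAE [CountTight (Prob (K × K)), SepTypes K, CountTight (Prob (ℕ → K)),
        ∀ (L : Type) [TopologicalSpace L] [CompactSpace L] [T2Space L],
          CountTight (Prob L) → CountTight (Prob (K × L))]

theorem productCriterion : ProductCriterion := fun _ K _ _ _ _ _ _ => countTight_pi_iff K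

theorem oneSpaceForms : OneSpaceForms := fun K _ _ _ _ _ hK => one_space_tfae K hK

end Q

end Pool.Agent.Lib.MP_177f07_gt
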