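import Pool.Agent.Lib.MP_177f07_gt.Defs

/-!
Free sets for set mappings with countable values (Lazar's argument).
-/

set_option autoImplicit false

open scoped Cardinal
open MeasureTheory

namespace Pool.Agent.Lib.MP_177f07_gt

universe u

variable {κ : Cardinal.{u}}

/-- `X` is free for the set mapping `S`. -/
def FREE_IsFree {I : Type u} (S : I → Set I) (X : Set I) : Prop :=
  ∀ i ∈ X, ∀ j ∈ X, i ≠ j → j ∉ S i

/-- maximal free subsets of a given set exist -/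
theorem FREE_exists_max {I : Type u} (S : I → Set I) (Z : Set I) :
    ∃ X : Set I, (FREE_IsFree S X ∧ X ⊆ Z) ∧
      ∀ Y : Set I, FREE_IsFree S Y → Y ⊆ Z → X ⊆ Y → Y = X := by
  have h := zorn_subset {X : Set I | FREE_IsFree S X ∧ X ⊆ Z} ?_
  · obtain ⟨X, hX⟩ := h
    refine ⟨X, hX.prop, fun Y hY hYZ hXY => ?_⟩
    exact (Set.Subset.antisymm hXY (hX.le_of_ge ⟨hY, hYZ⟩ hXY)).symm
  · intro c hc hch
    refine ⟨⋃₀ c, ⟨?_, ?_⟩, fun s hs => Set.subset_sUnion_of_mem hs⟩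
    · rintro i ⟨s, hs, his⟩ j ⟨t, ht, hjt⟩ hij
      rcases hch.total hs ht with h | h
      · exact (hc ht).1 i (h his) j hjt hij
      · exact (hc hs).1 i his j (h hjt) hij
    · rintro i ⟨s, hs, his⟩
      exact (hc hs).2 his

/-- a maximal free subset of the set `Z` -/
noncomputable def FREE_max {I : Type u} (S : I → Set I) (Z : Set I) : Set I :=
  (FREE_exists_max S Z).choose

theorem FREE_max_spec {I : Type u} (S : I → Set I) (Z : Set I) :
    (FREE_IsFree S (FREE_max S Z) ∧ FREE_max S Z ⊆ Z) ∧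
      ∀ Y : Set I, FREE_IsFree S Y → Y ⊆ Z → FREE_max S Z ⊆ Y → Y = FREE_max S Z :=
  (FREE_exists_max S Z).choose_spec

/-- the iterated maximal free sets -/
theorem FREE_exists_seq {I : Type u} (S : I → Set I) (W : Type u) [LinearOrder W]
    [WellFoundedLT W] :
    ∃ X : W → Set I, ∀ ξ, X ξ = FREE_max S (⋃ η : {η // η < ξ}, X η.1)ᶜ := by
  let F : (ξ : W) → ((η : W) → η < ξ → Set I) → Set I :=
    fun ξ f => FREE_max S (⋃ η : {η // η < ξ}, f η.1 η.2)ᶜ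
  refine ⟨WellFounded.fix (wellFounded_lt (α := W)) F, fun ξ => ?_⟩
  rw [WellFounded.fix_eq]

theorem exists_free (hκ : ℵ₁ ≤ κ) {I : Type u} (hI : κ < #I) (S : I → Set I)
    (hS : ∀ i, (S i).Countable) :
    ∃ X : Set I, κ < #X ∧ ∀ i ∈ X, ∀ j ∈ X, i ≠ j → j ∉ S i := by
  by_contra hcon
  have hsmall : ∀ X : Set I, FREE_IsFree S X → #X ≤ κ := by
    intro X hX
    by_contra hX2
    exact hcon ⟨X, not_le.1 hX2, hX⟩
  have hκ0 : ℵ₀ ≤ κ := (Cardinal.aleph0_le_aleph 1).trans hκ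
  obtain ⟨X, hX⟩ := FREE_exists_seq S (ℵ₁ : Cardinal.{u}).ord.ToType
  have hfree : ∀ ξ, FREE_IsFree S (X ξ) := fun ξ => by
    rw [hX ξ]; exact (FREE_max_spec S _).1.1
  have hW : #(ℵ₁ : Cardinal.{u}).ord.ToType = ℵ₁ := Cardinal.mk_ord_toType _
  -- the union of the family
  have hY : #(⋃ ξ, X ξ : Set I) ≤ κ := by
    refine (Cardinal.mk_iUnion_le X).trans ?_
    rw [hW]
    calc ℵ₁ * ⨆ ξ, #(X ξ) ≤ κ * κ := by
          refine mul_le_mul' hκ ?_
          exact ciSup_le' fun ξ => hsmall _ (hfree ξ)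
      _ = κ := Cardinal.mul_eq_self hκ0
  have hT : #(⋃ y : (⋃ ξ, X ξ : Set I), S y.1 : Set I) ≤ κ := by
    refine (Cardinal.mk_iUnion_le _).trans ?_
    calc #(⋃ ξ, X ξ : Set I) * ⨆ y : (⋃ ξ, X ξ : Set I), #(S y.1) ≤ κ * κ := by
          refine mul_le_mul' hY ?_
          exact ciSup_le' fun y => ((hS y.1).le_aleph0).trans hκ0
      _ = κ := Cardinal.mul_eq_self hκ0
  have hU : #((⋃ ξ, X ξ) ∪ (⋃ y : (⋃ ξ, X ξ : Set I), S y.1) : Set I) ≤ κ := by
    refine (Cardinal.mk_union_le _ _).trans ?_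
    calc _ ≤ κ + κ := add_le_add hY hT
      _ = κ := Cardinal.add_eq_self hκ0
  obtain ⟨z, hz⟩ : ∃ z : I, z ∉ ((⋃ ξ, X ξ) ∪ (⋃ y : (⋃ ξ, X ξ : Set I), S y.1) : Set I) := by
    by_contra hz
    push Not at hz
    have : ((⋃ ξ, X ξ) ∪ (⋃ y : (⋃ ξ, X ξ : Set I), S y.1) : Set I) = Set.univ :=
      Set.eq_univ_of_forall hz
    rw [this, Cardinal.mk_univ] at hU
    exact absurd hI (not_lt.2 hU)
  have hz1 : ∀ ξ, z ∉ X ξ := fun ξ h => hz (Or.inl (Set.mem_iUnion.2 ⟨ξ, h⟩))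
  have hz2 : ∀ ξ, ∀ x ∈ X ξ, z ∉ S x := fun ξ x hx h =>
    hz (Or.inr (Set.mem_iUnion.2 ⟨⟨x, Set.mem_iUnion.2 ⟨ξ, hx⟩⟩, h⟩))
  -- `S z` meets every member
  have hmeet : ∀ ξ, ∃ x ∈ X ξ, x ∈ S z := by
    intro ξ
    by_contra hno
    push Not at hno
    have h1 := (FREE_max_spec S (⋃ η : {η // η < ξ}, X η.1)ᶜ).2 (insert z (X ξ)) ?_ ?_ ?_
    · rw [← hX ξ] at h1
      exact hz1 ξ (h1 ▸ Set.mem_insert z _)
    · intro i hi j hj hij
      rcases hi with rfl | hi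
      · rcases hj with rfl | hj
        · exact absurd rfl hij
        · exact hno j hj
      · rcases hj with rfl | hj
        · exact hz2 ξ i hi
        · exact hfree ξ i hi j hj hij
    · intro i hi
      rcases hi with rfl | hi
      · rw [Set.mem_compl_iff, Set.mem_iUnion]
        rintro ⟨η, h⟩
        exact hz1 η.1 h
      · have h2 := (FREE_max_spec S (⋃ η : {η // η < ξ}, X η.1)ᶜ).1.2
        rw [← hX ξ] at h2
        exact h2 hi
    · rw [← hX ξ]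
      exact Set.subset_insert _ _
  choose f hf1 hf2 using hmeet
  have hdis : ∀ ξ η, η < ξ → ∀ x, x ∈ X ξ → x ∉ X η := by
    intro ξ η h x hx hx2
    have h2 := (FREE_max_spec S (⋃ η : {η // η < ξ}, X η.1)ᶜ).1.2
    rw [← hX ξ] at h2
    exact h2 hx (Set.mem_iUnion.2 ⟨⟨η, h⟩, hx2⟩)
  have hinj : Function.Injective fun ξ => (⟨f ξ, hf2 ξ⟩ : S z) := by
    intro ξ η h
    have h3 : f ξ = f η := congrArg Subtype.val h
    rcases lt_trichotomy ξ η with h4 | h4 | h4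
    · exact absurd (hf1 ξ) (hdis η ξ h4 _ (h3 ▸ hf1 η))
    · exact h4
    · exact absurd (hf1 η) (hdis ξ η h4 _ (h3 ▸ hf1 ξ))
  have h5 := Cardinal.mk_le_of_injective hinj
  rw [hW] at h5
  have h6 := h5.trans (hS z).le_aleph0
  exact absurd Cardinal.aleph0_lt_aleph_one (not_lt.2 h6)

end Pool.Agent.Lib.MP_177f07_gt
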