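import Pool.Agent.Lib.MP_177f07_gt.Prob
import Pool.Agent.Lib.MP_177f07_gt.Exh

/-!
MODULE LINK: type of a functional, density of `L¹(μ)`, density of the measure algebra.
-/

set_option autoImplicit false

open scoped Cardinal
open MeasureTheory

namespace Pool.Agent.Lib.MP_177f07_gt

universe u

variable {κ : Cardinal.{u}}

section LINK

/-- Density at most `κ`. -/
def DensLE (κ : Cardinal.{u}) (Z : Type u) [TopologicalSpace Z] : Prop :=
  ∃ D : Set Z, #D ≤ κ ∧ Dense D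

/-- rational combinations of a set whose real span is dense -/
theorem link_dens_of_span (hκ : ℵ₀ ≤ κ) {E : Type u} [NormedAddCommGroup E] [NormedSpace ℝ E]
    (A : Set E) (hA : #A ≤ κ) (h : ∀ x, x ∈ closure (Submodule.span ℝ A : Set E)) :
    DensLE κ E := by
  let g : List (ℚ × A) → E := fun l => (l.map fun p => (p.1 : ℝ) • (p.2 : E)).sum
  have hgadd : ∀ a ∈ Set.range g, ∀ b ∈ Set.range g, a + b ∈ Set.range g := by
    rintro _ ⟨l, rfl⟩ _ ⟨l', rfl⟩
    exact ⟨l ++ l', by simp only [g, List.map_append, List.sum_append]⟩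
  have hgsmul : ∀ a ∈ Set.range ((↑) : ℚ → ℝ), ∀ b ∈ Set.range g, a • b ∈ Set.range g := by
    rintro _ ⟨q, rfl⟩ _ ⟨l, rfl⟩
    refine ⟨l.map fun p => (q * p.1, p.2), ?_⟩
    simp only [g]
    induction l with
    | nil => simp
    | cons p l ih =>
      simp only [List.map_cons, List.sum_cons, smul_add]
      rw [ih]
      congr 1
      rw [smul_smul]
      push_cast
      rfl
  let W : Submodule ℝ E :=
    { carrier := closure (Set.range g)
      add_mem' := fun {x y} hx hy => map_mem_closure₂ continuous_add hx hy hgadd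
      zero_mem' := subset_closure ⟨[], rfl⟩
      smul_mem' := fun c {x} hx =>
        map_mem_closure₂ continuous_smul (Rat.denseRange_cast (𝕜 := ℝ) c) hx hgsmul }
  have hAW : Submodule.span ℝ A ≤ W := by
    rw [Submodule.span_le]
    intro a ha
    refine subset_closure ⟨[(1, ⟨a, ha⟩)], ?_⟩
    simp [g]
  refine ⟨Set.range g, ?_, fun x => ?_⟩
  · refine Cardinal.mk_range_le.trans ((Cardinal.mk_list_le_max _).trans (max_le hκ ?_))
    rw [Cardinal.mk_prod]
    refine Cardinal.mul_le_of_le hκ ?_ ?_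
    · simpa using hκ
    · simpa using hA
  · have h1 : closure (Submodule.span ℝ A : Set E) ⊆ closure (Set.range g) :=
      closure_minimal (fun y hy => hAW hy) isClosed_closure
    exact h1 (h x)

theorem link_densLE_of_mTypeLE (hκ : ℵ₀ ≤ κ) {X : Type u} [MeasurableSpace X] (μ : Measure X)
    [IsFiniteMeasure μ] (h : MTypeLE κ μ) : DensLE κ (Lp ℝ 1 μ) := by
  obtain ⟨𝒜, h𝒜, hd⟩ := h
  have hsm : ∀ (s : Set X) (hs : MeasurableSet s) (hμs : μ s ≠ ⊤) (c : ℝ),
      indicatorConstLp 1 hs hμs c = c • indicatorConstLp 1 hs hμs (1 : ℝ) := by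
    intro s hs hμs c
    apply Lp.ext
    refine indicatorConstLp_coeFn.trans ?_
    refine Filter.EventuallyEq.trans ?_ (Lp.coeFn_smul _ _).symm
    filter_upwards [indicatorConstLp_coeFn (p := 1) (hs := hs) (hμs := hμs) (c := (1 : ℝ))]
      with x hx
    rw [Pi.smul_apply, hx]
    by_cases hxs : x ∈ s
    · simp [Set.indicator_of_mem hxs]
    · simp [Set.indicator_of_notMem hxs]
  refine link_dens_of_span hκ (Set.range fun s : 𝒜 =>
    indicatorConstLp 1 (hd.measurable s.1 s.2) (measure_ne_top μ s.1) (1 : ℝ))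
    (Cardinal.mk_range_le.trans h𝒜) (fun f => ?_)
  set V := Submodule.span ℝ (Set.range fun s : 𝒜 =>
    indicatorConstLp 1 (hd.measurable s.1 s.2) (measure_ne_top μ s.1) (1 : ℝ)) with hV
  have key : ∀ f : Lp ℝ 1 μ, f ∈ V.topologicalClosure := by
    intro f
    refine Lp.induction (by norm_num) (fun f : Lp ℝ 1 μ => f ∈ V.topologicalClosure)
      ?_ ?_ ?_ f
    · intro c s hs hμs
      rw [Lp.simpleFunc.coe_indicatorConst]
      have : Fact ((1 : ENNReal) ≠ ⊤) := ⟨ENNReal.one_ne_top⟩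
      have h1 := hd.indicatorConstLp_subset_closure 1 c ⟨s, hs, hμs.ne, rfl⟩
      have h2 : closure {x : Lp ℝ 1 μ | ∃ (s : Set X) (hs : s ∈ 𝒜) (hμs : μ s ≠ ⊤),
          indicatorConstLp 1 (hd.measurable s hs) hμs c = x} ⊆ V.topologicalClosure := by
        refine closure_minimal ?_ (Submodule.isClosed_topologicalClosure V)
        rintro _ ⟨s, hs, hμs, rfl⟩
        rw [hsm]
        exact Submodule.smul_mem _ _
          (V.le_topologicalClosure (Submodule.subset_span ⟨⟨s, hs⟩, rfl⟩))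
      exact h2 h1
    · intro f g hf hg _ h1 h2
      exact Submodule.add_mem _ h1 h2
    · exact Submodule.isClosed_topologicalClosure V
  exact key f

variable {K : Type u} [TopologicalSpace K] [CompactSpace K] [T2Space K] [MeasurableSpace K]
  [BorelSpace K]

omit [T2Space K] in
theorem link_norm (μ : Measure K) [IsProbabilityMeasure μ] (φ : Prob K)
    (hφ : ∀ f : C(K, ℝ), φ.1 f = ∫ x, f x ∂μ) (f : C(K, ℝ)) :
    ‖(ContinuousMap.toLp 1 μ ℝ f : Lp ℝ 1 μ)‖ = φ.1 |f| := by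
  rw [L1.norm_eq_integral_norm, hφ]
  refine integral_congr_ae ?_
  filter_upwards [ContinuousMap.coeFn_toLp (p := 1) (𝕜 := ℝ) μ f] with x hx
  rw [hx, Real.norm_eq_abs, ContinuousMap.abs_apply]

theorem typeLE_iff_densLE (hκ : ℵ₀ ≤ κ) (μ : Measure K) [IsProbabilityMeasure μ] [μ.Regular]
    (φ : Prob K) (hφ : ∀ f : C(K, ℝ), φ.1 f = ∫ x, f x ∂μ) :
    TypeLE κ φ ↔ DensLE κ (Lp ℝ 1 μ) := by
  have hdense : DenseRange (ContinuousMap.toLp 1 μ ℝ : C(K, ℝ) →L[ℝ] Lp ℝ 1 μ) :=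
    ContinuousMap.toLp_denseRange ℝ μ ℝ (by norm_num)
  have hnorm : ∀ f g : C(K, ℝ), ‖(ContinuousMap.toLp 1 μ ℝ f : Lp ℝ 1 μ)
      - ContinuousMap.toLp 1 μ ℝ g‖ = φ.1 |f - g| := by
    intro f g
    rw [← map_sub, link_norm μ φ hφ]
  constructor
  · rintro ⟨D, hD, hDd⟩
    refine ⟨(ContinuousMap.toLp 1 μ ℝ : C(K, ℝ) →L[ℝ] Lp ℝ 1 μ) '' D,
      Cardinal.mk_image_le.trans hD, ?_⟩
    rw [Metric.dense_iff]
    intro x r hr
    obtain ⟨f, hf⟩ := hdense.exists_dist_lt x (half_pos hr)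
    obtain ⟨d, hd, h1⟩ := hDd f (r / 2) (half_pos hr)
    refine ⟨ContinuousMap.toLp 1 μ ℝ d, ?_, ⟨d, hd, rfl⟩⟩
    rw [Metric.mem_ball, dist_comm]
    rw [← hnorm, ← dist_eq_norm] at h1
    have h2 := dist_triangle x (ContinuousMap.toLp 1 μ ℝ f : Lp ℝ 1 μ)
      (ContinuousMap.toLp 1 μ ℝ d)
    linarith
  · rintro ⟨D, hD, hDd⟩
    have hex : ∀ (x : Lp ℝ 1 μ) (n : ℕ), ∃ f : C(K, ℝ),
        dist x (ContinuousMap.toLp 1 μ ℝ f) < 1 / ((n : ℝ) + 1) := fun x n =>
      hdense.exists_dist_lt x (by positivity)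
    choose q hq using hex
    refine ⟨Set.range fun z : D × ℕ => q z.1 z.2, ?_, fun f ε hε => ?_⟩
    · refine Cardinal.mk_range_le.trans ?_
      rw [Cardinal.mk_prod]
      refine Cardinal.mul_le_of_le hκ ?_ ?_
      · simpa using hD
      · simpa using hκ
    · obtain ⟨x, hx1, hx2⟩ := (Metric.dense_iff.1 hDd)
        (ContinuousMap.toLp 1 μ ℝ f : Lp ℝ 1 μ) (ε / 2) (half_pos hε)
      obtain ⟨n, hn⟩ := exists_nat_one_div_lt (half_pos hε)
      refine ⟨q x n, ⟨(⟨x, hx2⟩, n), rfl⟩, ?_⟩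
      rw [← hnorm, ← dist_eq_norm]
      rw [Metric.mem_ball, dist_comm] at hx1
      have h2 := dist_triangle (ContinuousMap.toLp 1 μ ℝ f : Lp ℝ 1 μ) x
        (ContinuousMap.toLp 1 μ ℝ (q x n))
      have h3 := hq x n
      linarith

theorem typeLE_of_mTypeLE (hκ : ℵ₀ ≤ κ) (μ : Measure K) [IsProbabilityMeasure μ] [μ.Regular]
    (φ : Prob K) (hφ : ∀ f : C(K, ℝ), φ.1 f = ∫ x, f x ∂μ) (h : MTypeLE κ μ) : TypeLE κ φ :=
  (typeLE_iff_densLE hκ μ φ hφ).2 (link_densLE_of_mTypeLE hκ μ h)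

theorem link_mTypeLE_of_smul {X : Type u} [MeasurableSpace X] {μ : Measure X} {c : ENNReal}
    (hc0 : c ≠ 0) (hc : c ≠ ⊤) (h : MTypeLE κ (c • μ)) : MTypeLE κ μ := by
  obtain ⟨𝒜, h𝒜, hd⟩ := h
  refine ⟨𝒜, h𝒜, ⟨hd.measurable, fun s hs hμs ε hε => ?_⟩⟩
  have hc1 : 0 < c.toReal := ENNReal.toReal_pos hc0 hc
  obtain ⟨t, ht, h1⟩ := hd.approx s hs (by
    rw [Measure.smul_apply, smul_eq_mul]
    exact ENNReal.mul_ne_top hc hμs) (c.toReal * ε) (by positivity)
  refine ⟨t, ht, ?_⟩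
  rw [Measure.smul_apply, smul_eq_mul, ENNReal.ofReal_mul hc1.le, ENNReal.ofReal_toReal hc] at h1
  exact (ENNReal.mul_lt_mul_iff_right hc0 hc).1 h1

theorem exists_fairSigns_of_not_typeLE (hκ : ℵ₀ ≤ κ) (φ : Prob K) (h : ¬ TypeLE κ φ) :
    ∃ (μ : Measure K) (I : Type u) (A : I → Set K),
      IsProbabilityMeasure μ ∧ μ.Regular ∧ κ < #I ∧ FairSigns μ A := by
  obtain ⟨ν, hν1, hν2, hν⟩ := exists_measure φ
  have h1 : ¬ MTypeLE κ ν := fun h2 => h (typeLE_of_mTypeLE hκ ν φ hν h2)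
  obtain ⟨E, hE, hE0, hE1⟩ := exists_nowhere hκ ν h1
  have hc0 : (ν E)⁻¹ ≠ 0 := ENNReal.inv_ne_zero.2 (measure_ne_top ν E)
  have hc : (ν E)⁻¹ ≠ ⊤ := ENNReal.inv_ne_top.2 hE0
  have hprob : IsProbabilityMeasure ((ν E)⁻¹ • ν.restrict E) := by
    refine ⟨?_⟩
    rw [Measure.smul_apply, Measure.restrict_apply MeasurableSet.univ, Set.univ_inter,
      smul_eq_mul]
    exact ENNReal.inv_mul_cancel hE0 (measure_ne_top ν E)
  have hreg : ((ν E)⁻¹ • ν.restrict E).Regular := by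
    have : (ν.restrict E).Regular := Measure.Regular.restrict_of_measure_ne_top (measure_ne_top ν E)
    exact Measure.Regular.smul hc
  obtain ⟨I, A, hI, hA⟩ := exists_fairSigns hκ ((ν E)⁻¹ • ν.restrict E) (by
    intro F hF hF0 h2
    rw [Measure.restrict_smul, Measure.restrict_restrict hF] at h2
    refine hE1 (F ∩ E) Set.inter_subset_right (hF.inter hE) ?_ (link_mTypeLE_of_smul hc0 hc h2)
    intro h3
    apply hF0
    rw [Measure.smul_apply, Measure.restrict_apply hF, h3, smul_zero])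
  exact ⟨_, I, A, hprob, hreg, hI, hA⟩

end LINK

end Pool.Agent.Lib.MP_177f07_gt
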