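import Mathlib
import Pool.Agent.Lib.MP_177f07_gt.Defs

set_option autoImplicit false

/-!
# Maharam's lemma: a set with conditional probability one half

`maharam_half`: if `m ≤ m0` and every set `F` of positive measure has a measurable subset which is
not of the form `F ∩ B`, `B ∈ m`, up to null sets, then some `A` satisfies `μ (A ∩ B) = μ B / 2`
for all `B ∈ m`.
-/

open MeasureTheory Set

namespace Pool.Agent.Lib.MP_177f07_gt

universe u

/-- The Hahn decomposition of two finite measures with respect to a smaller sigma algebra. -/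
theorem mah_hahn {X : Type u} {m m0 : MeasurableSpace X} (hm : m ≤ m0)
    (μ ν : @Measure X m0) [IsFiniteMeasure μ] [IsFiniteMeasure ν] :
    ∃ s, MeasurableSet[m] s ∧ (∀ t, MeasurableSet[m] t → t ⊆ s → ν t ≤ μ t) ∧
      ∀ t, MeasurableSet[m] t → t ⊆ sᶜ → μ t ≤ ν t := by
  obtain ⟨s, hs, h1, h2⟩ := @hahn_decomposition X m (μ.trim hm) (ν.trim hm) _ _
  refine ⟨s, hs, fun t ht hts => ?_, fun t ht hts => ?_⟩
  · have h3 := h1 t ht hts
    rwa [trim_measurableSet_eq hm ht, trim_measurableSet_eq hm ht] at h3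
  · have h3 := h2 t ht hts
    rwa [trim_measurableSet_eq hm ht, trim_measurableSet_eq hm ht] at h3

/-- One halving step. -/
theorem mah_split {X : Type u} {m m0 : MeasurableSpace X} (hm : m ≤ m0)
    (μ : @Measure X m0) [IsFiniteMeasure μ] {F F' : Set X} (hF : MeasurableSet[m0] F)
    (hF' : MeasurableSet[m0] F') (hs : F' ⊆ F) :
    ∃ B, MeasurableSet[m] B ∧ ∀ C, MeasurableSet[m] C →
      2 * μ.real (symmDiff F' (F ∩ B) ∩ C) ≤ μ.real (F ∩ C) := by
  obtain ⟨B, hB, h1, h2⟩ := mah_hahn hm (μ.restrict F') (μ.restrict (F \ F'))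
  refine ⟨B, hB, fun C hC => ?_⟩
  have hB0 := hm _ hB
  have hC0 := hm _ hC
  have e1 : μ ((F \ F') ∩ (B ∩ C)) ≤ μ (F' ∩ (B ∩ C)) := by
    have h3 := h1 (B ∩ C) (@MeasurableSet.inter X m _ _ hB hC) inter_subset_left
    rwa [Measure.restrict_apply (hB0.inter hC0), Measure.restrict_apply (hB0.inter hC0),
      inter_comm, inter_comm (B ∩ C)] at h3
  have e2 : μ (F' ∩ (C \ B)) ≤ μ ((F \ F') ∩ (C \ B)) := by
    have h3 := h2 (C \ B) (@MeasurableSet.diff X m _ _ hC hB) (fun x hx => hx.2)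
    rwa [Measure.restrict_apply (hC0.diff hB0), Measure.restrict_apply (hC0.diff hB0),
      inter_comm, inter_comm (C \ B)] at h3
  have e1' : μ.real ((F \ F') ∩ (B ∩ C)) ≤ μ.real (F' ∩ (B ∩ C)) :=
    ENNReal.toReal_mono (measure_ne_top _ _) e1
  have e2' : μ.real (F' ∩ (C \ B)) ≤ μ.real ((F \ F') ∩ (C \ B)) :=
    ENNReal.toReal_mono (measure_ne_top _ _) e2
  have d1 : symmDiff F' (F ∩ B) ∩ C = (F' ∩ (C \ B)) ∪ ((F \ F') ∩ (B ∩ C)) := by
    ext x
    simp only [mem_inter_iff, mem_union, mem_sdiff, Set.mem_symmDiff]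
    have := @hs x
    tauto
  have d2 : F ∩ C = ((F' ∩ (C \ B)) ∪ ((F \ F') ∩ (C \ B))) ∪
      ((F' ∩ (B ∩ C)) ∪ ((F \ F') ∩ (B ∩ C))) := by
    ext x
    simp only [mem_inter_iff, mem_union, mem_sdiff]
    have := @hs x
    tauto
  have m1 : MeasurableSet ((F \ F') ∩ (B ∩ C)) := (hF.diff hF').inter (hB0.inter hC0)
  have m2 : MeasurableSet ((F \ F') ∩ (C \ B)) := (hF.diff hF').inter (hC0.diff hB0)
  have m3 : MeasurableSet (F' ∩ (B ∩ C)) := hF'.inter (hB0.inter hC0)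
  rw [d1, d2, measureReal_union _ m1, measureReal_union _ (m3.union m1), measureReal_union _ m2,
    measureReal_union _ m1]
  · linarith
  · refine Set.disjoint_left.mpr fun x hx hx' => hx'.1.2 hx.1
  · refine Set.disjoint_left.mpr fun x hx hx' => hx'.1.2 hx.1
  · refine Set.disjoint_left.mpr fun x hx hx' => ?_
    rcases hx with hx | hx <;> rcases hx' with hx' | hx'
    · exact hx.2.2 hx'.2.1
    · exact hx.2.2 hx'.2.1
    · exact hx.2.2 hx'.2.1
    · exact hx.2.2 hx'.2.1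
  · refine Set.disjoint_left.mpr fun x hx hx' => hx'.1.2 hx.1

/-- Iterated halving. -/
theorem mah_iter {X : Type u} {m m0 : MeasurableSpace X} (hm : m ≤ m0)
    (μ : @Measure X m0) [IsFiniteMeasure μ]
    (h : ∀ F, MeasurableSet[m0] F → μ F ≠ 0 → ∃ F' ⊆ F, MeasurableSet[m0] F' ∧
      ∀ B, MeasurableSet[m] B → μ (symmDiff F' (F ∩ B)) ≠ 0) (n : ℕ) :
    ∀ F, MeasurableSet[m0] F → μ F ≠ 0 → ∃ H ⊆ F, MeasurableSet[m0] H ∧ μ H ≠ 0 ∧
      ∀ C, MeasurableSet[m] C → 2 ^ n * μ.real (H ∩ C) ≤ μ.real (F ∩ C) := by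
  induction n with
  | zero =>
    intro F hF hF0
    exact ⟨F, subset_rfl, hF, hF0, fun C _ => by simp⟩
  | succ n ih =>
    intro F hF hF0
    obtain ⟨H, hHF, hH, hH0, h1⟩ := ih F hF hF0
    obtain ⟨F', hF'H, hF', h2⟩ := h H hH hH0
    obtain ⟨B, hB, h3⟩ := mah_split hm μ hH hF' hF'H
    refine ⟨symmDiff F' (H ∩ B), ?_, ?_, h2 B hB, fun C hC => ?_⟩
    · intro x hx
      rcases (Set.mem_symmDiff).mp hx with hx | hx
      · exact hHF (hF'H hx.1)
      · exact hHF hx.1.1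
    · exact (hF'.diff (hH.inter (hm _ hB))).union ((hH.inter (hm _ hB)).diff hF')
    · have h4 := h1 C hC
      have h5 := h3 C hC
      have h6 : (0 : ℝ) < 2 ^ n := by positivity
      calc (2 : ℝ) ^ (n + 1) * μ.real (symmDiff F' (H ∩ B) ∩ C)
          = 2 ^ n * (2 * μ.real (symmDiff F' (H ∩ B) ∩ C)) := by ring
        _ ≤ 2 ^ n * μ.real (H ∩ C) := mul_le_mul_of_nonneg_left h5 h6.le
        _ ≤ μ.real (F ∩ C) := h4

/-- Exhaustion. -/
theorem mah_exhaust {X : Type u} [MeasurableSpace X] (μ : Measure X) [IsFiniteMeasure μ]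
    (P : Set X → Prop) (h0 : P ∅)
    (hP : ∀ A : ℕ → Set X, Monotone A → (∀ n, P (A n)) → P (⋃ n, A n)) :
    ∃ A, P A ∧ ∀ A', A ⊆ A' → P A' → μ.real A' ≤ μ.real A := by
  have step : ∀ (n : ℕ) (A : {A : Set X // P A}), ∃ A' : {A : Set X // P A}, A.1 ⊆ A'.1 ∧
      ∀ A'', A.1 ⊆ A'' → P A'' → μ.real A'' ≤ μ.real A'.1 + 1 / (n + 1) := by
    intro n A
    let S : Set ℝ := μ.real '' {A'' | A.1 ⊆ A'' ∧ P A''}
    have hne : S.Nonempty := ⟨μ.real A.1, A.1, ⟨subset_rfl, A.2⟩, rfl⟩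
    have hbd : BddAbove S := ⟨μ.real univ, by
      rintro _ ⟨A'', -, rfl⟩
      exact measureReal_mono (subset_univ _)⟩
    have hpos : (0 : ℝ) < 1 / (n + 1) := by positivity
    obtain ⟨_, ⟨A', ⟨h1, h2⟩, rfl⟩, h3⟩ := exists_lt_of_lt_csSup hne (sub_lt_self (sSup S) hpos)
    refine ⟨⟨A', h2⟩, h1, fun A'' h4 h5 => ?_⟩
    have h6 : μ.real A'' ≤ sSup S := le_csSup hbd ⟨A'', ⟨h4, h5⟩, rfl⟩
    show μ.real A'' ≤ μ.real A' + 1 / (n + 1)
    linarith
  choose next hn1 hn2 using step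
  let A : ℕ → {A : Set X // P A} := fun n => Nat.rec (motive := fun _ => {A : Set X // P A})
    ⟨∅, h0⟩ next n
  have hA : ∀ n, A (n + 1) = next n (A n) := fun n => rfl
  have hmono : Monotone fun n => (A n).1 := monotone_nat_of_le_succ fun n => by
    rw [hA]
    exact hn1 n (A n)
  refine ⟨⋃ n, (A n).1, hP _ hmono fun n => (A n).2, fun A' h1 h2 => ?_⟩
  have h3 : ∀ n : ℕ, μ.real A' ≤ μ.real (⋃ n, (A n).1) + 1 / (n + 1) := by
    intro n
    have h4 := hn2 n (A n) A' ((subset_iUnion (fun n => (A n).1) n).trans h1) h2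
    rw [← hA] at h4
    have h5 : μ.real (A (n + 1)).1 ≤ μ.real (⋃ n, (A n).1) :=
      measureReal_mono (subset_iUnion (fun n => (A n).1) (n + 1))
    linarith
  refine le_of_forall_pos_le_add fun ε hε => ?_
  obtain ⟨n, hn⟩ := exists_nat_one_div_lt hε
  linarith [h3 n]

/-- **Maharam's lemma**. -/
theorem maharam_half {X : Type u} {m m0 : MeasurableSpace X} (hm : m ≤ m0)
    (μ : @Measure X m0) [IsProbabilityMeasure μ]
    (h : ∀ F, MeasurableSet[m0] F → μ F ≠ 0 → ∃ F' ⊆ F, MeasurableSet[m0] F' ∧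
      ∀ B, MeasurableSet[m] B → μ (symmDiff F' (F ∩ B)) ≠ 0) :
    ∃ A, MeasurableSet[m0] A ∧ ∀ B, MeasurableSet[m] B → μ (A ∩ B) = μ B / 2 := by
  obtain ⟨A, ⟨hA, hA2⟩, hmax⟩ := mah_exhaust μ
    (fun A => MeasurableSet[m0] A ∧ ∀ C, MeasurableSet[m] C → 2 * μ (A ∩ C) ≤ μ C)
    ⟨MeasurableSet.empty, fun C _ => by simp⟩ (by
      intro A hmono hA
      refine ⟨MeasurableSet.iUnion fun n => (hA n).1, fun C hC => ?_⟩
      rw [iUnion_inter, Monotone.measure_iUnion
        (fun i j hij => inter_subset_inter_left C (hmono hij)), ENNReal.mul_iSup]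
      exact iSup_le fun n => (hA n).2 C hC)
  refine ⟨A, hA, fun B hB => ?_⟩
  have hreal : ∀ C, MeasurableSet[m] C → 2 * μ.real (A ∩ C) ≤ μ.real C := by
    intro C hC
    have h1 := ENNReal.toReal_mono (measure_ne_top μ C) (hA2 C hC)
    rwa [ENNReal.toReal_mul] at h1
  by_contra hne
  have hlt : 2 * μ.real (A ∩ B) < μ.real B := by
    refine lt_of_le_of_ne (hreal B hB) fun heq => hne ?_
    rw [ENNReal.eq_div_iff (by norm_num) (by norm_num)]
    rw [← ENNReal.toReal_eq_toReal_iff' (by finiteness) (by finiteness), ENNReal.toReal_mul]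
    exact heq
  -- choose `n`
  obtain ⟨n, hn⟩ : ∃ n : ℕ, 2 * μ.real (A ∩ B) + 2 * ((1 / 2) ^ n * μ.real B) < μ.real B := by
    have h1 : Filter.Tendsto (fun n : ℕ => 2 * μ.real (A ∩ B) + 2 * ((1 / 2 : ℝ) ^ n * μ.real B))
        Filter.atTop (nhds (2 * μ.real (A ∩ B) + 2 * (0 * μ.real B))) :=
      ((((tendsto_pow_atTop_nhds_zero_of_lt_one (by norm_num) (by norm_num)).mul_const
        (μ.real B)).const_mul 2).const_add _)
    rw [zero_mul, mul_zero, add_zero] at h1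
    exact (h1.eventually_lt_const hlt).exists
  -- the Hahn decomposition
  obtain ⟨s, hs, hs1, hs2⟩ := mah_hahn hm (μ)
    ((2 : NNReal) • μ.restrict A + (2 * (1 / 2) ^ n : NNReal) • μ)
  have ev : ∀ t, MeasurableSet t →
      ((2 : NNReal) • μ.restrict A + (2 * (1 / 2) ^ n : NNReal) • μ).real t =
        2 * μ.real (A ∩ t) + 2 * ((1 / 2) ^ n * μ.real t) := by
    intro t ht
    rw [measureReal_add_apply, measureReal_nnreal_smul_apply, measureReal_nnreal_smul_apply,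
      measureReal_restrict_apply ht, inter_comm t A]
    push_cast
    ring
  have hs1' : ∀ t, MeasurableSet[m] t → t ⊆ s →
      2 * μ.real (A ∩ t) + 2 * ((1 / 2) ^ n * μ.real t) ≤ μ.real t := by
    intro t ht hts
    rw [← ev t (hm _ ht)]
    exact ENNReal.toReal_mono (measure_ne_top _ _) (hs1 t ht hts)
  have hs2' : ∀ t, MeasurableSet[m] t → t ⊆ sᶜ →
      μ.real t ≤ 2 * μ.real (A ∩ t) + 2 * ((1 / 2) ^ n * μ.real t) := by
    intro t ht hts
    rw [← ev t (hm _ ht)]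
    exact ENNReal.toReal_mono (measure_ne_top _ _) (hs2 t ht hts)
  have hB0 := hm _ hB
  have hs0 := hm _ hs
  have hBs : MeasurableSet[m] (B ∩ s) := @MeasurableSet.inter X m _ _ hB hs
  have hBs' : MeasurableSet[m] (B \ s) := @MeasurableSet.diff X m _ _ hB hs
  have hB1 : 0 < μ.real (B ∩ s) := by
    by_contra hz
    have hz' : μ.real (B ∩ s) = 0 := le_antisymm (not_lt.mp hz) measureReal_nonneg
    have h1 := hs2' (B \ s) hBs' (fun x hx => hx.2)
    have h2 : μ.real (B ∩ s) + μ.real (B \ s) = μ.real B := measureReal_inter_add_sdiff hs0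
    have h3 : μ.real (A ∩ (B \ s)) ≤ μ.real (A ∩ B) :=
      measureReal_mono (inter_subset_inter_right _ sdiff_subset)
    have h4 : μ.real (B \ s) = μ.real B := by linarith
    rw [h4] at h1
    linarith
  -- the set to be added
  have hF0 : μ ((B ∩ s) \ A) ≠ 0 := by
    intro hz
    have h1 : μ.real ((B ∩ s) ∩ A) + μ.real ((B ∩ s) \ A) = μ.real (B ∩ s) :=
      measureReal_inter_add_sdiff hA
    have h2 : μ.real ((B ∩ s) \ A) = 0 := by simp [Measure.real, hz]
    have h3 := hreal (B ∩ s) hBs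
    rw [inter_comm] at h3
    linarith
  obtain ⟨H, hHF, hH, hH0, hH1⟩ := mah_iter hm μ h n ((B ∩ s) \ A)
    ((hB0.inter hs0).diff hA) hF0
  have hdis : Disjoint A H := Set.disjoint_left.mpr fun x hx hx' => (hHF hx').2 hx
  have hle := hmax (A ∪ H) subset_union_left ⟨hA.union hH, fun C hC => ?_⟩
  · rw [measureReal_union hdis hH] at hle
    have h1 : μ.real H ≤ 0 := by linarith
    have h2 : μ.real H = 0 := le_antisymm h1 measureReal_nonneg
    exact hH0 ((measureReal_eq_zero_iff).mp h2)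
  · have hC0 := hm _ hC
    suffices hsuf : 2 * μ.real ((A ∪ H) ∩ C) ≤ μ.real C by
      rw [← ENNReal.toReal_le_toReal (by finiteness) (by finiteness), ENNReal.toReal_mul]
      exact hsuf
    have hCB : MeasurableSet[m] (C ∩ (B ∩ s)) := @MeasurableSet.inter X m _ _ hC hBs
    have hCB' : MeasurableSet[m] (C \ (B ∩ s)) := @MeasurableSet.diff X m _ _ hC hBs
    have h1 := hs1' (C ∩ (B ∩ s)) hCB (fun x hx => hx.2.2)
    have h2 := hreal (C \ (B ∩ s)) hCB'
    have h3 : μ.real (C ∩ (B ∩ s)) + μ.real (C \ (B ∩ s)) = μ.real C :=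
      measureReal_inter_add_sdiff (hB0.inter hs0)
    have h4 : μ.real ((A ∩ C) ∩ (B ∩ s)) + μ.real ((A ∩ C) \ (B ∩ s)) = μ.real (A ∩ C) :=
      measureReal_inter_add_sdiff (hB0.inter hs0)
    have h5 : (A ∪ H) ∩ C = (A ∩ C) ∪ (H ∩ C) := union_inter_distrib_right _ _ _
    have h6 : Disjoint (A ∩ C) (H ∩ C) :=
      hdis.mono inter_subset_left inter_subset_left
    have h7 := hH1 (C ∩ (B ∩ s)) hCB
    have h8 : H ∩ (C ∩ (B ∩ s)) = H ∩ C := by
      ext x
      constructor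
      · exact fun hx => ⟨hx.1, hx.2.1⟩
      · exact fun hx => ⟨hx.1, hx.2, (hHF hx.1).1⟩
    have h9 : μ.real (((B ∩ s) \ A) ∩ (C ∩ (B ∩ s))) ≤ μ.real (C ∩ (B ∩ s)) :=
      measureReal_mono inter_subset_right
    rw [h8] at h7
    have h10 : μ.real (H ∩ C) ≤ (1 / 2) ^ n * μ.real (C ∩ (B ∩ s)) := by
      have h11 : (0 : ℝ) < 2 ^ n := by positivity
      rw [one_div, inv_pow, ← div_eq_inv_mul, le_div_iff₀ h11, mul_comm]
      exact h7.trans h9
    rw [h5, measureReal_union h6 (hH.inter hC0)]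
    rw [inter_assoc] at h4
    have h12 : (A ∩ C) \ (B ∩ s) = A ∩ (C \ (B ∩ s)) := by
      rw [inter_sdiff_assoc]
    rw [h12] at h4
    linarith

end Pool.Agent.Lib.MP_177f07_gt
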