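import Pool.Agent.Lib.MP_177f07_gt.Coup
import Pool.Agent.Lib.MP_177f07_gt.Free

/-!
TAL: for uncountable `κ` a family of more than `κ` fair signs makes `Prob K` not `κ`-tight.
-/

set_option autoImplicit false
set_option linter.unusedSectionVars false

open scoped Cardinal
open MeasureTheory

namespace Pool.Agent.Lib.MP_177f07_gt

universe u

variable {K I : Type u} [TopologicalSpace K] [CompactSpace K] [T2Space K] [MeasurableSpace K]
  [BorelSpace K] {μ : Measure K} [IsProbabilityMeasure μ] {A : I → Set K}

/-- The Riesz product functional of a finite set of indices. -/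
noncomputable def rp (hA : FairSigns μ A) (F : Finset I) : C(K, ℝ) →ₗ[ℝ] ℝ :=
  ∑ G ∈ F.powerset, (walInt hA G).toLinearMap

theorem rp_apply (hA : FairSigns μ A) (F : Finset I) (f : C(K, ℝ)) :
    rp hA F f = ∑ G ∈ F.powerset, hat μ A f G := by
  unfold rp
  rw [LinearMap.sum_apply]
  rfl

theorem rp_nonneg (hA : FairSigns μ A) (F : Finset I) (f : C(K, ℝ)) (hf : 0 ≤ f) :
    0 ≤ rp hA F f := by
  rw [rp_apply]
  unfold hat
  have h1 : ∀ G ∈ F.powerset, Integrable (fun x => f x * wal A G x) μ :=
    fun G _ => integrable_mul_wal hA f G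
  rw [← integral_finsetSum _ h1]
  refine integral_nonneg fun x => ?_
  simp only
  rw [← Finset.mul_sum, sum_powerset_wal]
  exact mul_nonneg (hf x) (Finset.prod_nonneg fun i _ => one_add_sgn_nonneg _ _)

theorem rp_one (hA : FairSigns μ A) (F : Finset I) : rp hA F 1 = 1 := by
  classical
  rw [rp_apply]
  have h2 : ∀ G : Finset I, hat μ A (fun x => (1 : C(K, ℝ)) x) G = if G = ∅ then 1 else 0 := by
    intro G
    have := hA.integral_wal_mul ∅ G
    simp only [wal_empty, one_mul] at this
    unfold hat
    simp only [ContinuousMap.one_apply, one_mul]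
    rw [this]
    simp [eq_comm]
  simp_rw [h2]
  simp

/-- A subfamily of a family of fair signs. -/
theorem FairSigns.sub {X : Type u} [MeasurableSpace X] {μ : Measure X} {I J : Type u}
    {A : I → Set X} (hA : FairSigns μ A) (e : J ↪ I) : FairSigns μ (fun j => A (e j)) := by
  refine ⟨fun j => hA.1 _, fun F hF => ?_⟩
  have := hA.2 (F.map e) (by simpa using hF)
  simpa [Finset.prod_map] using this

theorem hat_sub_family {X : Type u} [MeasurableSpace X] {μ : Measure X} {I J : Type u}
    (A : I → Set X) (e : J ↪ I) (f : X → ℝ) (G : Finset J) :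
    hat μ (fun j => A (e j)) f G = hat μ A f (G.map e) := by
  unfold hat wal
  simp [Finset.prod_map]

theorem not_tightLE_of_fairSigns {κ : Cardinal.{u}} (hκ : ℵ₁ ≤ κ) (μ : Measure K)
    [IsProbabilityMeasure μ] [μ.Regular] {I : Type u} (hI : κ < #I) (A : I → Set K)
    (hA : FairSigns μ A) : ¬ TightLE κ (Prob K) := by
  classical
  have hκ0 : ℵ₀ ≤ κ := (Cardinal.aleph0_le_aleph 1).trans hκ
  choose g hg using fun i => exists_approx_sgn μ (hA.1 i) (by norm_num : (0 : ℝ) < 1 / 10)
  set S : I → Set I := fun i => ⋃ G ∈ {G : Finset I | hat μ A (g i) G ≠ 0}, (G : Set I) with hS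
  have hSc : ∀ i, (S i).Countable := fun i =>
    (hA.countable_support (memLp_continuous μ (g i) 2)).biUnion fun G _ => G.countable_toSet
  obtain ⟨X, hX, hfree⟩ := exists_free hκ hI S hSc
  have hA' : FairSigns μ (fun j : X => A (j : I)) := hA.sub (Function.Embedding.subtype _)
  choose z hz using fun F : Finset X => Prob.exists_of_linear (rp hA' F) (rp_nonneg hA' F)
    (rp_one hA' F)
  have hhat : ∀ (i : X) (G : Finset X), G ≠ ∅ → G ≠ {i} →
      hat μ (fun j : X => A (j : I)) (g i) G = 0 := by
    intro i G h1 h2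
    have h3 := hat_sub_family (μ := μ) A (Function.Embedding.subtype (· ∈ X)) (g i) G
    change hat μ (fun j : X => A (j : I)) (g i) G = _ at h3
    rw [h3]
    by_contra h4
    have h5 : ∀ j ∈ G, j = i := by
      intro j hj
      by_contra h6
      refine hfree i i.2 j j.2 (fun h7 => h6 (Subtype.ext h7.symm)) ?_
      rw [hS]
      simp only [Set.mem_iUnion]
      exact ⟨_, h4, by simpa using hj⟩
    apply h2
    ext j
    constructor
    · intro hj
      simpa using h5 j hj
    · intro hj
      obtain ⟨k, hk⟩ := Finset.nonempty_iff_ne_empty.2 h1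
      have := h5 k hk
      rw [Finset.mem_singleton] at hj
      rw [hj, ← this]
      exact hk
  have hval : ∀ (i : X) (F : Finset X), (z F).1 (g i) =
      hat μ (fun j : X => A (j : I)) (g i) ∅ +
        if i ∈ F then hat μ (fun j : X => A (j : I)) (g i) {i} else 0 := by
    intro i F
    rw [hz, rp_apply]
    have h1 : ∀ G ∈ F.powerset, hat μ (fun j : X => A (j : I)) (g i) G =
        (if G = ∅ then hat μ (fun j : X => A (j : I)) (g i) ∅ else 0) +
        (if G = {i} then hat μ (fun j : X => A (j : I)) (g i) {i} else 0) := by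
      intro G _
      by_cases h2 : G = ∅
      · subst h2
        simp
      · by_cases h3 : G = {i}
        · subst h3
          simp
        · rw [if_neg h2, if_neg h3, hhat i G h2 h3, add_zero]
    rw [Finset.sum_congr rfl h1, Finset.sum_add_distrib, Finset.sum_ite_eq', Finset.sum_ite_eq',
      if_pos (Finset.empty_mem_powerset F)]
    simp
  have hpos : ∀ i : X, 0 < hat μ (fun j : X => A (j : I)) (g i) {i} := by
    intro i
    have hs : MemLp (fun x => g i x - sgn (A i) x) 2 μ :=
      (memLp_continuous μ (g i) 2).sub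
        (MemLp.of_bound (measurable_sgn (hA.1 i)).aestronglyMeasurable 1
        (Filter.Eventually.of_forall fun x => by rw [Real.norm_eq_abs, abs_sgn]))
    have h1 := hat_sub hA' i (g i) {i}
    rw [hat_sgn hA' i {i}, if_pos rfl] at h1
    have h2 := hA'.abs_hat_le hs (by norm_num : (0 : ℝ) ≤ 1 / 10) (hg i) {i}
    rw [abs_le] at h2
    rw [h1]
    have h3 := h2.1
    change 0 < 1 + hat μ (fun j : X => A (j : I)) (fun x => g i x - sgn (A i) x) {i}
    linarith
  refine not_tightLE_of_net hκ0 hX z (fun i l => l.1 (g i)) ?_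
    (fun i => hat μ (fun j : X => A (j : I)) (g i) ∅)
    (fun i => hat μ (fun j : X => A (j : I)) (g i) ∅ +
      hat μ (fun j : X => A (j : I)) (g i) {i}) ?_ ?_ ?_
  · intro i
    exact (WeakDual.eval_continuous (g i)).comp continuous_subtype_val
  · intro i
    have := hpos i
    linarith
  · intro i F hi
    simp only [hval, if_pos hi]
    exact le_rfl
  · intro i F hi
    simp only [hval, if_neg hi]
    simp

end Pool.Agent.Lib.MP_177f07_gt
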