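import Pool.Agent.Lib.MP_177f07_gt.Fib
import Pool.Agent.Lib.MP_177f07_gt.Link
import Pool.Agent.Lib.MP_177f07_gt.Coup
import Pool.Agent.Lib.MP_177f07_gt.Tal

/-!
Assembly: the tightness of `Prob (K × L)`.
-/

set_option autoImplicit false
set_option linter.unusedSectionVars false

open scoped Cardinal
open MeasureTheory

namespace Pool.Agent.Lib.MP_177f07_gt

universe u

variable {κ : Cardinal.{u}}

section MAIN

variable {K L : Type u} [TopologicalSpace K] [CompactSpace K] [T2Space K]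
  [TopologicalSpace L] [CompactSpace L] [T2Space L]

theorem push_fst_surjective [Nonempty L] :
    Function.Surjective (push (ContinuousMap.fst : C(K × L, K)) : Prob (K × L) → Prob K) := by
  intro φ
  obtain ⟨ψ⟩ := (inferInstance : Nonempty (Prob L))
  obtain ⟨l, hl, -⟩ := exists_prod φ ψ
  exact ⟨l, congrArg Prod.fst hl⟩

theorem push_snd_surjective [Nonempty K] :
    Function.Surjective (push (ContinuousMap.snd : C(K × L, L)) : Prob (K × L) → Prob L) := by
  intro ψ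
  obtain ⟨φ⟩ := (inferInstance : Nonempty (Prob K))
  obtain ⟨l, hl, -⟩ := exists_prod φ ψ
  exact ⟨l, congrArg Prod.snd hl⟩

theorem tightLE_fst [Nonempty L] (h : TightLE κ (Prob (K × L))) : TightLE κ (Prob K) :=
  tightLE_of_surjective (continuous_push _) push_fst_surjective h

theorem tightLE_snd [Nonempty K] (h : TightLE κ (Prob (K × L))) : TightLE κ (Prob L) :=
  tightLE_of_surjective (continuous_push _) push_snd_surjective h

theorem typeLE_or (hκ : ℵ₀ ≤ κ) (h : TightLE κ (Prob (K × L))) :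
    (∀ φ : Prob K, TypeLE κ φ) ∨ (∀ ψ : Prob L, TypeLE κ ψ) := by
  by_contra hcon
  push Not at hcon
  obtain ⟨⟨φ, hφ⟩, ⟨ψ, hψ⟩⟩ := hcon
  letI : MeasurableSpace K := borel K
  letI : MeasurableSpace L := borel L
  haveI : BorelSpace K := ⟨rfl⟩
  haveI : BorelSpace L := ⟨rfl⟩
  obtain ⟨μ, I, A, hμ, hμr, hI, hA⟩ := exists_fairSigns_of_not_typeLE hκ φ hφ
  obtain ⟨ν, J, B, hν, hνr, hJ, hB⟩ := exists_fairSigns_of_not_typeLE hκ ψ hψ
  obtain ⟨e⟩ : Nonempty ((Order.succ κ).out ↪ I) := by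
    rw [← Cardinal.le_def, Cardinal.mk_out]
    exact Order.succ_le_of_lt hI
  obtain ⟨e'⟩ : Nonempty ((Order.succ κ).out ↪ J) := by
    rw [← Cardinal.le_def, Cardinal.mk_out]
    exact Order.succ_le_of_lt hJ
  refine not_tightLE_prod hκ μ ν (I := (Order.succ κ).out) ?_ (fun i => A (e i))
    (fun i => B (e' i)) (hA.sub e) (hB.sub e') h
  rw [Cardinal.mk_out]
  exact Order.lt_succ κ

/-- The tightness of `Prob (K × L)` (all infinite `κ`). -/
theorem main_prod [Nonempty K] [Nonempty L] (hκ : ℵ₀ ≤ κ) :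
    TightLE κ (Prob (K × L)) ↔ TightLE κ (Prob K) ∧ TightLE κ (Prob L) ∧
      ((∀ φ : Prob K, TypeLE κ φ) ∨ (∀ ψ : Prob L, TypeLE κ ψ)) :=
  ⟨fun h => ⟨tightLE_fst h, tightLE_snd h, typeLE_or hκ h⟩,
    fun h => tightLE_prob_prod hκ h.1 h.2.1 h.2.2⟩

/-- Uncountable tightness bounds the types (Talagrand). -/
theorem typeLE_of_tightLE (hκ : ℵ₁ ≤ κ) (h : TightLE κ (Prob K)) (φ : Prob K) : TypeLE κ φ := by
  by_contra hφ
  letI : MeasurableSpace K := borel K
  haveI : BorelSpace K := ⟨rfl⟩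
  obtain ⟨μ, I, A, hμ, hμr, hI, hA⟩ :=
    exists_fairSigns_of_not_typeLE ((Cardinal.aleph0_le_aleph 1).trans hκ) φ hφ
  exact not_tightLE_of_fairSigns hκ μ hI A hA h

theorem main_uncountable [Nonempty K] [Nonempty L] (hκ : ℵ₁ ≤ κ) :
    TightLE κ (Prob (K × L)) ↔ TightLE κ (Prob K) ∧ TightLE κ (Prob L) :=
  ⟨fun h => ⟨tightLE_fst h, tightLE_snd h⟩,
    fun h => tightLE_prob_prod ((Cardinal.aleph0_le_aleph 1).trans hκ) h.1 h.2
      (Or.inl fun φ => typeLE_of_tightLE hκ h.1 φ)⟩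

end MAIN

end Pool.Agent.Lib.MP_177f07_gt
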