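import Mathlib

/-!
Precalibers of measure algebras, Martin's axiom, and facts on `ω₁`.
-/

set_option autoImplicit false
set_option linter.unusedSectionVars false

open scoped Cardinal Ordinal
open MeasureTheory

namespace Pool.Agent.Lib.MP_177f07_gt

/-- `ω₁` is a precaliber of the measure algebra of `μ`: among uncountably many sets of positive
measure there are uncountably many any finitely many of which meet in a set of positive
measure. -/
def PrecaliberOf {X : Type} [MeasurableSpace X] (μ : Measure X) : Prop :=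
  ∀ (I : Type) (E : I → Set X), Uncountable I → (∀ i, MeasurableSet (E i)) →
    (∀ i, μ (E i) ≠ 0) →
      ∃ J : Set I, ¬ J.Countable ∧ ∀ F : Finset I, (∀ i ∈ F, i ∈ J) → μ (⋂ i ∈ F, E i) ≠ 0

/-- `ω₁` is a precaliber of all measure algebras. -/
def Precaliber : Prop :=
  ∀ (X : Type) [MeasurableSpace X] (μ : Measure X) [IsProbabilityMeasure μ], PrecaliberOf μ

/-- A partial order satisfies the countable chain condition: every set of pairwise incompatible
elements is countable. -/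
def CCC (P : Type) [PartialOrder P] : Prop :=
  ∀ A : Set P, (∀ a ∈ A, ∀ b ∈ A, a ≠ b → ¬ ∃ c, c ≤ a ∧ c ≤ b) → A.Countable

/-- Martin's axiom for `ℵ₁` dense sets. -/
def MartinsAxiom : Prop :=
  ∀ (P : Type) [PartialOrder P] [Nonempty P], CCC P →
    ∀ 𝒟 : Set (Set P), #𝒟 ≤ ℵ₁ → (∀ D ∈ 𝒟, ∀ p : P, ∃ q ∈ D, q ≤ p) →
      ∃ G : Set P, (∀ a ∈ G, ∀ b, a ≤ b → b ∈ G) ∧
        (∀ a ∈ G, ∀ b ∈ G, ∃ c ∈ G, c ≤ a ∧ c ≤ b) ∧ ∀ D ∈ 𝒟, ∃ a ∈ G, a ∈ D

/-- The first uncountable ordinal as a well ordered type. -/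
abbrev W1 : Type := (ω₁ : Ordinal.{0}).ToType

theorem W1_countable_Iio (a : W1) : (Set.Iio a).Countable := by
  have h : Ordinal.typein (α := W1) (· < ·) a < ω₁ := by
    have := Ordinal.typein_lt_type (α := W1) (· < ·) a
    simpa using this
  rw [← Cardinal.le_aleph0_iff_set_countable, ← Order.lt_succ_iff, Cardinal.succ_aleph0]
  have h2 : #(Set.Iio a) = (Ordinal.typein (α := W1) (· < ·) a).card := by
    rfl
  rw [h2]
  rw [← Cardinal.lt_ord]
  simpa using h

theorem W1_countable_Iic (a : W1) : (Set.Iic a).Countable := by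
  have : Set.Iic a = insert a (Set.Iio a) := by
    ext x; simp [le_iff_eq_or_lt]
  rw [this]
  exact (W1_countable_Iio a).insert a

theorem W1_mk : #W1 = ℵ₁ := by simp [W1]

theorem W1_not_countable : ¬ Countable W1 := by
  intro h
  have h2 : #W1 ≤ ℵ₀ := Cardinal.mk_le_aleph0_iff.2 h
  rw [W1_mk] at h2
  exact absurd h2 (not_le.2 Cardinal.aleph0_lt_aleph_one)

instance W1_uncountable : Uncountable W1 := ⟨W1_not_countable⟩

instance W1_nonempty : Nonempty W1 := by
  by_contra h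
  rw [not_nonempty_iff] at h
  exact W1_not_countable inferInstance

/-- Countable sets are strictly bounded. -/
theorem W1_exists_gt {s : Set W1} (hs : s.Countable) : ∃ a, ∀ x ∈ s, x < a := by
  by_contra h
  push Not at h
  have : (Set.univ : Set W1) ⊆ ⋃ x ∈ s, Set.Iic x := by
    intro a _
    obtain ⟨x, hx, hax⟩ := h a
    exact Set.mem_biUnion hx hax
  have h2 : (Set.univ : Set W1).Countable :=
    (hs.biUnion fun x _ => W1_countable_Iic x).mono this
  exact W1_not_countable (Set.countable_univ_iff.1 h2)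

/-- A set unbounded in `ω₁` is uncountable. -/
theorem W1_not_countable_of_unbounded {s : Set W1} (hs : ∀ a, ∃ x ∈ s, a < x) :
    ¬ s.Countable := by
  intro h
  obtain ⟨a, ha⟩ := W1_exists_gt h
  obtain ⟨x, hx, hax⟩ := hs a
  exact absurd (ha x hx) (not_lt.2 hax.le)

theorem W1_unbounded_of_not_countable {s : Set W1} (hs : ¬ s.Countable) (a : W1) :
    ∃ x ∈ s, a < x := by
  by_contra h
  push Not at h
  exact hs ((W1_countable_Iic a).mono fun x hx => h x hx)

section MA

variable {X : Type} [MeasurableSpace X] (μ : Measure X) [IsProbabilityMeasure μ]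

/-- The measurable subsets of `p` of positive measure. -/
structure PosSet (p : Set X) where
  s : Set X
  meas : MeasurableSet s
  pos : μ s ≠ 0
  le : s ⊆ p

theorem PosSet.ext' {p : Set X} {a b : PosSet μ p} (h : a.s = b.s) : a = b := by
  cases a; cases b; congr

instance {p : Set X} : PartialOrder (PosSet μ p) where
  le a b := a.s ⊆ b.s
  le_refl a := subset_rfl
  le_trans a b c h1 h2 := h1.trans h2
  le_antisymm a b h1 h2 := PosSet.ext' μ (Set.Subset.antisymm h1 h2)

theorem PosSet.le_def {p : Set X} (a b : PosSet μ p) : a ≤ b ↔ a.s ⊆ b.s := Iff.rfl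

/-- Almost disjoint positive sets are countably many. -/
theorem countable_of_ae_disjoint {ι : Type} (A : Set ι) (s : ι → Set X)
    (hm : ∀ i ∈ A, MeasurableSet (s i)) (hp : ∀ i ∈ A, μ (s i) ≠ 0)
    (hd : ∀ i ∈ A, ∀ j ∈ A, i ≠ j → μ (s i ∩ s j) = 0) : A.Countable := by
  have h := Measure.countable_meas_pos_of_disjoint_iUnion₀ (μ := μ) (As := fun i : A => s i)
    (fun i => (hm i i.2).nullMeasurableSet) (fun i j hij => by
      exact hd i i.2 j j.2 fun h => hij (Subtype.ext h))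
  have h2 : {i : A | 0 < μ (s i)} = Set.univ := by
    ext i
    simpa using pos_iff_ne_zero.2 (hp i i.2)
  rw [h2] at h
  exact Set.countable_coe_iff.1 (Set.countable_univ_iff.1 h)

theorem PosSet.ccc (p : Set X) : CCC (PosSet μ p) := by
  intro A hA
  refine countable_of_ae_disjoint μ A (fun a => a.s) (fun a _ => a.meas) (fun a _ => a.pos) ?_
  intro a ha b hb hab
  by_contra hne
  exact hA a ha b hb hab ⟨⟨a.s ∩ b.s, a.meas.inter b.meas, hne, Set.inter_subset_left.trans a.le⟩,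
    Set.inter_subset_left, Set.inter_subset_right⟩

/-- Some positive set `p` is met by uncountably many members below every positive subset. -/
theorem exists_good_set (E : W1 → Set X) (hE : ∀ i, MeasurableSet (E i))
    (hp : ∀ i, μ (E i) ≠ 0) :
    ∃ p, MeasurableSet p ∧ μ p ≠ 0 ∧ ∀ q ⊆ p, MeasurableSet q → μ q ≠ 0 → ∀ a : W1,
      ∃ b, a < b ∧ μ (q ∩ E b) ≠ 0 := by
  classical
  by_contra hcon
  push Not at hcon
  -- the bad positive sets
  let B : Set (Set X) := {q | MeasurableSet q ∧ μ q ≠ 0 ∧ ∃ a : W1, ∀ b, a < b → μ (q ∩ E b) = 0}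
  have hB : ∀ p, MeasurableSet p → μ p ≠ 0 → ∃ q ⊆ p, q ∈ B := by
    intro p hp1 hp2
    obtain ⟨q, h1, h2, h3, a, h4⟩ := hcon p hp1 hp2
    exact ⟨q, h1, h2, h3, a, h4⟩
  obtain ⟨M, hM⟩ := zorn_subset {M : Set (Set X) | M ⊆ B ∧
      ∀ a ∈ M, ∀ b ∈ M, a ≠ b → μ (a ∩ b) = 0} (by
    intro c hc hchain
    refine ⟨⋃₀ c, ⟨Set.sUnion_subset fun s hs => (hc hs).1, ?_⟩, fun s hs =>
      Set.subset_sUnion_of_mem hs⟩
    rintro a ⟨s, hs, has⟩ b ⟨t, ht, hbt⟩ hab
    rcases hchain.total hs ht with hst | hts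
    · exact (hc ht).2 a (hst has) b hbt hab
    · exact (hc hs).2 a has b (hts hbt) hab)
  have hMc : M.Countable := by
    refine countable_of_ae_disjoint μ M (fun a => a) (fun a ha => (hM.prop.1 ha).1)
      (fun a ha => (hM.prop.1 ha).2.1) hM.prop.2
  choose! γ hγ using fun (q : Set X) (hq : q ∈ M) => (hM.prop.1 hq).2.2
  obtain ⟨b, hb⟩ := W1_exists_gt (hMc.image γ)
  obtain ⟨q, hqE, hqB⟩ := hB (E b) (hE b) (hp b)
  have hq0 : ∀ a ∈ M, μ (q ∩ a) = 0 := by
    intro a ha
    have h1 := hγ a ha b (hb _ ⟨a, ha, rfl⟩)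
    refine measure_mono_null ?_ h1
    intro x hx
    exact ⟨hx.2, hqE hx.1⟩
  have hqM : q ∉ M := by
    intro h
    have := hq0 q h
    rw [Set.inter_self] at this
    exact hqB.2.1 this
  have hins : insert q M ∈ {M : Set (Set X) | M ⊆ B ∧
      ∀ a ∈ M, ∀ b ∈ M, a ≠ b → μ (a ∩ b) = 0} := by
    refine ⟨Set.insert_subset hqB hM.prop.1, ?_⟩
    rintro x (rfl | hx) y (rfl | hy) hxy
    · exact (hxy rfl).elim
    · exact hq0 y hy
    · rw [Set.inter_comm]; exact hq0 x hx
    · exact hM.prop.2 x hx y hy hxy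
  exact hqM (hM.le_of_ge hins (Set.subset_insert _ _) (Set.mem_insert _ _))

end MA

/-- Martin's axiom implies that `ω₁` is a precaliber of measure algebras. -/
theorem precaliber_of_martinsAxiom (hMA : MartinsAxiom) : Precaliber := by
  classical
  intro X _ μ _ I E hI hm hE
  obtain ⟨e⟩ : Nonempty (W1 ↪ I) := by
    rw [← Cardinal.le_def, W1_mk]
    have h1 : ℵ₀ < #I := by
      rw [Cardinal.aleph0_lt_mk_iff]
      exact hI
    rw [← Cardinal.succ_aleph0]
    exact Order.succ_le_of_lt h1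
  obtain ⟨p, hpm, hp0, hp⟩ := exists_good_set μ (fun a => E (e a)) (fun a => hm _)
    (fun a => hE _)
  have hne : Nonempty (PosSet μ p) := ⟨⟨p, hpm, hp0, subset_rfl⟩⟩
  let D : W1 → Set (PosSet μ p) := fun a => {q | ∃ b, a < b ∧ q.s ⊆ E (e b)}
  obtain ⟨G, hG1, hG2, hG3⟩ := hMA (PosSet μ p) (PosSet.ccc μ p) (Set.range D) (by
    refine Cardinal.mk_range_le.trans ?_
    rw [W1_mk]) (by
    rintro _ ⟨a, rfl⟩ q
    obtain ⟨b, hb, hq⟩ := hp q.s q.le q.meas q.pos a
    exact ⟨⟨q.s ∩ E (e b), q.meas.inter (hm _), hq, Set.inter_subset_left.trans q.le⟩,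
      ⟨b, hb, Set.inter_subset_right⟩, Set.inter_subset_left⟩)
  refine ⟨e '' {b | ∃ q ∈ G, q.s ⊆ E (e b)}, ?_, ?_⟩
  · intro hc
    have h1 : {b | ∃ q ∈ G, q.s ⊆ E (e b)}.Countable :=
      Set.countable_of_injective_of_countable_image e.injective.injOn hc
    refine W1_not_countable_of_unbounded ?_ h1
    intro a
    obtain ⟨q, hqG, b, hab, hq⟩ := hG3 (D a) ⟨a, rfl⟩
    exact ⟨b, ⟨q, hqG, hq⟩, hab⟩
  · intro F hF
    obtain ⟨q0, hq0, -⟩ := hG3 (D (Classical.arbitrary W1)) ⟨_, rfl⟩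
    have key : ∀ F : Finset I, (∀ i ∈ F, i ∈ e '' {b | ∃ q ∈ G, q.s ⊆ E (e b)}) →
        ∃ r ∈ G, ∀ i ∈ F, r.s ⊆ E i := by
      intro F
      induction F using Finset.induction_on with
      | empty => intro _; exact ⟨q0, hq0, by simp⟩
      | insert i F _ ih =>
        intro h
        obtain ⟨r, hr, hrF⟩ := ih fun j hj => h j (Finset.mem_insert_of_mem hj)
        obtain ⟨b, ⟨q, hq, hqE⟩, rfl⟩ := h i (Finset.mem_insert_self _ _)
        obtain ⟨c, hc, hcr, hcq⟩ := hG2 r hr q hq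
        refine ⟨c, hc, ?_⟩
        intro j hj
        rcases Finset.mem_insert.1 hj with rfl | hj
        · exact ((PosSet.le_def μ _ _).1 hcq).trans hqE
        · exact ((PosSet.le_def μ _ _).1 hcr).trans (hrF j hj)
    obtain ⟨r, -, hr⟩ := key F hF
    intro h0
    refine r.pos (measure_mono_null ?_ h0)
    exact Set.subset_iInter₂ hr

end Pool.Agent.Lib.MP_177f07_gt
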