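import Pool.Agent.Lib.MP_177f07_gt.PcalA

/-!
Conditional expectations along `ω₁`: the maximal inequality and the hull of a set.
-/

set_option autoImplicit false
set_option linter.unusedSectionVars false

open scoped Cardinal Ordinal
open MeasureTheory

namespace Pool.Agent.Lib.MP_177f07_gt

section

variable {X : Type} {m0 : MeasurableSpace X} {μ : Measure X} [IsProbabilityMeasure μ]

/-- Doob's maximal inequality along a countable initial segment of `ω₁`. -/
theorem pcal_maximal (m : W1 → MeasurableSpace X) (hm : ∀ a, m a ≤ m0)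
    (hmono : ∀ a b, a ≤ b → m a ≤ m b) {f : X → ℝ} (hf : Integrable f μ) (hf0 : 0 ≤ f)
    {c : ℝ} (hc : 0 < c) (i : W1) :
    μ (⋃ a ∈ Set.Iic i, {x | c ≤ (μ[f|m a]) x}) ≤ ENNReal.ofReal (∫ x, f x ∂μ) / ENNReal.ofReal c := by
  classical
  set S : W1 → Set X := fun a => {x | c ≤ (μ[f|m a]) x} with hS
  have hSm : ∀ a, MeasurableSet[m a] (S a) := fun a =>
    @measurableSet_le _ _ _ _ _ (m a) _ _ _ _ _ (@measurable_const _ _ _ (m a) _)
      (stronglyMeasurable_condExp.measurable)
  set D : W1 → Set X := fun a => S a \ ⋃ b ∈ Set.Iio a, S b with hD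
  have hDm : ∀ a, MeasurableSet[m a] (D a) := by
    intro a
    refine MeasurableSet.diff (hSm a) ?_
    exact MeasurableSet.biUnion (W1_countable_Iio a) fun b hb =>
      hmono b a (le_of_lt hb) _ (hSm b)
  have hDm0 : ∀ a, MeasurableSet (D a) := fun a => hm a _ (hDm a)
  have hcover : (⋃ a ∈ Set.Iic i, S a) = ⋃ a : Set.Iic i, D a := by
    ext x
    simp only [Set.mem_iUnion, exists_prop]
    constructor
    · rintro ⟨a, ha, hx⟩
      have hne : {b | x ∈ S b}.Nonempty := ⟨a, hx⟩
      let b := (wellFounded_lt (α := W1)).min _ hne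
      have hb : x ∈ S b := (wellFounded_lt (α := W1)).min_mem _ hne
      have hba : b ≤ a := not_lt.1 ((wellFounded_lt (α := W1)).not_lt_min _ (hx : a ∈ {b | x ∈ S b}))
      refine ⟨⟨b, hba.trans ha⟩, hb, ?_⟩
      intro h
      simp only [Set.mem_iUnion, exists_prop] at h
      obtain ⟨d, hd, hxd⟩ := h
      exact (wellFounded_lt (α := W1)).not_lt_min {b | x ∈ S b} hxd hd
    · rintro ⟨⟨a, ha⟩, hx⟩
      exact ⟨a, ha, hx.1⟩
  have hdisj : Pairwise (Function.onFun Disjoint fun a : Set.Iic i => D a) := by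
    have key : ∀ a b : W1, a < b → Disjoint (D a) (D b) := by
      intro a b hab
      rw [Set.disjoint_left]
      intro x hxa hxb
      apply hxb.2
      simp only [Set.mem_iUnion, exists_prop]
      exact ⟨a, hab, hxa.1⟩
    intro a b hab
    rcases lt_or_gt_of_ne (fun h => hab (Subtype.ext h) : (a : W1) ≠ b) with h | h
    · exact key a b h
    · exact (key b a h).symm
  have hcount : Countable (Set.Iic i) := (W1_countable_Iic i).to_subtype
  have hpiece : ∀ a : W1, ENNReal.ofReal c * μ (D a) ≤ ∫⁻ x in D a, ENNReal.ofReal (f x) ∂μ := by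
    intro a
    have h1 : ∫ x in D a, (μ[f|m a]) x ∂μ = ∫ x in D a, f x ∂μ :=
      setIntegral_condExp (hm a) hf (hDm a)
    have h2 : c * μ.real (D a) ≤ ∫ x in D a, (μ[f|m a]) x ∂μ := by
      have h3 : ∫ _x in D a, c ∂μ = c * μ.real (D a) := by
        rw [setIntegral_const, smul_eq_mul, mul_comm]
      rw [← h3]
      refine setIntegral_mono_on (integrable_const c).integrableOn
        integrable_condExp.integrableOn (hDm0 a) ?_
      intro x hx
      exact hx.1
    rw [← ofReal_integral_eq_lintegral_ofReal hf.integrableOn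
      (Filter.Eventually.of_forall fun x => hf0 x), ← h1]
    refine le_trans (le_of_eq ?_) (ENNReal.ofReal_le_ofReal h2)
    rw [ENNReal.ofReal_mul hc.le, measureReal_def, ENNReal.ofReal_toReal (measure_ne_top _ _)]
  have hsum : ENNReal.ofReal c * μ (⋃ a ∈ Set.Iic i, S a) ≤ ENNReal.ofReal (∫ x, f x ∂μ) := by
    rw [hcover, measure_iUnion hdisj (fun a => hDm0 a), ← ENNReal.tsum_mul_left]
    refine (ENNReal.tsum_le_tsum fun a : Set.Iic i => hpiece a).trans ?_
    rw [← lintegral_iUnion (fun a : Set.Iic i => hDm0 a) hdisj]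
    refine (setLIntegral_le_lintegral _ _).trans (le_of_eq ?_)
    rw [ofReal_integral_eq_lintegral_ofReal hf (Filter.Eventually.of_forall fun x => hf0 x)]
  rw [ENNReal.le_div_iff_mul_le (Or.inl (by simpa using hc)) (Or.inl ENNReal.ofReal_ne_top),
    mul_comm]
  exact hsum

/-- The hull of `D` with respect to a smaller algebra. -/
def hull (μ : Measure X) (m : MeasurableSpace X) (D : Set X) : Set X :=
  {x | 0 < (μ[D.indicator (fun _ => (1 : ℝ))|m]) x}

variable {m : MeasurableSpace X} (hm : m ≤ m0) {D : Set X} (hD : MeasurableSet[m0] D)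

theorem hull_meas : MeasurableSet[m] (hull μ m D) :=
  @measurableSet_lt _ _ _ _ _ m _ _ _ _ _ (@measurable_const _ _ _ m _)
      (stronglyMeasurable_condExp.measurable)

include hm hD

theorem setIntegral_hull {B : Set X} (hB : MeasurableSet[m] B) :
    ∫ x in B, (μ[D.indicator (fun _ => (1 : ℝ))|m]) x ∂μ = μ.real (B ∩ D) := by
  have hi : Integrable (D.indicator (fun _ => (1 : ℝ))) μ :=
    (integrable_const (1 : ℝ)).indicator hD
  rw [setIntegral_condExp hm hi hB, setIntegral_indicator hD, setIntegral_const, smul_eq_mul,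
    mul_one]

theorem hull_null {B : Set X} (hB : MeasurableSet[m] B) (h : μ (B ∩ D) = 0) :
    μ (B ∩ hull μ m D) = 0 := by
  have hBH : MeasurableSet[m] (B ∩ hull μ m D) := hB.inter hull_meas
  have h1 := setIntegral_hull (μ := μ) hm hD hBH
  have h2 : μ.real (B ∩ hull μ m D ∩ D) = 0 := by
    rw [measureReal_def, measure_mono_null _ h]
    · simp
    · intro x hx
      exact ⟨hx.1.1, hx.2⟩
  rw [h2] at h1
  have h3 : 0 ≤ᵐ[μ.restrict (B ∩ hull μ m D)] (μ[D.indicator (fun _ => (1 : ℝ))|m]) := by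
    refine (ae_restrict_iff' (hm _ hBH)).2 (Filter.Eventually.of_forall fun x hx => ?_)
    exact le_of_lt hx.2
  rw [integral_eq_zero_iff_of_nonneg_ae h3 integrable_condExp.integrableOn] at h1
  rw [Filter.EventuallyEq, ae_restrict_iff' (hm _ hBH)] at h1
  rw [measure_eq_zero_iff_ae_notMem]
  filter_upwards [h1] with x hx hxB
  have h4 := hx hxB
  have h5 : 0 < (μ[D.indicator (fun _ => (1 : ℝ))|m]) x := hxB.2
  rw [h4] at h5
  exact lt_irrefl _ h5

theorem hull_pos (h : μ D ≠ 0) : μ (hull μ m D) ≠ 0 := by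
  intro h0
  have hB : MeasurableSet[m] (hull μ m D)ᶜ := (hull_meas (m := m)).compl
  have h1 := setIntegral_hull (μ := μ) hm hD hB
  have h2 : ∫ x in (hull μ m D)ᶜ, (μ[D.indicator (fun _ => (1 : ℝ))|m]) x ∂μ ≤ 0 := by
    refine setIntegral_nonpos (hm _ hB) fun x hx => ?_
    exact not_lt.1 hx
  rw [h1] at h2
  have h3 : μ ((hull μ m D)ᶜ ∩ D) = 0 := by
    have h4 : μ.real ((hull μ m D)ᶜ ∩ D) = 0 := le_antisymm h2 measureReal_nonneg
    rwa [measureReal_eq_zero_iff] at h4
  apply h
  refine measure_mono_null (t := (hull μ m D)ᶜ ∩ D ∪ hull μ m D) ?_ (measure_union_null h3 h0)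
  intro x hx
  by_cases hxH : x ∈ hull μ m D
  · exact Or.inr hxH
  · exact Or.inl ⟨hxH, hx⟩

end

/-! ### The events -/

section

variable {X : Type} {m0 : MeasurableSpace X} {μ : Measure X} [IsProbabilityMeasure μ]
  (m : W1 → MeasurableSpace X) (g s : W1 → X → ℝ)

/-- The error function of index `i`. -/
def pcalErr {X : Type} (g s : W1 → X → ℝ) (i : W1) : X → ℝ := fun x => |g i x - s i x|

/-- The event of index `i`. -/
def Ev (μ : Measure X) (i : W1) : Set X :=
  {x | 1 / 2 ≤ g i x} ∩ ⋂ a ∈ Set.Iic i, {x | (μ[pcalErr g s i|m a]) x < 1 / 4}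

variable {m g s} (hm : ∀ a, m a ≤ m0) (hmono : ∀ a b, a ≤ b → m a ≤ m b)
  (hg : ∀ i, Measurable (g i)) (hgi : ∀ i, Integrable (g i) μ)
  (hgm : ∀ i a, i < a → Measurable[m a] (g i)) (hs : ∀ i, Measurable (s i))
  (hs1 : ∀ i x, s i x = 1 ∨ s i x = -1)
  (hs0 : ∀ i B, MeasurableSet[m i] B → ∫ x in B, s i x ∂μ = 0)
  (hgs : ∀ i, ∫ x, |g i x - s i x| ∂μ ≤ 1 / 20)

include hm hmono hg hgi hgm hs hs1 hs0 hgs

theorem Ev_meas (i : W1) : MeasurableSet (Ev m g s μ i) := by
  refine MeasurableSet.inter (measurableSet_le measurable_const (hg i)) ?_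
  refine MeasurableSet.biInter (W1_countable_Iic i) fun a _ => ?_
  exact hm a _ (@measurableSet_lt _ _ _ _ _ (m a) _ _ _ _ _
    (stronglyMeasurable_condExp.measurable) (@measurable_const _ _ _ (m a) _))

theorem Ev_s_integrable (i : W1) : Integrable (s i) μ := by
  refine Integrable.of_bound (hs i).aestronglyMeasurable 1 (Filter.Eventually.of_forall fun x => ?_)
  rcases hs1 i x with h | h <;> rw [h] <;> simp

theorem Ev_pos (i : W1) : μ (Ev m g s μ i) ≠ 0 := by
  intro h0
  have hsi : Integrable (s i) μ := Ev_s_integrable hm hmono hg hgi hgm hs hs1 hs0 hgs i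
  have hf : Integrable (pcalErr g s i) μ := ((hgi i).sub hsi).abs
  have h1 := pcal_maximal (μ := μ) m hm hmono hf (fun x => abs_nonneg _)
    (by norm_num : (0 : ℝ) < 1 / 4) i
  have h2 : μ.real (⋃ a ∈ Set.Iic i, {x | 1 / 4 ≤ (μ[pcalErr g s i|m a]) x}) ≤ 1 / 5 := by
    rw [measureReal_def]
    refine ENNReal.toReal_le_of_le_ofReal (by norm_num) (h1.trans ?_)
    rw [← ENNReal.ofReal_div_of_pos (by norm_num)]
    refine ENNReal.ofReal_le_ofReal ?_
    have h15 : ∫ x, pcalErr g s i x ∂μ ≤ 1 / 20 := hgs i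
    rw [div_le_iff₀ (by norm_num)]
    linarith
  have h3 : μ.real {x | g i x < 1 / 2} ≤ 3 / 5 := by
    have hms : MeasurableSet {x | g i x < 1 / 2} := measurableSet_lt (hg i) measurable_const
    have h4 : μ.real {x | g i x < 1 / 2} =
        ∫ x, ({x | g i x < 1 / 2}).indicator (fun _ => (1 : ℝ)) x ∂μ := by
      rw [integral_indicator hms, setIntegral_const, smul_eq_mul, mul_one]
    have h5 : ∫ x, ({x | g i x < 1 / 2}).indicator (fun _ => (1 : ℝ)) x ∂μ ≤
        ∫ x, ((1 - s i x) / 2 + 2 * |g i x - s i x|) ∂μ := by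
      refine integral_mono ((integrable_const (1 : ℝ)).indicator hms)
        ((((integrable_const (1 : ℝ)).sub hsi).div_const 2).add (hf.const_mul 2)) ?_
      intro x
      have h7 := abs_nonneg (g i x - s i x)
      have h8 := neg_abs_le (g i x - s i x)
      by_cases hx : g i x < 1 / 2
      · have h10 : ({x | g i x < 1 / 2}).indicator (fun _ => (1 : ℝ)) x = 1 :=
          Set.indicator_of_mem (s := {x | g i x < 1 / 2}) hx _
        change ({x | g i x < 1 / 2}).indicator (fun _ => (1 : ℝ)) x ≤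
          (1 - s i x) / 2 + 2 * |g i x - s i x|
        rw [h10]
        rcases hs1 i x with h | h
        · rw [h] at h7 h8 ⊢
          linarith
        · rw [h] at h7 h8 ⊢
          linarith
      · have h10 : ({x | g i x < 1 / 2}).indicator (fun _ => (1 : ℝ)) x = 0 :=
          Set.indicator_of_notMem (s := {x | g i x < 1 / 2}) hx _
        change ({x | g i x < 1 / 2}).indicator (fun _ => (1 : ℝ)) x ≤
          (1 - s i x) / 2 + 2 * |g i x - s i x|
        rw [h10]
        rcases hs1 i x with h | h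
        · rw [h] at h7 ⊢
          linarith
        · rw [h] at h7 ⊢
          linarith
    have h6 : ∫ x, ((1 - s i x) / 2 + 2 * |g i x - s i x|) ∂μ ≤ 3 / 5 := by
      have h11 : ∫ x, ((1 - s i x) / 2 + 2 * |g i x - s i x|) ∂μ =
          ∫ x, (1 - s i x) / 2 ∂μ + ∫ x, 2 * |g i x - s i x| ∂μ :=
        integral_add (((integrable_const (1 : ℝ)).sub hsi).div_const 2) (hf.const_mul 2)
      have h12 : ∫ x, (1 - s i x) / 2 ∂μ = (∫ x, (1 - s i x) ∂μ) / 2 := integral_div _ _
      have h13 : ∫ x, (1 - s i x) ∂μ = ∫ _x, (1 : ℝ) ∂μ - ∫ x, s i x ∂μ :=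
        integral_sub (integrable_const (1 : ℝ)) hsi
      have h14 : ∫ x, 2 * |g i x - s i x| ∂μ = 2 * ∫ x, |g i x - s i x| ∂μ :=
        integral_const_mul _ _
      rw [h11, h12, h13, h14]
      have h9 := hs0 i Set.univ MeasurableSet.univ
      rw [setIntegral_univ] at h9
      rw [h9]
      have := hgs i
      simp
      linarith
    rw [h4]
    exact h5.trans h6
  have h4 : (Set.univ : Set X) ⊆ Ev m g s μ i ∪ ({x | g i x < 1 / 2} ∪
      ⋃ a ∈ Set.Iic i, {x | 1 / 4 ≤ (μ[pcalErr g s i|m a]) x}) := by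
    intro x _
    by_cases hx : g i x < 1 / 2
    · exact Or.inr (Or.inl hx)
    · by_cases hx2 : x ∈ ⋃ a ∈ Set.Iic i, {x | 1 / 4 ≤ (μ[pcalErr g s i|m a]) x}
      · exact Or.inr (Or.inr hx2)
      · left
        refine ⟨not_lt.1 hx, ?_⟩
        simp only [Set.mem_iUnion, exists_prop, not_exists, not_and] at hx2
        simp only [Set.mem_iInter]
        intro a ha
        have h7 : ¬ 1 / 4 ≤ (μ[pcalErr g s i|m a]) x := hx2 a ha
        exact not_le.1 h7
  have h5 : (1 : ℝ) ≤ μ.real (Ev m g s μ i) + (μ.real {x | g i x < 1 / 2} +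
      μ.real (⋃ a ∈ Set.Iic i, {x | 1 / 4 ≤ (μ[pcalErr g s i|m a]) x})) := by
    have h6 : μ.real (Set.univ : Set X) = 1 := by simp
    have h7 := (measureReal_mono (μ := μ) h4).trans (measureReal_union_le _ _)
    have h8 := measureReal_union_le (μ := μ) {x | g i x < 1 / 2}
      (⋃ a ∈ Set.Iic i, {x | 1 / 4 ≤ (μ[pcalErr g s i|m a]) x})
    rw [h6] at h7
    linarith
  have h6 : μ.real (Ev m g s μ i) = 0 := by
    rw [measureReal_def, h0]
    simp
  rw [h6] at h5
  linarith

theorem Ev_condExp (i a : W1) (ha : a ≤ i) :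
    μ ({x | 1 / 4 < (μ[g i|m a]) x} ∩ Ev m g s μ i) = 0 := by
  have hsi : Integrable (s i) μ := Ev_s_integrable hm hmono hg hgi hgm hs hs1 hs0 hgs i
  have hf : Integrable (pcalErr g s i) μ := ((hgi i).sub hsi).abs
  have h1 : (0 : X → ℝ) =ᵐ[μ] μ[s i|m a] := by
    refine ae_eq_condExp_of_forall_setIntegral_eq (hm a) hsi (fun _ _ _ => integrableOn_zero) ?_ ?_
    · intro B hB _
      have := hs0 i B (hmono a i ha _ hB)
      rw [this]
      simp
    · exact stronglyMeasurable_zero.aestronglyMeasurable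
  have h2 : μ[g i|m a] =ᵐ[μ] μ[s i|m a] + μ[fun x => g i x - s i x|m a] := by
    have h3 := condExp_add (m := m a) hsi ((hgi i).sub hsi)
    refine Filter.EventuallyEq.trans (Filter.EventuallyEq.of_eq ?_) h3
    congr 1
    funext x
    simp
  have h3 : μ[fun x => g i x - s i x|m a] ≤ᵐ[μ] μ[pcalErr g s i|m a] :=
    condExp_mono ((hgi i).sub hsi) hf (Filter.Eventually.of_forall fun x => le_abs_self _)
  rw [measure_eq_zero_iff_ae_notMem]
  filter_upwards [h1, h2, h3] with x h1 h2 h3
  rintro ⟨h4, h5⟩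
  have h6 : (μ[pcalErr g s i|m a]) x < 1 / 4 := by
    have := h5.2
    simp only [Set.mem_iInter] at this
    exact this a ha
  have h7 : 1 / 4 < (μ[g i|m a]) x := h4
  rw [h2, Pi.add_apply, ← h1, Pi.zero_apply, zero_add] at h7
  linarith

theorem pcal_sets (a : W1) (F : Finset W1) (hF : μ (⋂ i ∈ F, Ev m g s μ i) ≠ 0) :
    ∃ H, MeasurableSet H ∧ μ H ≠ 0 ∧
      (∀ i ∈ F, i < a → 1 / 2 * μ.real H ≤ ∫ x in H, g i x ∂μ) ∧
      (∀ i ∈ F, a ≤ i → ∫ x in H, g i x ∂μ ≤ 1 / 4 * μ.real H) := by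
  set D := ⋂ i ∈ F, Ev m g s μ i with hD
  have hDm : MeasurableSet D := Finset.measurableSet_biInter F fun i _ =>
    Ev_meas hm hmono hg hgi hgm hs hs1 hs0 hgs i
  have hDE : ∀ i ∈ F, D ⊆ Ev m g s μ i := fun i hi => Set.biInter_subset_of_mem hi
  have hHm : MeasurableSet[m a] (hull μ (m a) D) := hull_meas
  have hconst : ∀ c : ℝ, ∫ _x in hull μ (m a) D, c ∂μ = c * μ.real (hull μ (m a) D) := by
    intro c
    rw [setIntegral_const, smul_eq_mul, mul_comm]
  refine ⟨hull μ (m a) D, hm a _ hHm, hull_pos (hm a) hDm hF, ?_, ?_⟩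
  · intro i hi hia
    have hB : MeasurableSet[m a] {x | g i x < 1 / 2} :=
      @measurableSet_lt _ _ _ _ _ (m a) _ _ _ _ _ (hgm i a hia) (@measurable_const _ _ _ (m a) _)
    have h1 : μ ({x | g i x < 1 / 2} ∩ D) = 0 := by
      have : {x | g i x < 1 / 2} ∩ D = ∅ := by
        ext x
        simp only [Set.mem_inter_iff, Set.mem_empty_iff_false, iff_false, not_and]
        intro h2 h3
        have h4 : 1 / 2 ≤ g i x := (hDE i hi h3).1
        exact absurd h4 (not_le.2 h2)
      rw [this]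
      simp
    have h2 := hull_null (hm a) hDm hB h1
    rw [← hconst]
    refine setIntegral_mono_on_ae (integrable_const _).integrableOn (hgi i).integrableOn
      (hm a _ hHm) ?_
    rw [measure_eq_zero_iff_ae_notMem] at h2
    filter_upwards [h2] with x hx hxH
    by_contra h3
    exact hx ⟨not_le.1 h3, hxH⟩
  · intro i hi hia
    have hB : MeasurableSet[m a] {x | 1 / 4 < (μ[g i|m a]) x} :=
      @measurableSet_lt _ _ _ _ _ (m a) _ _ _ _ _ (@measurable_const _ _ _ (m a) _)
        (stronglyMeasurable_condExp.measurable)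
    have h1 : μ ({x | 1 / 4 < (μ[g i|m a]) x} ∩ D) = 0 := by
      refine measure_mono_null ?_ (Ev_condExp hm hmono hg hgi hgm hs hs1 hs0 hgs i a hia)
      exact Set.inter_subset_inter_right _ (hDE i hi)
    have h2 := hull_null (hm a) hDm hB h1
    rw [← hconst, ← setIntegral_condExp (hm a) (hgi i) hHm]
    refine setIntegral_mono_on_ae integrable_condExp.integrableOn
      (integrable_const _).integrableOn (hm a _ hHm) ?_
    rw [measure_eq_zero_iff_ae_notMem] at h2
    filter_upwards [h2] with x hx hxH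
    by_contra h3
    exact hx ⟨not_le.1 h3, hxH⟩

end

end Pool.Agent.Lib.MP_177f07_gt
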