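import Pool.Agent.Lib.MP_177f07_gt.PcalB
import Pool.Agent.Lib.MP_177f07_gt.Final

/-!
If `ω₁` is a precaliber of measure algebras then countable tightness of `Prob K` forces countable
types.
-/

set_option autoImplicit false
set_option linter.unusedSectionVars false

open scoped Cardinal Ordinal
open MeasureTheory

namespace Pool.Agent.Lib.MP_177f07_gt

/-- A choice along `ω₁` avoiding countable bad sets. -/
theorem pcal_exists_seq {I : Type} (hI : ¬ Countable I) (Bad : Set I → Set I)
    (hB : ∀ J : Set I, J.Countable → (Bad J).Countable) :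
    ∃ e : W1 → I, ∀ a, e a ∉ Bad (e '' Set.Iio a) := by
  classical
  have hex : ∀ Z : Set I, Z.Countable → ∃ i, i ∉ Z := by
    intro Z hZ
    by_contra h
    push Not at h
    exact hI (Set.countable_univ_iff.1 (hZ.mono fun i _ => h i))
  obtain ⟨i0, -⟩ := hex ∅ Set.countable_empty
  let stepF : (a : W1) → ((b : W1) → b < a → I) → I := fun a rec =>
    if hh : ∃ i, i ∉ Bad (Set.range (fun b : Set.Iio a => rec b.1 b.2)) then hh.choose else i0
  let e : W1 → I := (wellFounded_lt (α := W1)).fix stepF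
  have he : ∀ a, e a = stepF a (fun b _ => e b) := fun a =>
    (wellFounded_lt (α := W1)).fix_eq stepF a
  refine ⟨e, fun a => ?_⟩
  have h1 : (Set.range (fun b : Set.Iio a => e b.1)).Countable := by
    have : Countable (Set.Iio a) := (W1_countable_Iio a).to_subtype
    exact Set.countable_range _
  have hh := hex _ (hB _ h1)
  have h3 : e a = hh.choose := by
    rw [he a]
    exact dif_pos hh
  have h4 := hh.choose_spec
  rw [← h3] at h4
  have h5 : e '' Set.Iio a = Set.range (fun b : Set.Iio a => e b.1) := by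
    ext x
    constructor
    · rintro ⟨b, hb, rfl⟩
      exact ⟨⟨b, hb⟩, rfl⟩
    · rintro ⟨b, rfl⟩
      exact ⟨b.1, b.2, rfl⟩
  rw [h5]
  exact h4

/-- The generating sets of the algebra of the functions `g j`, `j ∈ J`. -/
def pcalGen {X I : Type} (g : I → X → ℝ) (J : Set I) : Set (Set X) :=
  {S | ∃ j ∈ J, ∃ q : ℚ, S = {x | (q : ℝ) < g j x}}

theorem pcalGen_countable {X I : Type} (g : I → X → ℝ) {J : Set I} (hJ : J.Countable) :
    (pcalGen g J).Countable := by
  have h : pcalGen g J = ⋃ j ∈ J, Set.range fun q : ℚ => {x | (q : ℝ) < g j x} := by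
    ext S
    simp only [pcalGen, Set.mem_ofPred_eq, Set.mem_iUnion, Set.mem_range, exists_prop]
    constructor
    · rintro ⟨j, hj, q, rfl⟩
      exact ⟨j, hj, q, rfl⟩
    · rintro ⟨j, hj, q, rfl⟩
      exact ⟨j, hj, q, rfl⟩
  rw [h]
  exact hJ.biUnion fun j _ => Set.countable_range _

theorem pcalGen_mono {X I : Type} (g : I → X → ℝ) {J J' : Set I} (h : J ⊆ J') :
    pcalGen g J ⊆ pcalGen g J' := by
  rintro S ⟨j, hj, q, rfl⟩
  exact ⟨j, h hj, q, rfl⟩

/-- The algebra of the functions `g j`, `j ∈ J`. -/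
@[reducible] def pcalAlg {X I : Type} (g : I → X → ℝ) (J : Set I) : MeasurableSpace X :=
  MeasurableSpace.generateFrom (pcalGen g J)

theorem pcalAlg_mono {X I : Type} (g : I → X → ℝ) {J J' : Set I} (h : J ⊆ J') :
    pcalAlg g J ≤ pcalAlg g J' := MeasurableSpace.generateFrom_mono (pcalGen_mono g h)

theorem pcalAlg_le {X I : Type} [m0 : MeasurableSpace X] (g : I → X → ℝ)
    (hg : ∀ i, Measurable (g i)) (J : Set I) : pcalAlg g J ≤ m0 := by
  refine MeasurableSpace.generateFrom_le ?_
  rintro S ⟨j, hj, q, rfl⟩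
  exact measurableSet_lt measurable_const (hg j)

theorem pcalAlg_measurable {X I : Type} (g : I → X → ℝ) {J : Set I} {j : I} (hj : j ∈ J) :
    Measurable[pcalAlg g J] (g j) := by
  have h : borel ℝ = MeasurableSpace.generateFrom (⋃ a : ℚ, {Set.Ioi (a : ℝ)}) :=
    Real.borel_eq_generateFrom_Ioi_rat
  intro S hS
  have hS' : MeasurableSet[borel ℝ] S := by
    rw [← BorelSpace.measurable_eq (α := ℝ)]
    exact hS
  rw [h] at hS'
  have key : @Measurable X ℝ (pcalAlg g J)
      (MeasurableSpace.generateFrom (⋃ a : ℚ, {Set.Ioi (a : ℝ)})) (g j) := by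
    refine @measurable_generateFrom X ℝ (pcalAlg g J) _ _ ?_
    intro t ht
    simp only [Set.mem_iUnion, Set.mem_singleton_iff] at ht
    obtain ⟨q, rfl⟩ := ht
    exact MeasurableSpace.measurableSet_generateFrom ⟨j, hj, q, rfl⟩
  exact key hS'

/-- Finite intersections of generators. -/
def pcalPi {X I : Type} (g : I → X → ℝ) (J : Set I) : Set (Set X) :=
  Set.sInter '' {T : Set (Set X) | T.Finite ∧ T ⊆ pcalGen g J}

theorem pcalPi_countable {X I : Type} (g : I → X → ℝ) {J : Set I} (hJ : J.Countable) :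
    (pcalPi g J).Countable :=
  (Set.countable_ofPred_finite_subset (pcalGen_countable g hJ)).image _

theorem pcalPi_isPiSystem {X I : Type} (g : I → X → ℝ) (J : Set I) : IsPiSystem (pcalPi g J) := by
  rintro _ ⟨T, ⟨hT1, hT2⟩, rfl⟩ _ ⟨T', ⟨hT1', hT2'⟩, rfl⟩ _
  refine ⟨T ∪ T', ⟨hT1.union hT1', Set.union_subset hT2 hT2'⟩, ?_⟩
  rw [Set.sInter_union]

theorem pcalAlg_eq {X I : Type} (g : I → X → ℝ) (J : Set I) :
    pcalAlg g J = MeasurableSpace.generateFrom (pcalPi g J) := by
  refine le_antisymm (MeasurableSpace.generateFrom_mono ?_) (MeasurableSpace.generateFrom_le ?_)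
  · intro S hS
    exact ⟨{S}, ⟨Set.finite_singleton _, by simpa using hS⟩, by simp⟩
  · rintro _ ⟨T, ⟨hT1, hT2⟩, rfl⟩
    exact MeasurableSet.sInter hT1.countable fun S hS =>
      MeasurableSpace.measurableSet_generateFrom (hT2 hS)

theorem pcal_integral_zero {X I : Type} [m0 : MeasurableSpace X] {μ : Measure X}
    [IsProbabilityMeasure μ] (g : I → X → ℝ) (hg : ∀ i, Measurable (g i)) (J : Set I)
    {s : X → ℝ} (hs : Integrable s μ) (h : ∀ B ∈ pcalPi g J, ∫ x in B, s x ∂μ = 0)
    (B : Set X) (hB : MeasurableSet[pcalAlg g J] B) : ∫ x in B, s x ∂μ = 0 := by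
  have huniv : ∫ x, s x ∂μ = 0 := by
    have := h Set.univ ⟨∅, ⟨Set.finite_empty, Set.empty_subset _⟩, by simp⟩
    rwa [setIntegral_univ] at this
  refine MeasurableSpace.induction_on_inter (m := pcalAlg g J)
    (C := fun B _ => ∫ x in B, s x ∂μ = 0) (pcalAlg_eq g J) (pcalPi_isPiSystem g J) ?_ ?_ ?_ ?_ B hB
  · simp
  · intro t ht
    exact h t ht
  · intro t ht h1
    have h2 := integral_add_compl (pcalAlg_le g hg J _ ht) hs
    rw [h1, huniv, zero_add] at h2
    exact h2
  · intro f hd hf h1
    rw [integral_iUnion (fun i => pcalAlg_le g hg J _ (hf i)) hd hs.integrableOn]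
    simp [h1]

section

variable {K : Type} [TopologicalSpace K] [CompactSpace K] [T2Space K] [MeasurableSpace K]
  [BorelSpace K]

/-- Every Borel set of positive measure defines a point of `Prob K`. -/
theorem pcal_cond (μ : Measure K) [IsProbabilityMeasure μ] {H : Set K}
    (h0 : μ H ≠ 0) : ∃ φ : Prob K, ∀ f : C(K, ℝ), φ.1 f = (∫ x in H, f x ∂μ) / μ.real H := by
  have h1 : 0 < μ.real H := by
    rw [measureReal_def]
    exact ENNReal.toReal_pos h0 (measure_ne_top _ _)
  refine Prob.exists_of_linear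
    { toFun := fun f => (∫ x in H, f x ∂μ) / μ.real H
      map_add' := fun f g => ?_
      map_smul' := fun c f => ?_ } ?_ ?_
  · have := integral_add (μ := μ.restrict H) (integrable_continuous μ f).integrableOn
      (integrable_continuous μ g).integrableOn
    simp only [ContinuousMap.add_apply]
    rw [this]
    ring
  · simp only [ContinuousMap.smul_apply, smul_eq_mul, RingHom.id_apply]
    rw [integral_const_mul]
    ring
  · intro f hf
    exact div_nonneg (integral_nonneg fun x => hf x) h1.le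
  · change (∫ _x in H, (1 : ℝ) ∂μ) / μ.real H = 1
    rw [setIntegral_const, smul_eq_mul, mul_one]
    exact div_self h1.ne'

/-- A sequence of length `ω₁` separated at an uncountable set of indices. -/
theorem not_tight_of_chain {X : Type} [TopologicalSpace X] [CompactSpace X] (w : W1 → X → ℝ)
    (hw : ∀ i, Continuous (w i)) {c d : ℝ} (hcd : c < d) (J : Set W1) (hJ : ¬ J.Countable)
    (h : ∀ (a : W1) (F : Finset W1), (∀ i ∈ F, i ∈ J) → ∃ x, (∀ i ∈ F, i < a → d ≤ w i x) ∧
      ∀ i ∈ F, a ≤ i → w i x ≤ c) : ¬ TightLE ℵ₀ X := by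
  classical
  -- limits over the finite sets
  have h1 : ∀ a : W1, ∃ x, (∀ i ∈ J, i < a → d ≤ w i x) ∧ ∀ i ∈ J, a ≤ i → w i x ≤ c := by
    intro a
    let Z : J → Set X := fun i => if (i : W1) < a then {x | d ≤ w i x} else {x | w i x ≤ c}
    have hZ : ∀ i, IsClosed (Z i) := by
      intro i
      by_cases hi : (i : W1) < a
      · simp only [Z, if_pos hi]
        exact isClosed_le continuous_const (hw i)
      · simp only [Z, if_neg hi]
        exact isClosed_le (hw i) continuous_const
    have h2 : (⋂ i, Z i).Nonempty := by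
      refine CompactSpace.iInter_nonempty hZ fun u => ?_
      obtain ⟨x, hx1, hx2⟩ := h a (u.image Subtype.val) (by
        intro i hi
        obtain ⟨j, -, rfl⟩ := Finset.mem_image.1 hi
        exact j.2)
      refine ⟨x, ?_⟩
      simp only [Set.mem_iInter]
      intro i hi
      have hi' : (i : W1) ∈ u.image Subtype.val := Finset.mem_image_of_mem _ hi
      by_cases hia : (i : W1) < a
      · simp only [Z, if_pos hia]
        exact hx1 i hi' hia
      · simp only [Z, if_neg hia]
        exact hx2 i hi' (not_lt.1 hia)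
    obtain ⟨x, hx⟩ := h2
    rw [Set.mem_iInter] at hx
    refine ⟨x, fun i hi hia => ?_, fun i hi hia => ?_⟩
    · have := hx ⟨i, hi⟩
      simp only [Z, if_pos hia] at this
      exact this
    · have := hx ⟨i, hi⟩
      simp only [Z, if_neg (not_lt.2 hia)] at this
      exact this
  choose y hy1 hy2 using h1
  intro hX
  obtain ⟨x, -, hx⟩ := (isCompact_univ (X := X)).exists_mapClusterPt
    (f := (Filter.atTop : Filter W1)) (u := y) (by simp)
  have hd : ∀ i ∈ J, d ≤ w i x := by
    intro i hi
    have h1 : IsClosed {z | d ≤ w i z} := isClosed_le continuous_const (hw i)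
    by_contra h2
    have h3 : {z | d ≤ w i z}ᶜ ∈ nhds x := h1.isOpen_compl.mem_nhds h2
    have h4 := hx.frequently h3
    have h5 : ∀ᶠ a in (Filter.atTop : Filter W1), d ≤ w i (y a) := by
      obtain ⟨b, hb⟩ := W1_exists_gt (Set.countable_singleton i)
      filter_upwards [Filter.eventually_ge_atTop b] with a ha
      exact hy1 a i hi (lt_of_lt_of_le (hb i rfl) ha)
    obtain ⟨a, ha1, ha2⟩ := (h4.and_eventually h5).exists
    exact ha1 ha2
  have hcl : x ∈ closure (Set.range y) := by
    rw [mem_closure_iff_nhds]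
    intro V hV
    obtain ⟨a, ha⟩ := (hx.frequently hV).exists
    exact ⟨y a, ha, a, rfl⟩
  obtain ⟨A₀, hA₀, hAκ, hxA⟩ := hX _ x hcl
  choose! g hg using fun (z : X) (hz : z ∈ A₀) => hA₀ hz
  rw [Cardinal.le_aleph0_iff_set_countable] at hAκ
  obtain ⟨b, hb⟩ := W1_exists_gt (hAκ.image g)
  obtain ⟨i, hiJ, hbi⟩ := W1_unbounded_of_not_countable hJ b
  have h1 : A₀ ⊆ {z | w i z ≤ c} := by
    intro z hz
    have h2 := hy2 (g z) i hiJ ((hb _ ⟨z, hz, rfl⟩).le.trans hbi.le)
    rw [hg z hz] at h2
    exact h2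
  have h2 : w i x ≤ c := closure_minimal h1 (isClosed_le (hw i) continuous_const) hxA
  linarith [hd i hiJ]

theorem not_tight_of_precaliber (μ : Measure K) [IsProbabilityMeasure μ] (hP : PrecaliberOf μ)
    [μ.Regular] {I : Type} (hI : ¬ Countable I) (A : I → Set K) (hA : FairSigns μ A) :
    ¬ TightLE ℵ₀ (Prob K) := by
  classical
  choose g hg using fun i => exists_approx_sgn μ (hA.1 i) (by norm_num : (0 : ℝ) < 1 / 20)
  let gf : I → K → ℝ := fun i x => g i x
  have hgm : ∀ i, Measurable (gf i) := fun i => (g i).continuous.measurable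
  have hsi : ∀ i, Integrable (sgn (A i)) μ := fun i =>
    Integrable.of_bound (measurable_sgn (hA.1 i)).aestronglyMeasurable 1
      (Filter.Eventually.of_forall fun x => by rw [Real.norm_eq_abs, abs_sgn])
  obtain ⟨e, he⟩ := pcal_exists_seq hI (fun J => ⋃ B ∈ pcalPi gf J,
    {i | ∫ x in B, sgn (A i) x ∂μ ≠ 0}) (by
    intro J hJ
    refine (pcalPi_countable gf hJ).biUnion fun B hB => ?_
    have hBm : MeasurableSet B := by
      refine pcalAlg_le gf hgm J _ ?_
      rw [pcalAlg_eq]
      exact MeasurableSpace.measurableSet_generateFrom hB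
    have h1 : MemLp (B.indicator (fun _ => (1 : ℝ))) 2 μ :=
      MemLp.indicator hBm (memLp_const 1)
    have h2 := (hA.countable_support h1).preimage_of_injOn
      (f := fun i : I => ({i} : Finset I)) (fun i _ j _ h => Finset.singleton_injective h)
    refine h2.mono ?_
    intro i hi
    simp only [Set.mem_preimage, Set.mem_ofPred_eq] at hi ⊢
    intro h3
    apply hi
    rw [← h3]
    unfold hat
    simp only [wal_singleton]
    rw [← integral_indicator hBm]
    congr 1
    funext x
    by_cases hx : x ∈ B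
    · simp [hx]
    · simp [hx])
  have hs0 : ∀ (a : W1) (B : Set K), MeasurableSet[pcalAlg gf (e '' Set.Iio a)] B →
      ∫ x in B, sgn (A (e a)) x ∂μ = 0 := by
    intro a B hB
    refine pcal_integral_zero gf hgm (e '' Set.Iio a) (hsi (e a)) ?_ B hB
    intro B' hB'
    by_contra h1
    apply he a
    exact Set.mem_biUnion hB' h1
  have hgs : ∀ a : W1, ∫ x, |gf (e a) x - sgn (A (e a)) x| ∂μ ≤ 1 / 20 := by
    intro a
    have hL : MemLp (fun x => gf (e a) x - sgn (A (e a)) x) 2 μ :=
      (memLp_continuous μ (g (e a)) 2).sub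
        (MemLp.of_bound (measurable_sgn (hA.1 (e a))).aestronglyMeasurable 1
        (Filter.Eventually.of_forall fun x => by rw [Real.norm_eq_abs, abs_sgn]))
    have h1 : (∫ x, |gf (e a) x - sgn (A (e a)) x| ∂μ) ^ 2 ≤
        ∫ x, (gf (e a) x - sgn (A (e a)) x) ^ 2 ∂μ := by
      have h2 := hA.bessel (f := fun x => |gf (e a) x - sgn (A (e a)) x|) hL.abs {∅}
      simp only [Finset.sum_singleton, sq_abs] at h2
      refine le_trans (le_of_eq ?_) h2
      congr 1
      unfold hat
      simp [wal_empty]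
    have h2 := h1.trans (hg (e a))
    exact abs_le_of_sq_le_sq' h2 (by norm_num) |>.2
  have hmono : ∀ a b : W1, a ≤ b → pcalAlg gf (e '' Set.Iio a) ≤ pcalAlg gf (e '' Set.Iio b) :=
    fun a b hab => pcalAlg_mono gf (Set.image_mono (Set.Iio_subset_Iio hab))
  have hs1 : ∀ (a : W1) (x : K), sgn (A (e a)) x = 1 ∨ sgn (A (e a)) x = -1 := by
    intro a x
    unfold sgn
    split_ifs
    · exact Or.inl rfl
    · exact Or.inr rfl
  obtain ⟨J, hJ, hJF⟩ := hP W1
    (Ev (fun a => pcalAlg gf (e '' Set.Iio a)) (fun a => gf (e a)) (fun a => sgn (A (e a))) μ)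
    inferInstance
    (Ev_meas (fun a => pcalAlg_le gf hgm _) hmono (fun a => hgm _)
      (fun a => integrable_continuous μ (g (e a)))
      (fun i a hia => pcalAlg_measurable gf ⟨i, hia, rfl⟩)
      (fun a => measurable_sgn (hA.1 _)) hs1 hs0 hgs)
    (Ev_pos (fun a => pcalAlg_le gf hgm _) hmono (fun a => hgm _)
      (fun a => integrable_continuous μ (g (e a)))
      (fun i a hia => pcalAlg_measurable gf ⟨i, hia, rfl⟩)
      (fun a => measurable_sgn (hA.1 _)) hs1 hs0 hgs)
  refine not_tight_of_chain (fun a (φ : Prob K) => φ.1 (g (e a))) ?_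
    (by norm_num : (1 / 4 : ℝ) < 1 / 2) J hJ ?_
  · intro a
    exact (WeakDual.eval_continuous (g (e a))).comp continuous_subtype_val
  · intro a F hF
    obtain ⟨H, hH, hH0, h1, h2⟩ := pcal_sets (fun a => pcalAlg_le gf hgm _) hmono (fun a => hgm _)
      (fun a => integrable_continuous μ (g (e a)))
      (fun i a hia => pcalAlg_measurable gf ⟨i, hia, rfl⟩)
      (fun a => measurable_sgn (hA.1 _)) hs1 hs0 hgs a F (hJF F hF)
    obtain ⟨φ, hφ⟩ := pcal_cond μ hH0
    have h3 : 0 < μ.real H := by
      rw [measureReal_def]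
      exact ENNReal.toReal_pos hH0 (measure_ne_top _ _)
    refine ⟨φ, fun i hi hia => ?_, fun i hi hia => ?_⟩
    · simp only [hφ]
      rw [le_div_iff₀ h3]
      exact h1 i hi hia
    · simp only [hφ]
      rw [div_le_iff₀ h3]
      exact h2 i hi hia

end

section

variable {K : Type} [TopologicalSpace K] [CompactSpace K] [T2Space K] [MeasurableSpace K]
  [BorelSpace K]

theorem PrecaliberOf.trace {μ : Measure K} [IsProbabilityMeasure μ] (hP : PrecaliberOf μ)
    {E : Set K} (hE : MeasurableSet E) (hE0 : μ E ≠ 0) :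
    PrecaliberOf ((μ E)⁻¹ • μ.restrict E) := by
  have hc0 : (μ E)⁻¹ ≠ 0 := ENNReal.inv_ne_zero.2 (measure_ne_top μ E)
  intro I B hI hB hB0
  have h1 : ∀ i, μ (B i ∩ E) ≠ 0 := by
    intro i h
    apply hB0 i
    rw [Measure.smul_apply, Measure.restrict_apply (hB i), h, smul_zero]
  obtain ⟨J, hJ, hJF⟩ := hP I (fun i => B i ∩ E) hI (fun i => (hB i).inter hE) h1
  refine ⟨J, hJ, fun F hF => ?_⟩
  rw [Measure.smul_apply, Measure.restrict_apply (Finset.measurableSet_biInter F fun i _ => hB i),
    smul_eq_mul]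
  refine mul_ne_zero hc0 ?_
  rcases F.eq_empty_or_nonempty with h | h
  · subst h
    simpa using hE0
  · intro h2
    refine hJF F hF (measure_mono_null ?_ h2)
    intro x hx
    obtain ⟨j, hj⟩ := h
    simp only [Set.mem_iInter] at hx
    refine ⟨?_, (hx j hj).2⟩
    simp only [Set.mem_iInter]
    exact fun i hi => (hx i hi).1

/-- **Local form.** If `P(K)` is countably tight and `ω₁` is a precaliber of the measure algebra
of the regular probability `m`, then `L¹(m)` is separable. -/
theorem separable_of_precaliberOf (hK : CountTight (Prob K)) (m : Measure K)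
    [IsProbabilityMeasure m] (hm : m.Regular) (hP : PrecaliberOf m) :
    TopologicalSpace.SeparableSpace (Lp ℝ 1 m) := by
  by_contra hcon
  have h1 : ¬ MTypeLE ℵ₀ m := by
    intro h
    obtain ⟨D, hD, hDd⟩ := link_densLE_of_mTypeLE le_rfl m h
    rw [Cardinal.le_aleph0_iff_set_countable] at hD
    exact hcon ⟨D, hD, hDd⟩
  obtain ⟨E, hE, hE0, hE1⟩ := exists_nowhere le_rfl m h1
  have hc0 : (m E)⁻¹ ≠ 0 := ENNReal.inv_ne_zero.2 (measure_ne_top m E)
  have hc : (m E)⁻¹ ≠ ⊤ := ENNReal.inv_ne_top.2 hE0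
  have hprob : IsProbabilityMeasure ((m E)⁻¹ • m.restrict E) := by
    refine ⟨?_⟩
    rw [Measure.smul_apply, Measure.restrict_apply MeasurableSet.univ, Set.univ_inter,
      smul_eq_mul]
    exact ENNReal.inv_mul_cancel hE0 (measure_ne_top m E)
  have hreg : ((m E)⁻¹ • m.restrict E).Regular := by
    have : (m.restrict E).Regular := Measure.Regular.restrict_of_measure_ne_top (measure_ne_top m E)
    exact Measure.Regular.smul hc
  obtain ⟨I, A, hI, hA⟩ := exists_fairSigns le_rfl ((m E)⁻¹ • m.restrict E) (by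
    intro F hF hF0 h2
    rw [Measure.restrict_smul, Measure.restrict_restrict hF] at h2
    refine hE1 (F ∩ E) Set.inter_subset_right (hF.inter hE) ?_ (link_mTypeLE_of_smul hc0 hc h2)
    intro h3
    apply hF0
    rw [Measure.smul_apply, Measure.restrict_apply hF, h3, smul_zero])
  refine not_tight_of_precaliber ((m E)⁻¹ • m.restrict E) (hP.trace hE hE0) ?_ A hA
    ((countTight_iff _).1 hK)
  rw [← Cardinal.mk_le_aleph0_iff]
  exact not_le.2 hI

/-- `ω₁` is a precaliber of the measure algebras of all regular probabilities on `K`. -/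
def PrecaliberSpace (K : Type) [TopologicalSpace K] [MeasurableSpace K] : Prop :=
  ∀ m : Measure K, IsProbabilityMeasure m → m.Regular → PrecaliberOf m

theorem sepTypes_of_precaliberSpace (hP : PrecaliberSpace K) (hK : CountTight (Prob K)) :
    SepTypes K := fun m h1 h2 => separable_of_precaliberOf hK m h2 (hP m h1 h2)

/-- For spaces with precaliber `ω₁` the answer is yes. -/
theorem precaliberSpace_tfae (hP : PrecaliberSpace K) :
    List.TFAE [CountTight (Prob K), CountTight (Prob (K × K)), CountTight (Prob (ℕ → K))] := by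
  tfae_have 1 → 3 := fun h =>
    ((one_space_tfae K h).out 1 2).1 (sepTypes_of_precaliberSpace hP h)
  tfae_have 3 → 2 := countTight_sq_of_pow K
  tfae_have 2 → 1 := by
    intro h
    rw [countTight_iff] at h ⊢
    have hs : Function.Surjective (ContinuousMap.fst : C(K × K, K)) := fun x => ⟨(x, x), rfl⟩
    exact tightLE_of_surjective (continuous_push _) (push_surjective _ hs) h
  tfae_finish

end

/-- If `ω₁` is a precaliber of measure algebras, all forms of the question have a positive
answer. -/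
theorem questionTypes_of_precaliber (hP : Precaliber) : QuestionTypes := by
  intro K _ _ _ _ _ hK m h1 h2
  exact separable_of_precaliberOf hK m h2 (hP K m)

theorem questionOne_of_precaliber (hP : Precaliber) : QuestionOne :=
  (question_tfae.out 0 1).2 (questionTypes_of_precaliber hP)

theorem productCriterion_of_precaliber (hP : Precaliber) (I : Type) (K : I → Type)
    [∀ i, TopologicalSpace (K i)] [∀ i, CompactSpace (K i)] [∀ i, T2Space (K i)]
    [∀ i, Nontrivial (K i)] :
    CountTight (Prob (∀ i, K i)) ↔ Countable I ∧ ∀ i, CountTight (Prob (K i)) := by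
  letI : ∀ i, MeasurableSpace (K i) := fun i => borel (K i)
  haveI : ∀ i, BorelSpace (K i) := fun i => ⟨rfl⟩
  rw [countTight_pi_iff K]
  constructor
  · rintro ⟨h1, h2, -⟩
    exact ⟨h1, h2⟩
  · rintro ⟨h1, h2⟩
    exact ⟨h1, h2, fun i j _ => Or.inl (questionTypes_of_precaliber hP (K i) (h2 i))⟩

/-- The product formula for spaces with precaliber `ω₁`. -/
theorem countTight_pi_of_precaliberSpace (I : Type) (K : I → Type)
    [∀ i, TopologicalSpace (K i)] [∀ i, CompactSpace (K i)] [∀ i, T2Space (K i)]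
    [∀ i, Nontrivial (K i)] [∀ i, MeasurableSpace (K i)] [∀ i, BorelSpace (K i)]
    (hP : ∀ i, PrecaliberSpace (K i)) :
    CountTight (Prob (∀ i, K i)) ↔ Countable I ∧ ∀ i, CountTight (Prob (K i)) := by
  rw [countTight_pi_iff K]
  constructor
  · rintro ⟨h1, h2, -⟩
    exact ⟨h1, h2⟩
  · rintro ⟨h1, h2⟩
    exact ⟨h1, h2, fun i j _ => Or.inl (sepTypes_of_precaliberSpace (hP i) (h2 i))⟩

/-- A counterexample to Q1 carries a witness that `ω₁` is not a precaliber of the measure algebra
of one of its measures. -/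
theorem counterexample_structure (K : Type) [TopologicalSpace K] [CompactSpace K] [T2Space K]
    [MeasurableSpace K] [BorelSpace K] (h1 : CountTight (Prob K))
    (h2 : ¬ CountTight (Prob (K × K))) :
    ∃ m : Measure K, IsProbabilityMeasure m ∧ m.Regular ∧ ¬ PrecaliberOf m := by
  by_contra hcon
  push Not at hcon
  exact h2 (((precaliberSpace_tfae (K := K) hcon).out 0 1).1 h1)

/-- Part (1): the local statement for one measure. -/
def PrecaliberLocal : Prop :=
  ∀ (K : Type) [TopologicalSpace K] [CompactSpace K] [T2Space K] [MeasurableSpace K]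
    [BorelSpace K], CountTight (Prob K) →
      ∀ (m : Measure K) [IsProbabilityMeasure m], m.Regular → PrecaliberOf m →
        TopologicalSpace.SeparableSpace (Lp ℝ 1 m)

/-- Part (2): squares and countable powers. -/
def PrecaliberPowers : Prop :=
  ∀ (K : Type) [TopologicalSpace K] [CompactSpace K] [T2Space K] [MeasurableSpace K]
    [BorelSpace K], PrecaliberSpace K →
      List.TFAE [CountTight (Prob K), CountTight (Prob (K × K)), CountTight (Prob (ℕ → K))]

/-- Part (3): arbitrary products. -/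
def PrecaliberProducts : Prop :=
  ∀ (I : Type) (K : I → Type) [∀ i, TopologicalSpace (K i)] [∀ i, CompactSpace (K i)]
    [∀ i, T2Space (K i)] [∀ i, Nontrivial (K i)] [∀ i, MeasurableSpace (K i)]
    [∀ i, BorelSpace (K i)], (∀ i, PrecaliberSpace (K i)) →
      (CountTight (Prob (∀ i, K i)) ↔ Countable I ∧ ∀ i, CountTight (Prob (K i)))

theorem precaliberLocal : PrecaliberLocal :=
  fun _ _ _ _ _ _ hK m _ hm hP => separable_of_precaliberOf hK m hm hP

theorem precaliberPowers : PrecaliberPowers := fun _ _ _ _ _ _ hP => precaliberSpace_tfae hP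

theorem precaliberProducts : PrecaliberProducts :=
  fun I K _ _ _ _ _ _ hP => countTight_pi_of_precaliberSpace I K hP

/-- `QuestionOne` is, word by word, the frozen statement S12817. -/
theorem questionOne_iff_frozen : QuestionOne ↔
    ∀ (K : Type) [TopologicalSpace K] [CompactSpace K] [T2Space K],
      (∀ (A : Set {ψ : WeakDual ℝ C(K, ℝ) //
            (∀ f : C(K, ℝ), 0 ≤ f → 0 ≤ ψ f) ∧ ψ 1 = 1})
          (x : {ψ : WeakDual ℝ C(K, ℝ) //
            (∀ f : C(K, ℝ), 0 ≤ f → 0 ≤ ψ f) ∧ ψ 1 = 1}),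
          x ∈ closure A → ∃ A₀ ⊆ A, A₀.Countable ∧ x ∈ closure A₀) →
      (∀ (A : Set {ψ : WeakDual ℝ C(K × K, ℝ) //
            (∀ f : C(K × K, ℝ), 0 ≤ f → 0 ≤ ψ f) ∧ ψ 1 = 1})
          (x : {ψ : WeakDual ℝ C(K × K, ℝ) //
            (∀ f : C(K × K, ℝ), 0 ≤ f → 0 ≤ ψ f) ∧ ψ 1 = 1}),
          x ∈ closure A → ∃ A₀ ⊆ A, A₀.Countable ∧ x ∈ closure A₀) := Iff.rfl

end Pool.Agent.Lib.MP_177f07_gt
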