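import Pool.Agent.Lib.MP_177f07_gt.Defs

/-!
Walsh functions of a family of fair signs: orthonormality and Bessel's inequality.
-/

set_option autoImplicit false

open scoped Cardinal
open MeasureTheory

namespace Pool.Agent.Lib.MP_177f07_gt

universe u

section BASIC

variable {X I : Type u}

theorem sgn_mul_self (A : Set X) (x : X) : sgn A x * sgn A x = 1 := by
  classical
  unfold sgn
  split_ifs <;> norm_num

theorem abs_sgn (A : Set X) (x : X) : |sgn A x| = 1 := by
  classical
  unfold sgn
  split_ifs <;> norm_num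

/-- The Walsh function of a finite set of indices. -/
noncomputable def wal (A : I → Set X) (F : Finset I) (x : X) : ℝ := ∏ i ∈ F, sgn (A i) x

theorem wal_empty (A : I → Set X) (x : X) : wal A ∅ x = 1 := by
  simp [wal]

theorem wal_singleton (A : I → Set X) (i : I) (x : X) : wal A {i} x = sgn (A i) x := by
  simp [wal]

theorem abs_wal (A : I → Set X) (F : Finset I) (x : X) : |wal A F x| = 1 := by
  unfold wal
  rw [Finset.abs_prod]
  exact Finset.prod_eq_one fun i _ => abs_sgn _ _

theorem wal_mul_self (A : I → Set X) (F : Finset I) (x : X) : wal A F x * wal A F x = 1 := by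
  unfold wal
  rw [← Finset.prod_mul_distrib]
  exact Finset.prod_eq_one fun i _ => sgn_mul_self _ _

theorem wal_mul [DecidableEq I] (A : I → Set X) (F G : Finset I) (x : X) :
    wal A F x * wal A G x = wal A (symmDiff F G) x := by
  have h1 : wal A F x = wal A (F \ G) x * wal A (F ∩ G) x := by
    unfold wal
    rw [← Finset.prod_union (Finset.disjoint_sdiff_inter F G), Finset.sdiff_union_inter]
  have h2 : wal A G x = wal A (G \ F) x * wal A (F ∩ G) x := by
    unfold wal
    rw [Finset.inter_comm, ← Finset.prod_union (Finset.disjoint_sdiff_inter G F),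
      Finset.sdiff_union_inter]
  have h3 : wal A (symmDiff F G) x = wal A (F \ G) x * wal A (G \ F) x := by
    unfold wal
    rw [← Finset.prod_union]
    · rfl
    · exact disjoint_sdiff_sdiff
  rw [h1, h2, h3]
  have h4 := wal_mul_self A (F ∩ G) x
  linear_combination (wal A (F \ G) x * wal A (G \ F) x) * h4

theorem sum_powerset_wal (A : I → Set X) (F : Finset I) (x : X) :
    ∑ G ∈ F.powerset, wal A G x = ∏ i ∈ F, (1 + sgn (A i) x) := by
  rw [Finset.prod_one_add]
  rfl

theorem sum_powerset_wal_mul {Y : Type u} (A : I → Set X) (B : I → Set Y) (F : Finset I) (x : X)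
    (y : Y) : ∑ G ∈ F.powerset, wal A G x * wal B G y =
      ∏ i ∈ F, (1 + sgn (A i) x * sgn (B i) y) := by
  rw [Finset.prod_one_add]
  refine Finset.sum_congr rfl fun G _ => ?_
  unfold wal
  rw [Finset.prod_mul_distrib]

theorem one_add_sgn_nonneg (A : Set X) (x : X) : 0 ≤ 1 + sgn A x := by
  have := abs_sgn A x
  have h2 := neg_abs_le (sgn A x)
  linarith

theorem one_add_sgn_mul_nonneg {Y : Type u} (A : Set X) (B : Set Y) (x : X) (y : Y) :
    0 ≤ 1 + sgn A x * sgn B y := by
  have h : |sgn A x * sgn B y| = 1 := by rw [abs_mul, abs_sgn, abs_sgn, one_mul]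
  have h2 := neg_abs_le (sgn A x * sgn B y)
  linarith

end BASIC

section MEAS

variable {X I : Type u} [MeasurableSpace X]

theorem measurable_sgn {A : Set X} (hA : MeasurableSet A) : Measurable (sgn A) := by
  classical
  have : sgn A = fun x => if x ∈ A then (1 : ℝ) else -1 := by
    funext x
    unfold sgn
    rfl
  rw [this]
  exact Measurable.ite hA measurable_const measurable_const

variable {μ : Measure X} {A : I → Set X}

theorem FairSigns.measurable_wal (hA : FairSigns μ A) (F : Finset I) : Measurable (wal A F) := by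
  unfold wal
  exact Finset.measurable_prod F fun i _ => measurable_sgn (hA.1 i)

theorem FairSigns.integral_wal (hA : FairSigns μ A) {F : Finset I} (hF : F.Nonempty) :
    ∫ x, wal A F x ∂μ = 0 := hA.2 F hF

theorem FairSigns.integral_wal_mul [IsProbabilityMeasure μ] [DecidableEq I] (hA : FairSigns μ A)
    (F G : Finset I) : ∫ x, wal A F x * wal A G x ∂μ = if F = G then 1 else 0 := by
  simp_rw [wal_mul]
  split_ifs with h
  · subst h
    simp [wal_empty]
  · apply hA.integral_wal
    rw [Finset.nonempty_iff_ne_empty]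
    intro h2
    exact h (symmDiff_eq_bot.mp h2)

theorem FairSigns.memLp_wal [IsFiniteMeasure μ] (hA : FairSigns μ A) (F : Finset I)
    (p : ENNReal) : MemLp (wal A F) p μ :=
  MemLp.of_bound (hA.measurable_wal F).aestronglyMeasurable 1
    (Filter.Eventually.of_forall fun x => by rw [Real.norm_eq_abs, abs_wal])

/-- The Walsh functions as vectors of `L²`. -/
noncomputable def FairSigns.vec [IsFiniteMeasure μ] (hA : FairSigns μ A) (F : Finset I) :
    Lp ℝ 2 μ := (hA.memLp_wal F 2).toLp _

theorem FairSigns.inner_toLp_vec [IsFiniteMeasure μ] (hA : FairSigns μ A) {f : X → ℝ}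
    (hf : MemLp f 2 μ) (F : Finset I) :
    inner ℝ (hA.vec F) (hf.toLp f) = ∫ x, f x * wal A F x ∂μ := by
  rw [L2.inner_def]
  refine integral_congr_ae ?_
  filter_upwards [hf.coeFn_toLp, (hA.memLp_wal F 2).coeFn_toLp] with x h1 h2
  have h3 : (hA.vec F : X → ℝ) x = wal A F x := h2
  rw [h3, h1]
  simp

theorem FairSigns.orthonormal [IsProbabilityMeasure μ] (hA : FairSigns μ A) :
    Orthonormal ℝ (hA.vec) := by
  classical
  rw [orthonormal_iff_ite]
  intro F G
  have := hA.inner_toLp_vec (hA.memLp_wal G 2) F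
  change inner ℝ (hA.vec F) (hA.vec G) = _ at this
  rw [this, hA.integral_wal_mul G F]
  simp [eq_comm]

/-- The Walsh coefficient. -/
noncomputable def hat (μ : Measure X) (A : I → Set X) (f : X → ℝ) (G : Finset I) : ℝ :=
  ∫ x, f x * wal A G x ∂μ

theorem norm_sq_toLp [IsFiniteMeasure μ] {f : X → ℝ} (hf : MemLp f 2 μ) :
    ‖hf.toLp f‖ ^ 2 = ∫ x, f x ^ 2 ∂μ := by
  rw [← real_inner_self_eq_norm_sq, L2.inner_def]
  refine integral_congr_ae ?_
  filter_upwards [hf.coeFn_toLp] with x h1
  rw [h1]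
  simp [sq]

theorem FairSigns.bessel [IsProbabilityMeasure μ] (hA : FairSigns μ A) {f : X → ℝ}
    (hf : MemLp f 2 μ) (s : Finset (Finset I)) :
    ∑ G ∈ s, hat μ A f G ^ 2 ≤ ∫ x, f x ^ 2 ∂μ := by
  have h := (hA.orthonormal).sum_inner_products_le (x := hf.toLp f) (s := s)
  rw [norm_sq_toLp hf] at h
  refine le_trans (le_of_eq ?_) h
  refine Finset.sum_congr rfl fun G _ => ?_
  rw [hA.inner_toLp_vec hf G, Real.norm_eq_abs, sq_abs]
  rfl

theorem FairSigns.abs_hat_le [IsProbabilityMeasure μ] (hA : FairSigns μ A) {f : X → ℝ}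
    (hf : MemLp f 2 μ) {ε : ℝ} (hε : 0 ≤ ε) (h : ∫ x, f x ^ 2 ∂μ ≤ ε ^ 2) (G : Finset I) :
    |hat μ A f G| ≤ ε := by
  have h2 := hA.bessel hf {G}
  rw [Finset.sum_singleton] at h2
  exact abs_le_of_sq_le_sq (h2.trans h) hε

theorem FairSigns.countable_support [IsProbabilityMeasure μ] (hA : FairSigns μ A) {f : X → ℝ}
    (hf : MemLp f 2 μ) : {G : Finset I | hat μ A f G ≠ 0}.Countable := by
  have h := (hA.orthonormal).inner_products_summable (hf.toLp f)
  have h2 := h.countable_support
  refine h2.mono ?_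
  intro G hG
  simp only [Function.mem_support, ne_eq]
  rw [hA.inner_toLp_vec hf G, Real.norm_eq_abs, sq_abs]
  exact pow_ne_zero 2 hG

end MEAS

/-- Cauchy-Schwarz for two sequences of Walsh coefficients. -/
theorem abs_sum_hat_mul_le {X Y I : Type u} [MeasurableSpace X] [MeasurableSpace Y]
    {μ : Measure X} [IsProbabilityMeasure μ] {ν : Measure Y} [IsProbabilityMeasure ν]
    {A : I → Set X} {B : I → Set Y} (hA : FairSigns μ A) (hB : FairSigns ν B)
    {f : X → ℝ} (hf : MemLp f 2 μ) {g : Y → ℝ} (hg : MemLp g 2 ν) {ε : ℝ} (hε : 0 ≤ ε)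
    (h1 : ∫ x, f x ^ 2 ∂μ ≤ ε ^ 2) (h2 : ∫ x, g x ^ 2 ∂ν ≤ ε ^ 2) (s : Finset (Finset I)) :
    |∑ G ∈ s, hat μ A f G * hat ν B g G| ≤ ε ^ 2 := by
  have h3 := (hA.bessel hf s).trans h1
  have h4 := (hB.bessel hg s).trans h2
  have h5 := Finset.sum_mul_sq_le_sq_mul_sq s (hat μ A f) (hat ν B g)
  have h6 : (∑ G ∈ s, hat μ A f G * hat ν B g G) ^ 2 ≤ (ε ^ 2) ^ 2 := by
    refine h5.trans ?_
    rw [sq (ε ^ 2)]
    exact mul_le_mul h3 h4 (Finset.sum_nonneg fun _ _ => sq_nonneg _) (by positivity)
  exact abs_le_of_sq_le_sq h6 (by positivity)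

end Pool.Agent.Lib.MP_177f07_gt
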